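import Mathlib

open MeasureTheory Filter Topology Set
open scoped ContDiff ENNReal

namespace Pool.Agent.Helper728.Coag

/-- The exponent `lambda = (1 - gamma)/2`, so that `gamma + 2 lambda = 1`. -/
noncomputable def lam (γ : ℝ) : ℝ := (1 - γ) / 2

/-- The kernel `K(x,y) = (x+y)^gamma F(x/(x+y))`, homogeneous of degree `gamma`. -/
noncomputable def kern (γ : ℝ) (F : ℝ → ℝ) (x y : ℝ) : ℝ := (x + y) ^ γ * F (x / (x + y))

/-- The standing hypotheses on `gamma` and on the profile `F` of the kernel. -/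
structure IsProfile (γ : ℝ) (F : ℝ → ℝ) : Prop where
  lt_one : γ < 1
  cont : ContinuousOn F (Ioo 0 1)
  nonneg : ∀ s ∈ Ioo (0:ℝ) 1, 0 ≤ F s
  symm : ∀ s ∈ Ioo (0:ℝ) 1, F (1 - s) = F s
  asymp : Tendsto (fun s => F s / s ^ (-lam γ)) (𝓝[>] 0) (𝓝 1)

/-- A source: a measure carried by `[1, L]` with `∫ x dη = 1`. -/
structure IsSource (η : Measure ℝ) (L : ℝ) : Prop where
  one_le : 1 ≤ L
  supp : η (Icc 1 L)ᶜ = 0
  mass : ∫⁻ x, ENNReal.ofReal x ∂η = 1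

/-- `f` is a Radon measure on `(0,∞)` (extended by zero to the real line) which solves
`K[f] - M x^{-lambda} f + η = 0` on `(0,∞)` in the sense of distributions, all terms being
locally integrable in `(0,∞)`. -/
structure IsSolution (γ : ℝ) (F : ℝ → ℝ) (η : Measure ℝ) (M : ℝ) (f : Measure ℝ) : Prop where
  pos : f (Iic 0) = 0
  radon : ∀ a b : ℝ, 0 < a → f (Icc a b) < ⊤
  gain : ∀ a b : ℝ, 0 < a → ∫⁻ p in {p : ℝ × ℝ | a ≤ p.1 + p.2 ∧ p.1 + p.2 ≤ b},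
    ENNReal.ofReal (kern γ F p.1 p.2) ∂(f.prod f) < ⊤
  loss : ∀ a b : ℝ, 0 < a → ∫⁻ p in {p : ℝ × ℝ | a ≤ p.1 ∧ p.1 ≤ b},
    ENNReal.ofReal (kern γ F p.1 p.2) ∂(f.prod f) < ⊤
  eq : ∀ φ : ℝ → ℝ, ContDiff ℝ ∞ φ → HasCompactSupport φ → tsupport φ ⊆ Ioi 0 →
    (1/2) * ∫ p, kern γ F p.1 p.2 * φ (p.1 + p.2) ∂(f.prod f)
      - ∫ p, kern γ F p.1 p.2 * φ p.1 ∂(f.prod f)
      - M * ∫ x, x ^ (-lam γ) * φ x ∂f + ∫ x, φ x ∂η = 0

/-- The set of all `M ≥ 0` for which there is a measure solution. -/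
def solvable (γ : ℝ) (F : ℝ → ℝ) (η : Measure ℝ) : Set ℝ :=
  {M | 0 ≤ M ∧ ∃ f : Measure ℝ, IsSolution γ F η M f}

/-- The set of all `M ≥ 0` for which there is a solution which is a function. -/
def solvableFun (γ : ℝ) (F : ℝ → ℝ) (η : Measure ℝ) : Set ℝ :=
  {M | 0 ≤ M ∧ ∃ f : ℝ → ℝ, Measurable f ∧ (∀ x, 0 ≤ f x) ∧
    IsSolution γ F η M (volume.withDensity fun x => ENNReal.ofReal (f x))}

/-- The set of sizes which can be built from the source: the smallest closed set which carries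
the source and contains `x + y` whenever it contains `x, y > 0` with `K(x,y) > 0`. -/
def reach (γ : ℝ) (F : ℝ → ℝ) (η : Measure ℝ) : Set ℝ :=
  ⋂₀ {C : Set ℝ | IsClosed C ∧ η Cᶜ = 0 ∧
    ∀ x ∈ C, ∀ y ∈ C, 0 < x → 0 < y → 0 < kern γ F x y → x + y ∈ C}

end Pool.Agent.Helper728.Coag
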