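import Mathlib
import Pool.Agent.Helper728.Coag.Brouwer

open Finset

namespace Pool.Agent.Helper728.Coag

lemma exists_box (κ : ℕ → ℕ → ℝ) (e ρ : ℕ → ℝ) 
    (hκ0 : ∀ j, κ 0 j = 0) (hκ0' : ∀ j, κ j 0 = 0) (he : ∀ i, 0 ≤ e i) (hρ : ∀ i, 0 < ρ i)
    (hκ : ∀ i j, 0 ≤ κ i j) (N : ℕ) :
    ∃ G : ℕ → ℝ, (∀ i, 0 ≤ G i) ∧ ∀ i < N,
      e i + (1/2) * ∑ p ∈ antidiagonal i, κ p.1 p.2 * G p.1 * G p.2 ≤ ρ i * G i := by
  induction N with
  | zero => exact ⟨fun _ => 0, fun _ => le_rfl, fun i hi => absurd hi (Nat.not_lt_zero i)⟩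
  | succ N ih =>
    obtain ⟨G, hG0, hG⟩ := ih
    set g : ℝ := (e N + (1/2) * ∑ p ∈ antidiagonal N, κ p.1 p.2 * G p.1 * G p.2) / ρ N with hg
    have hg0 : 0 ≤ g := by
      refine div_nonneg (add_nonneg (he N) (mul_nonneg (by norm_num) (sum_nonneg ?_))) (hρ N).le
      intro p _
      exact mul_nonneg (mul_nonneg (hκ _ _) (hG0 _)) (hG0 _)
    have key : ∀ i ≤ N, ∀ p ∈ antidiagonal i,
        κ p.1 p.2 * Function.update G N g p.1 * Function.update G N g p.2
          = κ p.1 p.2 * G p.1 * G p.2 := by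
      intro i hi p hp
      rw [HasAntidiagonal.mem_antidiagonal] at hp
      by_cases h1 : p.1 = N
      · have h2 : p.2 = 0 := by omega
        rw [h2, hκ0']; ring
      · by_cases h2 : p.2 = N
        · have h3 : p.1 = 0 := by omega
          rw [h3, hκ0]; ring
        · rw [Function.update_of_ne h1, Function.update_of_ne h2]
    refine ⟨Function.update G N g, ?_, ?_⟩
    · intro i
      by_cases h : i = N
      · subst h; simpa using hg0
      · rw [Function.update_of_ne h]; exact hG0 i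
    · intro i hi
      have hiN : i ≤ N := Nat.lt_succ_iff.mp hi
      rw [sum_congr rfl (key i hiN)]
      by_cases h : i = N
      · subst h
        rw [Function.update_self, hg, mul_div_cancel₀ _ (hρ i).ne']
      · rw [Function.update_of_ne h]
        exact hG i (lt_of_le_of_ne hiN h)

lemma exists_stationary (κ : ℕ → ℕ → ℝ) (e ρ : ℕ → ℝ) 
    (hκ0 : ∀ j, κ 0 j = 0) (hκ0' : ∀ j, κ j 0 = 0) (he : ∀ i, 0 ≤ e i) (hρ : ∀ i, 0 < ρ i)
    (hκ : ∀ i j, 0 ≤ κ i j) (P : ℕ) :
    ∃ c : ℕ → ℝ, (∀ i, 0 ≤ c i) ∧ (∀ i, P < i → c i = 0) ∧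
      ∀ i ≤ P, c i * (ρ i + ∑ j ∈ range (P+1), κ i j * c j)
        = e i + (1/2) * ∑ p ∈ antidiagonal i, κ p.1 p.2 * c p.1 * c p.2 := by
  obtain ⟨G, hG0, hG⟩ := exists_box κ e ρ hκ0 hκ0' he hρ hκ (P+1)
  let V : (Fin (P+1) → ℝ) → ℕ → ℝ := fun v i =>
    if h : i < P + 1 then max 0 (min (v ⟨i, h⟩) (G i)) else 0
  have hVcont : ∀ i, Continuous fun v => V v i := by
    intro i
    by_cases h : i < P + 1
    · simp only [V, h, dif_pos]
      fun_prop
    · simp only [V, h, dif_neg, not_false_iff]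
      exact continuous_const
  have hV0 : ∀ v i, 0 ≤ V v i := by
    intro v i
    by_cases h : i < P + 1
    · simp only [V, h, dif_pos]; exact le_max_left _ _
    · simp only [V, h, dif_neg, not_false_iff]; exact le_rfl
  have hVG : ∀ v i, V v i ≤ G i := by
    intro v i
    by_cases h : i < P + 1
    · simp only [V, h, dif_pos]; exact max_le (hG0 i) (min_le_right _ _)
    · simp only [V, h, dif_neg, not_false_iff]; exact hG0 i
  let D : (Fin (P+1) → ℝ) → ℕ → ℝ := fun v i => ρ i + ∑ j ∈ range (P+1), κ i j * V v j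
  let Nu : (Fin (P+1) → ℝ) → ℕ → ℝ := fun v i =>
    e i + (1/2) * ∑ p ∈ antidiagonal i, κ p.1 p.2 * V v p.1 * V v p.2
  have hD : ∀ v i, ρ i ≤ D v i := by
    intro v i
    have : 0 ≤ ∑ j ∈ range (P+1), κ i j * V v j :=
      sum_nonneg fun j _ => mul_nonneg (hκ _ _) (hV0 _ _)
    simp only [D]; linarith
  have hDpos : ∀ v i, 0 < D v i := fun v i => lt_of_lt_of_le (hρ i) (hD v i)
  have hNu0 : ∀ v i, 0 ≤ Nu v i := by
    intro v i
    refine add_nonneg (he i) (mul_nonneg (by norm_num) (sum_nonneg ?_))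
    intro p _
    exact mul_nonneg (mul_nonneg (hκ _ _) (hV0 _ _)) (hV0 _ _)
  have hNuG : ∀ v, ∀ i < P + 1, Nu v i ≤ ρ i * G i := by
    intro v i hi
    refine le_trans ?_ (hG i hi)
    have : ∑ p ∈ antidiagonal i, κ p.1 p.2 * V v p.1 * V v p.2
        ≤ ∑ p ∈ antidiagonal i, κ p.1 p.2 * G p.1 * G p.2 := by
      apply sum_le_sum
      intro p _
      refine mul_le_mul (mul_le_mul_of_nonneg_left (hVG _ _) (hκ _ _)) (hVG _ _) (hV0 _ _) ?_
      exact mul_nonneg (hκ _ _) (hG0 _)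
    simp only [Nu]; linarith
  let f : (Fin (P+1) → ℝ) → (Fin (P+1) → ℝ) := fun v i => Nu v i / D v i
  have hf : Continuous f := by
    refine continuous_pi fun i => ?_
    refine Continuous.div ?_ ?_ (fun v => (hDpos v i).ne')
    · refine continuous_const.add (continuous_const.mul (continuous_finsetSum _ fun p _ => ?_))
      exact (continuous_const.mul (hVcont _)).mul (hVcont _)
    · refine continuous_const.add (continuous_finsetSum _ fun j _ => ?_)
      exact continuous_const.mul (hVcont _)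
  have hfi : ∀ v (i : Fin (P+1)), 0 ≤ f v i ∧ f v i ≤ G i := by
    intro v i
    refine ⟨div_nonneg (hNu0 v i) (hDpos v i).le, ?_⟩
    simp only [f]
    rw [div_le_iff₀ (hDpos v i)]
    calc Nu v i ≤ ρ i * G i := hNuG v i i.2
      _ ≤ D v i * G i := mul_le_mul_of_nonneg_right (hD v i) (hG0 _)
      _ = G i * D v i := mul_comm _ _
  have hbd : ∀ v, ‖f v‖ ≤ ∑ i ∈ range (P+1), G i := by
    intro v
    rw [pi_norm_le_iff_of_nonneg (sum_nonneg fun i _ => hG0 i)]
    intro i
    rw [Real.norm_eq_abs, abs_of_nonneg (hfi v i).1]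
    refine (hfi v i).2.trans ?_
    exact single_le_sum (f := fun i => G i) (fun i _ => hG0 i) (mem_range.mpr i.2)
  obtain ⟨v, hv⟩ := Brouwer.brouwer f hf _ hbd
  have hVv : ∀ i : Fin (P+1), V v i = v i := by
    intro i
    have h1 := hfi v i
    rw [hv] at h1
    simp only [V, i.2, dif_pos, Fin.eta]
    rw [min_eq_left h1.2, max_eq_right h1.1]
  refine ⟨V v, hV0 v, ?_, ?_⟩
  · intro i hi
    have : ¬ i < P + 1 := by omega
    simp only [V, this, dif_neg, not_false_iff]
  · intro i hi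
    have hi' : i < P + 1 := by omega
    have h1 : V v i = f v ⟨i, hi'⟩ := by
      rw [hv]; exact hVv ⟨i, hi'⟩
    rw [h1]
    simp only [f]
    exact div_mul_cancel₀ _ (hDpos v i).ne'

/-- A stationary state of the truncated discrete system. -/
structure IsStat (κ : ℕ → ℕ → ℝ) (e ρ : ℕ → ℝ) (P : ℕ) (c : ℕ → ℝ) : Prop where
  nonneg : ∀ i, 0 ≤ c i
  zero : ∀ i, P < i → c i = 0
  eq : ∀ i ≤ P, c i * (ρ i + ∑ j ∈ range (P+1), κ i j * c j)
        = e i + (1/2) * ∑ p ∈ antidiagonal i, κ p.1 p.2 * c p.1 * c p.2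

lemma IsStat.weak {κ : ℕ → ℕ → ℝ} {e ρ : ℕ → ℝ} {P : ℕ} {c : ℕ → ℝ} (h : IsStat κ e ρ P c)
    (φ : ℕ → ℝ) (hφ : ∀ i, P < i → φ i = 0) :
    (1/2) * ∑ a ∈ range (P+1), ∑ b ∈ range (P+1), κ a b * c a * c b * φ (a+b)
      + ∑ i ∈ range (P+1), e i * φ i
    = ∑ a ∈ range (P+1), ∑ b ∈ range (P+1), κ a b * c a * c b * φ a
      + ∑ i ∈ range (P+1), ρ i * c i * φ i := by
  have h1 : ∑ i ∈ range (P+1), (c i * (ρ i + ∑ j ∈ range (P+1), κ i j * c j)) * φ i
      = ∑ i ∈ range (P+1),
        (e i + (1/2) * ∑ p ∈ antidiagonal i, κ p.1 p.2 * c p.1 * c p.2) * φ i := by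
    refine sum_congr rfl fun i hi => ?_
    rw [h.eq i (by have := mem_range.mp hi; omega)]
  have h2 : ∑ i ∈ range (P+1), (∑ p ∈ antidiagonal i, κ p.1 p.2 * c p.1 * c p.2) * φ i
      = ∑ a ∈ range (P+1), ∑ b ∈ range (P+1), κ a b * c a * c b * φ (a+b) := by
    have e1 : ∀ i ∈ range (P+1), (∑ p ∈ antidiagonal i, κ p.1 p.2 * c p.1 * c p.2) * φ i
        = ∑ k ∈ range (i+1), (fun a b => κ a b * c a * c b * φ (a+b)) k (i-k) := by
      intro i _
      rw [sum_mul, Finset.Nat.sum_antidiagonal_eq_sum_range_succ_mk]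
      refine sum_congr rfl fun k hk => ?_
      have : k ≤ i := by have := mem_range.mp hk; omega
      simp only
      rw [Nat.add_sub_cancel' this]
    rw [sum_congr rfl e1, sum_range_diag_flip (P+1) (fun a b => κ a b * c a * c b * φ (a+b))]
    refine sum_congr rfl fun a ha => ?_
    have ha' := mem_range.mp ha
    refine sum_subset ?_ ?_
    · intro b hb
      rw [mem_range] at hb ⊢
      omega
    · intro b _ hb
      rw [mem_range] at hb
      rw [hφ (a+b) (by omega), mul_zero]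
  have h3 : ∑ i ∈ range (P+1), (c i * (ρ i + ∑ j ∈ range (P+1), κ i j * c j)) * φ i
      = ∑ a ∈ range (P+1), ∑ b ∈ range (P+1), κ a b * c a * c b * φ a
      + ∑ i ∈ range (P+1), ρ i * c i * φ i := by
    rw [← sum_add_distrib]
    refine sum_congr rfl fun i _ => ?_
    rw [mul_add, add_mul, mul_sum, sum_mul, add_comm]
    congr 1
    · refine sum_congr rfl fun j _ => ?_
      ring
    · ring
  have h4 : ∑ i ∈ range (P+1),
        (e i + (1/2) * ∑ p ∈ antidiagonal i, κ p.1 p.2 * c p.1 * c p.2) * φ i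
      = (1/2) * ∑ a ∈ range (P+1), ∑ b ∈ range (P+1), κ a b * c a * c b * φ (a+b)
      + ∑ i ∈ range (P+1), e i * φ i := by
    rw [← h2, mul_sum, ← sum_add_distrib]
    refine sum_congr rfl fun i _ => ?_
    ring
  rw [← h4, ← h1, h3]

/-- The flux identity through the level `z`. -/
lemma IsStat.flux {κ : ℕ → ℕ → ℝ} {e ρ : ℕ → ℝ} {P : ℕ} {c : ℕ → ℝ} (h : IsStat κ e ρ P c)
    (hsymm : ∀ i j, κ i j = κ j i) (x : ℕ → ℝ) (hx : ∀ a b, x (a+b) = x a + x b)
    (z : ℕ) (hz : z ≤ P + 1) :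
    ∑ i ∈ range (P+1), (if i < z then e i * x i else 0)
      = ∑ a ∈ range (P+1), ∑ b ∈ range (P+1),
          (if a < z ∧ z ≤ a + b then κ a b * x a * c a * c b else 0)
        + ∑ i ∈ range (P+1), (if i < z then ρ i * x i * c i else 0) := by
  have hw := h.weak (fun i => if i < z then x i else 0) (by
    intro i hi
    rw [if_neg (by omega)])
  have s1 : (1/2) * ∑ a ∈ range (P+1), ∑ b ∈ range (P+1),
        κ a b * c a * c b * (if a + b < z then x (a+b) else 0)
      = ∑ a ∈ range (P+1), ∑ b ∈ range (P+1), κ a b * c a * c b * (if a + b < z then x a else 0) := by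
    have t1 : ∑ a ∈ range (P+1), ∑ b ∈ range (P+1),
        κ a b * c a * c b * (if a + b < z then x (a+b) else 0)
        = ∑ a ∈ range (P+1), ∑ b ∈ range (P+1), κ a b * c a * c b * (if a + b < z then x a else 0)
        + ∑ a ∈ range (P+1), ∑ b ∈ range (P+1), κ a b * c a * c b * (if a + b < z then x b else 0) := by
      rw [← sum_add_distrib]
      refine sum_congr rfl fun a _ => ?_
      rw [← sum_add_distrib]
      refine sum_congr rfl fun b _ => ?_
      split_ifs
      · rw [hx]; ring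
      · ring
    have t2 : ∑ a ∈ range (P+1), ∑ b ∈ range (P+1), κ a b * c a * c b * (if a + b < z then x b else 0)
        = ∑ a ∈ range (P+1), ∑ b ∈ range (P+1), κ a b * c a * c b * (if a + b < z then x a else 0) := by
      rw [sum_comm]
      refine sum_congr rfl fun a _ => sum_congr rfl fun b _ => ?_
      rw [hsymm b a, add_comm b a]; ring
    rw [t1, t2]; ring
  rw [s1] at hw
  have s2 : ∑ a ∈ range (P+1), ∑ b ∈ range (P+1), κ a b * c a * c b * (if a < z then x a else 0)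
      = ∑ a ∈ range (P+1), ∑ b ∈ range (P+1), κ a b * c a * c b * (if a + b < z then x a else 0)
      + ∑ a ∈ range (P+1), ∑ b ∈ range (P+1),
          (if a < z ∧ z ≤ a + b then κ a b * x a * c a * c b else 0) := by
    rw [← sum_add_distrib]
    refine sum_congr rfl fun a _ => ?_
    rw [← sum_add_distrib]
    refine sum_congr rfl fun b _ => ?_
    by_cases h1 : a + b < z
    · rw [if_pos (by omega : a < z), if_pos h1, if_neg (by omega)]; ring
    · by_cases h2 : a < z
      · rw [if_pos h2, if_neg h1, if_pos ⟨h2, by omega⟩]; ring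
      · rw [if_neg h2, if_neg h1, if_neg (by tauto)]; ring
  rw [s2] at hw
  have s3 : ∑ i ∈ range (P+1), e i * (if i < z then x i else 0)
      = ∑ i ∈ range (P+1), (if i < z then e i * x i else 0) := by
    refine sum_congr rfl fun i _ => ?_
    split_ifs <;> ring
  have s4 : ∑ i ∈ range (P+1), ρ i * c i * (if i < z then x i else 0)
      = ∑ i ∈ range (P+1), (if i < z then ρ i * x i * c i else 0) := by
    refine sum_congr rfl fun i _ => ?_
    split_ifs <;> ring
  rw [s3, s4] at hw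
  linarith

end Pool.Agent.Helper728.Coag
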