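import Mathlib

open MeasureTheory Filter Topology Set
open scoped ContDiff ENNReal

namespace Pool.Agent.Helper728.Coag

/-- smooth functions converging to the indicator of an interval -/
lemma exists_smooth_seq {a b : ℝ} (ha : 0 < a) (hab : a < b) :
    ∃ φ : ℕ → ℝ → ℝ, (∀ n, ContDiff ℝ ∞ (φ n)) ∧ (∀ n, HasCompactSupport (φ n)) ∧
      (∀ n, tsupport (φ n) ⊆ Ioi 0) ∧ (∀ n x, 0 ≤ φ n x) ∧ (∀ n x, φ n x ≤ 1) ∧
      (∀ n x, x ∉ Icc a b → φ n x = 0) ∧
      (∀ x, Tendsto (fun n => φ n x) atTop (𝓝 ((Ioo a b).indicator (fun _ => (1:ℝ)) x))) := by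
  set c := (a+b)/2 with hc
  set R := (b-a)/2 with hR
  have hR0 : 0 < R := by rw [hR]; linarith
  have hfrac : ∀ n : ℕ, 0 < 1/((n:ℝ)+2) ∧ 1/((n:ℝ)+2) < 1 := by
    intro n
    have : (0:ℝ) ≤ n := Nat.cast_nonneg n
    refine ⟨by positivity, ?_⟩
    rw [div_lt_one (by linarith)]
    linarith
  let f : ℕ → ContDiffBump c := fun n =>
    ⟨R * (1 - 1/((n:ℝ)+2)), R, mul_pos hR0 (by linarith [(hfrac n).2]), by
      have := (hfrac n).1
      nlinarith⟩
  have hball : Metric.ball c R = Ioo a b := by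
    rw [Real.ball_eq_Ioo]
    congr 1 <;> rw [hc, hR] <;> ring
  have hcball : Metric.closedBall c R = Icc a b := by
    rw [Real.closedBall_eq_Icc]
    congr 1 <;> rw [hc, hR] <;> ring
  refine ⟨fun n => f n, fun n => (f n).contDiff, fun n => (f n).hasCompactSupport, ?_,
    fun n x => (f n).nonneg, fun n x => (f n).le_one, ?_, ?_⟩
  · intro n
    rw [(f n).tsupport_eq]
    change Metric.closedBall c R ⊆ _
    rw [hcball]
    intro x hx
    exact lt_of_lt_of_le ha hx.1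
  · intro n x hx
    refine (f n).zero_of_le_dist ?_
    change R ≤ dist x c
    rw [← hcball, Metric.mem_closedBall, not_le] at hx
    exact hx.le
  · intro x
    by_cases hx : x ∈ Ioo a b
    · rw [indicator_of_mem hx]
      rw [← hball, Metric.mem_ball] at hx
      refine tendsto_const_nhds.congr' ?_
      have h1 : Tendsto (fun n : ℕ => R * (1 - 1/((n:ℝ)+2))) atTop (𝓝 (R * (1 - 0))) := by
        refine tendsto_const_nhds.mul (tendsto_const_nhds.sub ?_)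
        have h2 : Tendsto (fun n : ℕ => (n:ℝ)+2) atTop atTop :=
          tendsto_atTop_add_const_right _ _ tendsto_natCast_atTop_atTop
        exact tendsto_const_nhds.div_atTop h2
      rw [sub_zero, mul_one] at h1
      filter_upwards [h1.eventually (lt_mem_nhds hx)] with n hn
      symm
      exact (f n).one_of_mem_closedBall (by
        rw [Metric.mem_closedBall]
        exact hn.le)
    · rw [indicator_of_notMem hx]
      refine tendsto_const_nhds.congr fun n => ?_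
      symm
      have : x ∉ Function.support (f n) := by
        rw [(f n).support_eq]
        change x ∉ Metric.ball c R
        rwa [hball]
      simpa using this

lemma measure_eq_of_smooth {ν₁ ν₂ : Measure ℝ} (h1 : ∀ a b : ℝ, 0 < a → ν₁ (Icc a b) < ⊤)
    (h2 : ∀ a b : ℝ, 0 < a → ν₂ (Icc a b) < ⊤) (h01 : ν₁ (Iic 0) = 0) (h02 : ν₂ (Iic 0) = 0)
    (h : ∀ φ : ℝ → ℝ, ContDiff ℝ ∞ φ → HasCompactSupport φ → tsupport φ ⊆ Ioi 0 →
      (∀ x, 0 ≤ φ x) → (∀ x, φ x ≤ 1) → 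
      ∫⁻ x, ENNReal.ofReal (φ x) ∂ν₁ = ∫⁻ x, ENNReal.ofReal (φ x) ∂ν₂) : ν₁ = ν₂ := by
  have hlim : ∀ (ν : Measure ℝ), (∀ a b : ℝ, 0 < a → ν (Icc a b) < ⊤) →
      ∀ (a b : ℝ), 0 < a → ∀ (φ : ℕ → ℝ → ℝ), (∀ n, ContDiff ℝ ∞ (φ n)) →
      (∀ n x, 0 ≤ φ n x) → (∀ n x, φ n x ≤ 1) → (∀ n x, x ∉ Icc a b → φ n x = 0) →
      (∀ x, Tendsto (fun n => φ n x) atTop (𝓝 ((Ioo a b).indicator (fun _ => (1:ℝ)) x))) →
      Tendsto (fun n => ∫⁻ x, ENNReal.ofReal (φ n x) ∂ν) atTop (𝓝 (ν (Ioo a b))) := by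
    intro ν hν a b ha φ hφc hφ0 hφ1 hφs hφt
    have e : ν (Ioo a b) = ∫⁻ x, ENNReal.ofReal ((Ioo a b).indicator (fun _ => (1:ℝ)) x) ∂ν := by
      rw [← lintegral_indicator_one measurableSet_Ioo]
      refine lintegral_congr fun x => ?_
      by_cases hx : x ∈ Ioo a b
      · rw [indicator_of_mem hx, indicator_of_mem hx]; simp
      · rw [indicator_of_notMem hx, indicator_of_notMem hx]; simp
    rw [e]
    refine tendsto_lintegral_of_dominated_convergence ((Icc a b).indicator 1) ?_ ?_ ?_ ?_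
    · intro n
      exact ((hφc n).continuous.measurable).ennreal_ofReal
    · intro n
      refine Eventually.of_forall fun x => ?_
      by_cases hx : x ∈ Icc a b
      · rw [indicator_of_mem hx]
        simpa using hφ1 n x
      · rw [indicator_of_notMem hx]
        simp [hφs n x hx]
    · rw [lintegral_indicator_one measurableSet_Icc]
      exact (hν a b ha).ne
    · refine Eventually.of_forall fun x => ?_
      exact (ENNReal.continuous_ofReal.tendsto _).comp (hφt x)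
  have hIoo : ∀ a b : ℝ, 0 < a → ν₁ (Ioo a b) = ν₂ (Ioo a b) := by
    intro a b ha
    rcases lt_or_ge a b with hab | hab
    · obtain ⟨φ, p1, p2, p3, p4, p5, p6, p7⟩ := exists_smooth_seq ha hab
      refine tendsto_nhds_unique (hlim ν₁ h1 a b ha φ p1 p4 p5 p6 p7) ?_
      refine (hlim ν₂ h2 a b ha φ p1 p4 p5 p6 p7).congr fun n => ?_
      exact (h (φ n) (p1 n) (p2 n) (p3 n) (p4 n) (p5 n)).symm
    · rw [Ioo_eq_empty (not_lt.mpr hab)]; simp
  have hres : ∀ n : ℕ, ν₁.restrict (Ioo (1/((n:ℝ)+1)) (n+1)) = ν₂.restrict (Ioo (1/((n:ℝ)+1)) (n+1)) := by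
    intro n
    have hn : (0:ℝ) < 1/((n:ℝ)+1) := by positivity
    have : IsFiniteMeasure (ν₁.restrict (Ioo (1/((n:ℝ)+1)) (n+1))) := by
      refine ⟨?_⟩
      rw [Measure.restrict_apply_univ]
      exact lt_of_le_of_lt (measure_mono Ioo_subset_Icc_self) (h1 _ _ hn)
    refine Real.measure_ext_Ioo_rat fun a b => ?_
    rw [Measure.restrict_apply measurableSet_Ioo, Measure.restrict_apply measurableSet_Ioo,
      Ioo_inter_Ioo]
    exact hIoo _ _ (lt_of_lt_of_le hn (le_max_right _ _))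
  have hU : (⋃ n : ℕ, Ioo (1/((n:ℝ)+1)) ((n:ℝ)+1)) = Ioi 0 := by
    ext x
    simp only [mem_iUnion, mem_Ioo, mem_Ioi]
    constructor
    · rintro ⟨n, hn1, _⟩
      exact lt_trans (by positivity) hn1
    · intro hx
      obtain ⟨n, hn⟩ := exists_nat_gt (max x (1/x))
      refine ⟨n, ?_, ?_⟩
      · have h3 : 1/x < (n:ℝ) + 1 := by linarith [le_max_right x (1/x)]
        rw [div_lt_iff₀ (by positivity)]
        rw [div_lt_iff₀ hx] at h3
        linarith
      · linarith [le_max_left x (1/x)]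
  have hI : ν₁.restrict (Ioi 0) = ν₂.restrict (Ioi 0) := by
    rw [← hU, Measure.restrict_iUnion_congr]
    exact hres
  have hr : ∀ ν : Measure ℝ, ν (Iic 0) = 0 → ν.restrict (Ioi 0) = ν := by
    intro ν hν
    refine Measure.restrict_eq_self_of_ae_mem ?_
    rw [ae_iff]
    convert hν using 2
    ext x; simp
  rw [← hr ν₁ h01, ← hr ν₂ h02, hI]

/-- From the distributional equation to an equality of measures, tested by arbitrary nonnegative
measurable functions. -/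
lemma measure_identity (μ η : Measure ℝ) [SFinite μ] (κ : ℝ × ℝ → ℝ) (hκm : Measurable κ)
    (hκ0 : ∀ᵐ p ∂(μ.prod μ), 0 ≤ κ p) (r : ℝ → ℝ) (hr : Measurable r) (hr0 : ∀ᵐ x ∂μ, 0 ≤ r x)
    (hμ0 : μ (Iic 0) = 0) (hη0 : η (Iic 0) = 0)
    (hg : ∀ a b : ℝ, 0 < a → ∫⁻ p in {p : ℝ × ℝ | a ≤ p.1 + p.2 ∧ p.1 + p.2 ≤ b},
      ENNReal.ofReal (κ p) ∂(μ.prod μ) < ⊤)
    (hl : ∀ a b : ℝ, 0 < a → ∫⁻ p in {p : ℝ × ℝ | a ≤ p.1 ∧ p.1 ≤ b},
      ENNReal.ofReal (κ p) ∂(μ.prod μ) < ⊤)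
    (hrm : ∀ a b : ℝ, 0 < a → ∫⁻ x in Icc a b, ENNReal.ofReal (r x) ∂μ < ⊤)
    (hη : ∀ a b : ℝ, 0 < a → η (Icc a b) < ⊤)
    (heq : ∀ φ : ℝ → ℝ, ContDiff ℝ ∞ φ → HasCompactSupport φ → tsupport φ ⊆ Ioi 0 →
      (1/2) * ∫ p, κ p * φ (p.1 + p.2) ∂(μ.prod μ) - ∫ p, κ p * φ p.1 ∂(μ.prod μ)
        - ∫ x, r x * φ x ∂μ + ∫ x, φ x ∂η = 0)
    (ψ : ℝ → ℝ≥0∞) (hψ : Measurable ψ) :
    ∫⁻ p, ψ (p.1 + p.2) * ENNReal.ofReal (κ p) ∂(μ.prod μ) + 2 * ∫⁻ x, ψ x ∂η
      = 2 * ∫⁻ p, ψ p.1 * ENNReal.ofReal (κ p) ∂(μ.prod μ)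
        + 2 * ∫⁻ x, ψ x * ENNReal.ofReal (r x) ∂μ := by
  set νκ : Measure (ℝ × ℝ) := (μ.prod μ).withDensity (fun p => ENNReal.ofReal (κ p)) with hνκ
  have hκe : Measurable fun p => ENNReal.ofReal (κ p) := hκm.ennreal_ofReal
  have hre : Measurable fun x => ENNReal.ofReal (r x) := hr.ennreal_ofReal
  have hadd : Measurable fun p : ℝ × ℝ => p.1 + p.2 := measurable_fst.add measurable_snd
  have I1 : ∀ χ : ℝ → ℝ≥0∞, Measurable χ → ∫⁻ x, χ x ∂(νκ.map (fun p => p.1 + p.2))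
      = ∫⁻ p, χ (p.1 + p.2) * ENNReal.ofReal (κ p) ∂(μ.prod μ) := by
    intro χ hχ
    rw [lintegral_map hχ hadd, hνκ, lintegral_withDensity_eq_lintegral_mul _ hκe
      (show Measurable (fun p : ℝ × ℝ => χ (p.1 + p.2)) from hχ.comp hadd)]
    refine lintegral_congr fun p => ?_
    simp [mul_comm]
  have I2 : ∀ χ : ℝ → ℝ≥0∞, Measurable χ → ∫⁻ x, χ x ∂(νκ.map Prod.fst)
      = ∫⁻ p, χ p.1 * ENNReal.ofReal (κ p) ∂(μ.prod μ) := by
    intro χ hχ
    rw [lintegral_map hχ measurable_fst, hνκ, lintegral_withDensity_eq_lintegral_mul _ hκe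
      (show Measurable (fun p : ℝ × ℝ => χ p.1) from hχ.comp measurable_fst)]
    refine lintegral_congr fun p => ?_
    simp [mul_comm]
  have I3 : ∀ χ : ℝ → ℝ≥0∞, Measurable χ →
      ∫⁻ x, χ x ∂(μ.withDensity (fun x => ENNReal.ofReal (r x)))
      = ∫⁻ x, χ x * ENNReal.ofReal (r x) ∂μ := by
    intro χ hχ
    rw [lintegral_withDensity_eq_lintegral_mul _ hre hχ]
    refine lintegral_congr fun p => ?_
    simp [mul_comm]
  set ν₁ : Measure ℝ := νκ.map (fun p => p.1 + p.2) + (2:ℝ≥0∞) • η with hν₁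
  set ν₂ : Measure ℝ := (2:ℝ≥0∞) • νκ.map Prod.fst
    + (2:ℝ≥0∞) • μ.withDensity (fun x => ENNReal.ofReal (r x)) with hν₂
  have J1 : ∀ χ : ℝ → ℝ≥0∞, Measurable χ → ∫⁻ x, χ x ∂ν₁
      = ∫⁻ p, χ (p.1 + p.2) * ENNReal.ofReal (κ p) ∂(μ.prod μ) + 2 * ∫⁻ x, χ x ∂η := by
    intro χ hχ
    rw [hν₁, lintegral_add_measure, lintegral_smul_measure, I1 χ hχ, smul_eq_mul]
  have J2 : ∀ χ : ℝ → ℝ≥0∞, Measurable χ → ∫⁻ x, χ x ∂ν₂
      = 2 * ∫⁻ p, χ p.1 * ENNReal.ofReal (κ p) ∂(μ.prod μ)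
        + 2 * ∫⁻ x, χ x * ENNReal.ofReal (r x) ∂μ := by
    intro χ hχ
    rw [hν₂, lintegral_add_measure, lintegral_smul_measure, lintegral_smul_measure, I2 χ hχ,
      I3 χ hχ, smul_eq_mul, smul_eq_mul]
  have posae : ∀ᵐ x ∂μ, 0 < x := by
    rw [ae_iff]; convert hμ0 using 2; ext x; simp
  have posae2 : ∀ᵐ p ∂(μ.prod μ), 0 < p.1 ∧ 0 < p.2 := by
    have h1 : ∀ᵐ p ∂(μ.prod μ), 0 < p.1 := Measure.quasiMeasurePreserving_fst.ae posae
    have h2 : ∀ᵐ p ∂(μ.prod μ), 0 < p.2 := Measure.quasiMeasurePreserving_snd.ae posae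
    filter_upwards [h1, h2] with p hp1 hp2 using ⟨hp1, hp2⟩
  have posη : ∀ᵐ x ∂η, 0 < x := by
    rw [ae_iff]; convert hη0 using 2; ext x; simp
  have measI : ∀ a b : ℝ, Measurable ((Icc a b).indicator (1 : ℝ → ℝ≥0∞)) := fun a b =>
    measurable_one.indicator measurableSet_Icc
  have A1 : ∀ a b : ℝ, ∫⁻ p, (Icc a b).indicator (1 : ℝ → ℝ≥0∞) (p.1 + p.2) *
      ENNReal.ofReal (κ p) ∂(μ.prod μ)
      = ∫⁻ p in {p : ℝ × ℝ | a ≤ p.1 + p.2 ∧ p.1 + p.2 ≤ b}, ENNReal.ofReal (κ p) ∂(μ.prod μ) := by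
    intro a b
    rw [← lintegral_indicator (show MeasurableSet {p : ℝ × ℝ | a ≤ p.1 + p.2 ∧ p.1 + p.2 ≤ b}
      from (measurableSet_Icc (a := a) (b := b)).preimage hadd)]
    refine lintegral_congr fun p => ?_
    by_cases hp : p.1 + p.2 ∈ Icc a b
    · rw [indicator_of_mem hp, indicator_of_mem (show p ∈ {p : ℝ × ℝ | a ≤ p.1 + p.2 ∧ p.1 + p.2 ≤ b} from hp)]
      simp
    · rw [indicator_of_notMem hp, indicator_of_notMem (show p ∉ {p : ℝ × ℝ | a ≤ p.1 + p.2 ∧ p.1 + p.2 ≤ b} from hp)]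
      simp
  have A2 : ∀ a b : ℝ, ∫⁻ p, (Icc a b).indicator (1 : ℝ → ℝ≥0∞) p.1 *
      ENNReal.ofReal (κ p) ∂(μ.prod μ)
      = ∫⁻ p in {p : ℝ × ℝ | a ≤ p.1 ∧ p.1 ≤ b}, ENNReal.ofReal (κ p) ∂(μ.prod μ) := by
    intro a b
    rw [← lintegral_indicator (show MeasurableSet {p : ℝ × ℝ | a ≤ p.1 ∧ p.1 ≤ b}
      from (measurableSet_Icc (a := a) (b := b)).preimage measurable_fst)]
    refine lintegral_congr fun p => ?_
    by_cases hp : p.1 ∈ Icc a b
    · rw [indicator_of_mem hp, indicator_of_mem (show p ∈ {p : ℝ × ℝ | a ≤ p.1 ∧ p.1 ≤ b} from hp)]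
      simp
    · rw [indicator_of_notMem hp, indicator_of_notMem (show p ∉ {p : ℝ × ℝ | a ≤ p.1 ∧ p.1 ≤ b} from hp)]
      simp
  have A3 : ∀ a b : ℝ, ∫⁻ x, (Icc a b).indicator (1 : ℝ → ℝ≥0∞) x * ENNReal.ofReal (r x) ∂μ
      = ∫⁻ x in Icc a b, ENNReal.ofReal (r x) ∂μ := by
    intro a b
    rw [← lintegral_indicator measurableSet_Icc]
    refine lintegral_congr fun x => ?_
    by_cases hp : x ∈ Icc a b
    · rw [indicator_of_mem hp, indicator_of_mem hp]; simp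
    · rw [indicator_of_notMem hp, indicator_of_notMem hp]; simp
  have F1 : ∀ a b : ℝ, 0 < a → ν₁ (Icc a b) < ⊤ := by
    intro a b ha
    rw [← lintegral_indicator_one measurableSet_Icc, J1 _ (measI a b), A1,
      lintegral_indicator_one measurableSet_Icc]
    exact ENNReal.add_lt_top.mpr ⟨hg a b ha, ENNReal.mul_lt_top (by simp) (hη a b ha)⟩
  have F2 : ∀ a b : ℝ, 0 < a → ν₂ (Icc a b) < ⊤ := by
    intro a b ha
    rw [← lintegral_indicator_one measurableSet_Icc, J2 _ (measI a b), A2, A3]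
    exact ENNReal.add_lt_top.mpr ⟨ENNReal.mul_lt_top (by simp) (hl a b ha),
      ENNReal.mul_lt_top (by simp) (hrm a b ha)⟩
  have measN : Measurable ((Iic (0:ℝ)).indicator (1 : ℝ → ℝ≥0∞)) :=
    measurable_one.indicator measurableSet_Iic
  have Z1 : ν₁ (Iic 0) = 0 := by
    rw [← lintegral_indicator_one measurableSet_Iic, J1 _ measN,
      lintegral_indicator_one measurableSet_Iic, hη0, mul_zero, add_zero]
    refine lintegral_eq_zero_of_ae_eq_zero ?_
    filter_upwards [posae2] with p hp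
    have : p.1 + p.2 ∉ Iic (0:ℝ) := by
      rw [mem_Iic, not_le]; exact add_pos hp.1 hp.2
    simp [indicator_of_notMem this]
  have Z2 : ν₂ (Iic 0) = 0 := by
    have z1 : ∫⁻ p, (Iic (0:ℝ)).indicator (1 : ℝ → ℝ≥0∞) p.1 * ENNReal.ofReal (κ p) ∂(μ.prod μ)
        = 0 := by
      refine lintegral_eq_zero_of_ae_eq_zero ?_
      filter_upwards [posae2] with p hp
      have : p.1 ∉ Iic (0:ℝ) := by rw [mem_Iic, not_le]; exact hp.1
      simp [indicator_of_notMem this]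
    have z2 : ∫⁻ x, (Iic (0:ℝ)).indicator (1 : ℝ → ℝ≥0∞) x * ENNReal.ofReal (r x) ∂μ = 0 := by
      refine lintegral_eq_zero_of_ae_eq_zero ?_
      filter_upwards [posae] with x hx
      have : x ∉ Iic (0:ℝ) := by rw [mem_Iic, not_le]; exact hx
      simp [indicator_of_notMem this]
    rw [← lintegral_indicator_one measurableSet_Iic, J2 _ measN, z1, z2]
    simp
  have key : ν₁ = ν₂ := by
    refine measure_eq_of_smooth F1 F2 Z1 Z2 ?_
    intro φ hφc hφs hφp hφ0 hφ1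
    have hφm : Measurable φ := hφc.continuous.measurable
    have hφe : Measurable fun x => ENNReal.ofReal (φ x) := hφm.ennreal_ofReal
    -- the support sits in a compact interval
    obtain ⟨a, b, ha, hab⟩ : ∃ a b : ℝ, 0 < a ∧ tsupport φ ⊆ Icc a b := by
      rcases (tsupport φ).eq_empty_or_nonempty with he | hne
      · exact ⟨1, 1, one_pos, by rw [he]; exact empty_subset _⟩
      · have hc : IsCompact (tsupport φ) := hφs
        refine ⟨sInf (tsupport φ), sSup (tsupport φ), hφp (hc.sInf_mem hne), ?_⟩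
        exact fun x hx => ⟨csInf_le hc.bddBelow hx, le_csSup hc.bddAbove hx⟩
    have hdom : ∀ x, ENNReal.ofReal (φ x) ≤ (Icc a b).indicator (1 : ℝ → ℝ≥0∞) x := by
      intro x
      by_cases hx : x ∈ Icc a b
      · rw [indicator_of_mem hx]; simpa using hφ1 x
      · have : φ x = 0 := by
          by_contra hne
          exact hx (hab (subset_tsupport _ hne))
        rw [indicator_of_notMem hx, this]; simp
    rw [J1 _ hφe, J2 _ hφe]
    have g1 : ∫⁻ p, ENNReal.ofReal (φ (p.1 + p.2)) * ENNReal.ofReal (κ p) ∂(μ.prod μ) < ⊤ := by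
      refine lt_of_le_of_lt ?_ (hg a b ha)
      rw [← A1]
      exact lintegral_mono fun p => mul_le_mul_left (hdom _) _
    have g2 : ∫⁻ p, ENNReal.ofReal (φ p.1) * ENNReal.ofReal (κ p) ∂(μ.prod μ) < ⊤ := by
      refine lt_of_le_of_lt ?_ (hl a b ha)
      rw [← A2]
      exact lintegral_mono fun p => mul_le_mul_left (hdom _) _
    have g3 : ∫⁻ x, ENNReal.ofReal (φ x) * ENNReal.ofReal (r x) ∂μ < ⊤ := by
      refine lt_of_le_of_lt ?_ (hrm a b ha)
      rw [← A3]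
      exact lintegral_mono fun p => mul_le_mul_left (hdom _) _
    have g4 : ∫⁻ x, ENNReal.ofReal (φ x) ∂η < ⊤ := by
      refine lt_of_le_of_lt ?_ (hη a b ha)
      rw [← lintegral_indicator_one measurableSet_Icc]
      exact lintegral_mono fun p => hdom _
    have r1 : ∫ p, κ p * φ (p.1 + p.2) ∂(μ.prod μ)
        = (∫⁻ p, ENNReal.ofReal (φ (p.1 + p.2)) * ENNReal.ofReal (κ p) ∂(μ.prod μ)).toReal := by
      rw [integral_eq_lintegral_of_nonneg_ae]
      · congr 1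
        refine lintegral_congr_ae ?_
        filter_upwards [hκ0] with p hp
        rw [ENNReal.ofReal_mul hp, mul_comm]
      · filter_upwards [hκ0] with p hp using mul_nonneg hp (hφ0 _)
      · exact (hκm.mul (hφm.comp hadd)).aestronglyMeasurable
    have r2 : ∫ p, κ p * φ p.1 ∂(μ.prod μ)
        = (∫⁻ p, ENNReal.ofReal (φ p.1) * ENNReal.ofReal (κ p) ∂(μ.prod μ)).toReal := by
      rw [integral_eq_lintegral_of_nonneg_ae]
      · congr 1
        refine lintegral_congr_ae ?_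
        filter_upwards [hκ0] with p hp
        rw [ENNReal.ofReal_mul hp, mul_comm]
      · filter_upwards [hκ0] with p hp using mul_nonneg hp (hφ0 _)
      · exact (hκm.mul (hφm.comp measurable_fst)).aestronglyMeasurable
    have r3 : ∫ x, r x * φ x ∂μ
        = (∫⁻ x, ENNReal.ofReal (φ x) * ENNReal.ofReal (r x) ∂μ).toReal := by
      rw [integral_eq_lintegral_of_nonneg_ae]
      · congr 1
        refine lintegral_congr_ae ?_
        filter_upwards [hr0] with p hp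
        rw [ENNReal.ofReal_mul hp, mul_comm]
      · filter_upwards [hr0] with p hp using mul_nonneg hp (hφ0 _)
      · exact (hr.mul hφm).aestronglyMeasurable
    have r4 : ∫ x, φ x ∂η = (∫⁻ x, ENNReal.ofReal (φ x) ∂η).toReal := by
      rw [integral_eq_lintegral_of_nonneg_ae]
      · exact Eventually.of_forall hφ0
      · exact hφm.aestronglyMeasurable
    have hE := heq φ hφc hφs hφp
    rw [r1, r2, r3, r4] at hE
    have t2 : (2:ℝ≥0∞) ≠ ⊤ := by simp
    rw [← ENNReal.toReal_eq_toReal_iff' (ENNReal.add_ne_top.mpr ⟨g1.ne, ENNReal.mul_ne_top t2 g4.ne⟩)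
      (ENNReal.add_ne_top.mpr ⟨ENNReal.mul_ne_top t2 g2.ne, ENNReal.mul_ne_top t2 g3.ne⟩),
      ENNReal.toReal_add g1.ne (ENNReal.mul_ne_top t2 g4.ne),
      ENNReal.toReal_add (ENNReal.mul_ne_top t2 g2.ne) (ENNReal.mul_ne_top t2 g3.ne),
      ENNReal.toReal_mul, ENNReal.toReal_mul, ENNReal.toReal_mul]
    simp only [ENNReal.toReal_ofNat]
    linarith
  rw [← J1 ψ hψ, ← J2 ψ hψ, key]

end Pool.Agent.Helper728.Coag
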