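import Mathlib
import Pool.Agent.Helper728.Coag.Defs

open MeasureTheory Filter Topology Set
open scoped ContDiff ENNReal

namespace Pool.Agent.Helper728.Coag

/-! ### Reduction to the exponent `lambda = 1` -/

/-- The normalised profile. -/
noncomputable def hh (γ : ℝ) (F : ℝ → ℝ) (s : ℝ) : ℝ :=
  if 0 < s ∧ s < 1 then F s * s ^ (lam γ) * (1 - s) ^ (lam γ) else 1

/-- The reduced kernel. -/
noncomputable def kk (h : ℝ → ℝ) (p : ℝ × ℝ) : ℝ := (p.1⁻¹ + p.2⁻¹) * h (p.1 / (p.1 + p.2))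

lemma hh_cont {γ : ℝ} {F : ℝ → ℝ} (hF : IsProfile γ F) : Continuous (hh γ F) := by
  have hlam : 0 < lam γ := by unfold lam; linarith [hF.lt_one]
  -- the right limit at zero
  have lim0 : Tendsto (fun s => F s * s ^ (lam γ) * (1 - s) ^ (lam γ)) (𝓝[>] 0) (𝓝 1) := by
    have h1 : Tendsto (fun s : ℝ => (1 - s) ^ (lam γ)) (𝓝[>] 0) (𝓝 1) := by
      have : ContinuousAt (fun s : ℝ => (1 - s) ^ (lam γ)) 0 :=
        ContinuousAt.rpow_const (by fun_prop) (Or.inl (by norm_num))
      have h2 := this.tendsto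
      simp only [sub_zero, Real.one_rpow] at h2
      exact h2.mono_left nhdsWithin_le_nhds
    have h3 : Tendsto (fun s => F s * s ^ (lam γ)) (𝓝[>] 0) (𝓝 1) := by
      refine hF.asymp.congr' ?_
      filter_upwards [self_mem_nhdsWithin] with s hs
      rw [Real.rpow_neg (le_of_lt hs), div_inv_eq_mul]
    simpa using h3.mul h1
  have lim1 : Tendsto (fun s => F s * s ^ (lam γ) * (1 - s) ^ (lam γ)) (𝓝[<] 1) (𝓝 1) := by
    have h1 : Tendsto (fun s : ℝ => 1 - s) (𝓝[<] 1) (𝓝[>] 0) := by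
      refine tendsto_nhdsWithin_iff.mpr ⟨?_, ?_⟩
      · have : Tendsto (fun s : ℝ => 1 - s) (𝓝 1) (𝓝 (1 - 1)) := by
          exact (continuous_const.sub continuous_id).tendsto _
        rw [sub_self] at this
        exact this.mono_left nhdsWithin_le_nhds
      · filter_upwards [self_mem_nhdsWithin] with s hs
        simpa using hs
    refine (lim0.comp h1).congr' ?_
    have hmem : Ioo (0:ℝ) 1 ∈ 𝓝[<] (1:ℝ) := Ioo_mem_nhdsLT one_pos
    filter_upwards [hmem] with s hs
    simp only [Function.comp]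
    rw [hF.symm s hs]
    ring_nf
  rw [continuous_iff_continuousAt]
  intro s
  rcases lt_trichotomy s 0 with hs | hs | hs
  · have : hh γ F =ᶠ[𝓝 s] fun _ => 1 := by
      filter_upwards [Iio_mem_nhds hs] with t ht
      unfold hh; rw [if_neg]; rintro ⟨h1, _⟩; exact absurd h1 (not_lt.mpr (le_of_lt ht))
    exact (continuousAt_const (y := (1:ℝ))).congr this.symm
  · subst hs
    have h0 : hh γ F 0 = 1 := by unfold hh; rw [if_neg]; rintro ⟨h1, _⟩; exact lt_irrefl _ h1
    rw [continuousAt_iff_continuous_left'_right']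
    refine ⟨?_, ?_⟩
    · change Tendsto _ _ _
      rw [h0]
      refine tendsto_const_nhds.congr' ?_
      filter_upwards [self_mem_nhdsWithin] with t ht
      unfold hh; rw [if_neg]; rintro ⟨h1, _⟩; exact absurd h1 (not_lt.mpr (le_of_lt ht))
    · change Tendsto _ _ _
      rw [h0]
      refine lim0.congr' ?_
      filter_upwards [Ioo_mem_nhdsGT one_pos] with t ht
      unfold hh; rw [if_pos ⟨ht.1, ht.2⟩]
  rcases lt_trichotomy s 1 with hs1 | hs1 | hs1
  · have : hh γ F =ᶠ[𝓝 s] fun s => F s * s ^ (lam γ) * (1 - s) ^ (lam γ) := by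
      filter_upwards [Ioo_mem_nhds hs hs1] with t ht
      unfold hh; rw [if_pos ⟨ht.1, ht.2⟩]
    refine ContinuousAt.congr ?_ this.symm
    have c1 : ContinuousAt F s := hF.cont.continuousAt (Ioo_mem_nhds hs hs1)
    have c2 : ContinuousAt (fun s : ℝ => s ^ (lam γ)) s :=
      ContinuousAt.rpow_const continuousAt_id (Or.inl (by simpa using hs.ne'))
    have c3 : ContinuousAt (fun s : ℝ => (1 - s) ^ (lam γ)) s :=
      ContinuousAt.rpow_const (by fun_prop) (Or.inl (by
        have : 0 < 1 - s := by linarith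
        exact this.ne'))
    exact (c1.mul c2).mul c3
  · subst hs1
    have h0 : hh γ F 1 = 1 := by unfold hh; rw [if_neg]; rintro ⟨_, h1⟩; exact lt_irrefl _ h1
    rw [continuousAt_iff_continuous_left'_right']
    refine ⟨?_, ?_⟩
    · change Tendsto _ _ _
      rw [h0]
      refine lim1.congr' ?_
      filter_upwards [Ioo_mem_nhdsLT one_pos] with t ht
      unfold hh; rw [if_pos ⟨ht.1, ht.2⟩]
    · change Tendsto _ _ _
      rw [h0]
      refine tendsto_const_nhds.congr' ?_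
      filter_upwards [self_mem_nhdsWithin] with t ht
      unfold hh; rw [if_neg]; rintro ⟨_, h1⟩; exact absurd h1 (not_lt.mpr (le_of_lt ht))
  · have : hh γ F =ᶠ[𝓝 s] fun _ => 1 := by
      filter_upwards [Ioi_mem_nhds hs1] with t ht
      unfold hh; rw [if_neg]; rintro ⟨_, h1⟩; exact absurd h1 (not_lt.mpr (le_of_lt ht))
    exact (continuousAt_const (y := (1:ℝ))).congr this.symm

lemma hh_nonneg {γ : ℝ} {F : ℝ → ℝ} (hF : IsProfile γ F) (s : ℝ) : 0 ≤ hh γ F s := by
  unfold hh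
  split_ifs with h
  · exact mul_nonneg (mul_nonneg (hF.nonneg s h) (Real.rpow_nonneg h.1.le _))
      (Real.rpow_nonneg (by linarith [h.2]) _)
  · exact zero_le_one

lemma hh_symm {γ : ℝ} {F : ℝ → ℝ} (hF : IsProfile γ F) (s : ℝ) : hh γ F (1 - s) = hh γ F s := by
  unfold hh
  by_cases h : 0 < s ∧ s < 1
  · rw [if_pos h, if_pos ⟨by linarith [h.2], by linarith [h.1]⟩, hF.symm s h]
    have : 1 - (1 - s) = s := by ring
    rw [this]; ring
  · rw [if_neg h, if_neg]
    rintro ⟨h1, h2⟩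
    exact h ⟨by linarith, by linarith⟩

lemma hh_zero (γ : ℝ) (F : ℝ → ℝ) : hh γ F 0 = 1 := by
  unfold hh; rw [if_neg]; rintro ⟨h1, _⟩; exact lt_irrefl _ h1

lemma hh_bdd {γ : ℝ} {F : ℝ → ℝ} (hF : IsProfile γ F) : ∃ H : ℝ, 1 ≤ H ∧ ∀ s, hh γ F s ≤ H := by
  obtain ⟨B, hB⟩ := (isCompact_Icc (a := (0:ℝ)) (b := 1)).bddAbove_image (hh_cont hF).continuousOn
  refine ⟨max 1 B, le_max_left _ _, fun s => ?_⟩
  by_cases h : s ∈ Icc (0:ℝ) 1
  · exact (hB (mem_image_of_mem _ h)).trans (le_max_right _ _)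
  · have : hh γ F s = 1 := by
      unfold hh; rw [if_neg]; rintro ⟨h1, h2⟩; exact h ⟨h1.le, h2.le⟩
    rw [this]; exact le_max_left _ _

/-- The kernel in terms of the reduced kernel. -/
lemma kern_eq {γ : ℝ} {F : ℝ → ℝ} {x y : ℝ} (hx : 0 < x) (hy : 0 < y) :
    kern γ F x y = kk (hh γ F) (x, y) * (x ^ (1 - lam γ) * y ^ (1 - lam γ)) := by
  have hxy : 0 < x + y := by linarith
  have hs : 0 < x / (x + y) ∧ x / (x + y) < 1 := ⟨by positivity, by rw [div_lt_one hxy]; linarith⟩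
  unfold kern kk hh
  simp only
  rw [if_pos hs]
  have e1 : 1 - x / (x + y) = y / (x + y) := by field_simp; ring
  rw [e1, Real.div_rpow hx.le hxy.le, Real.div_rpow hy.le hxy.le, Real.rpow_sub hx, Real.rpow_sub hy,
    Real.rpow_one, Real.rpow_one]
  have e2 : (x + y) ^ γ = (x + y) / ((x + y) ^ (lam γ) * (x + y) ^ (lam γ)) := by
    rw [← Real.rpow_add hxy, eq_div_iff (Real.rpow_pos_of_pos hxy _).ne', ← Real.rpow_add hxy]
    have : γ + (lam γ + lam γ) = 1 := by unfold lam; ring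
    rw [this, Real.rpow_one]
  rw [e2]
  have p1 : 0 < x ^ (lam γ) := Real.rpow_pos_of_pos hx _
  have p2 : 0 < y ^ (lam γ) := Real.rpow_pos_of_pos hy _
  have p3 : 0 < (x + y) ^ (lam γ) := Real.rpow_pos_of_pos hxy _
  field_simp
  ring

end Pool.Agent.Helper728.Coag
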