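import Mathlib
import Pool.Agent.Helper728.Coag.Profile

open MeasureTheory Filter Topology Set
open scoped ContDiff ENNReal

namespace Pool.Agent.Helper728.Coag

/-- Reduced notion of solution: the kernel is `(1/x + 1/y) h(x/(x+y))` and the removal rate is
`M / x`. -/
structure Sol (h : ℝ → ℝ) (η : Measure ℝ) (M : ℝ) (μ : Measure ℝ) : Prop where
  pos : μ (Iic 0) = 0
  radon : ∀ a b : ℝ, 0 < a → μ (Icc a b) < ⊤
  gain : ∀ a b : ℝ, 0 < a → ∫⁻ p in {p : ℝ × ℝ | a ≤ p.1 + p.2 ∧ p.1 + p.2 ≤ b},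
    ENNReal.ofReal (kk h p) ∂(μ.prod μ) < ⊤
  loss : ∀ a b : ℝ, 0 < a → ∫⁻ p in {p : ℝ × ℝ | a ≤ p.1 ∧ p.1 ≤ b},
    ENNReal.ofReal (kk h p) ∂(μ.prod μ) < ⊤
  eq : ∀ φ : ℝ → ℝ, ContDiff ℝ ∞ φ → HasCompactSupport φ → tsupport φ ⊆ Ioi 0 →
    (1/2) * ∫ p, kk h p * φ (p.1 + p.2) ∂(μ.prod μ)
      - ∫ p, kk h p * φ p.1 ∂(μ.prod μ)
      - ∫ x, (M * x⁻¹) * φ x ∂μ + ∫ x, φ x ∂η = 0

lemma sigmaFinite_of_radon {f : Measure ℝ} (h0 : f (Iic 0) = 0)
    (h1 : ∀ a b : ℝ, 0 < a → f (Icc a b) < ⊤) : SigmaFinite f := by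
  refine ⟨⟨⟨fun n : ℕ => Iic 0 ∪ Icc (1/((n:ℝ)+1)) ((n:ℝ)+1), fun _ => trivial, ?_, ?_⟩⟩⟩
  · intro n
    refine lt_of_le_of_lt (measure_union_le _ _) ?_
    rw [h0, zero_add]
    exact h1 _ _ (by positivity)
  · ext x
    simp only [mem_iUnion, mem_union, mem_Iic, mem_Icc, mem_univ, iff_true]
    rcases le_or_gt x 0 with hx | hx
    · exact ⟨0, Or.inl hx⟩
    · obtain ⟨n, hn⟩ := exists_nat_gt (max x (1/x))
      refine ⟨n, Or.inr ⟨?_, ?_⟩⟩
      · have h3 : 1/x < (n:ℝ) + 1 := by linarith [le_max_right x (1/x)]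
        rw [div_le_iff₀ (by positivity)]
        rw [div_lt_iff₀ hx] at h3
        linarith
      · linarith [le_max_left x (1/x)]

lemma ae_pos_of {f : Measure ℝ} (h0 : f (Iic 0) = 0) : ∀ᵐ x ∂f, 0 < x := by
  rw [ae_iff]; convert h0 using 2; ext x; simp

lemma ae_pos_prod {f : Measure ℝ} [SFinite f] (h0 : f (Iic 0) = 0) :
    ∀ᵐ p ∂(f.prod f), 0 < p.1 ∧ 0 < p.2 := by
  have posae := ae_pos_of h0
  have h1 : ∀ᵐ p ∂(f.prod f), 0 < p.1 := Measure.quasiMeasurePreserving_fst.ae posae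
  have h2 : ∀ᵐ p ∂(f.prod f), 0 < p.2 := Measure.quasiMeasurePreserving_snd.ae posae
  filter_upwards [h1, h2] with p hp1 hp2 using ⟨hp1, hp2⟩

/-- power weight -/
noncomputable def wt (r : ℝ) (x : ℝ) : ℝ≥0∞ := ENNReal.ofReal (x ^ r)

lemma wt_meas (r : ℝ) : Measurable (wt r) := (measurable_id.pow_const r).ennreal_ofReal

lemma radon_wt {f : Measure ℝ} (r : ℝ) {a b : ℝ} (ha : 0 < a) (h1 : f (Icc a b) < ⊤) :
    (f.withDensity (wt r)) (Icc a b) < ⊤ := by
  rw [withDensity_apply _ measurableSet_Icc]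
  obtain ⟨B, hB⟩ := (isCompact_Icc (a := a) (b := b)).bddAbove_image
    (f := fun x : ℝ => x ^ r) (fun x hx => (ContinuousAt.rpow_const continuousAt_id
      (Or.inl (lt_of_lt_of_le ha hx.1).ne')).continuousWithinAt)
  calc ∫⁻ x in Icc a b, wt r x ∂f ≤ ∫⁻ x in Icc a b, ENNReal.ofReal B ∂f := by
        refine setLIntegral_mono measurable_const fun x hx => ?_
        exact ENNReal.ofReal_le_ofReal (hB (mem_image_of_mem _ hx))
    _ = ENNReal.ofReal B * f (Icc a b) := by rw [setLIntegral_const]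
    _ < ⊤ := ENNReal.mul_lt_top ENNReal.ofReal_lt_top h1

section core

variable {γ : ℝ} {F : ℝ → ℝ} {f : Measure ℝ} [SFinite f]

lemma kk_meas {h : ℝ → ℝ} (hh : Continuous h) : Measurable (kk h) := by
  unfold kk
  exact (measurable_fst.inv.add measurable_snd.inv).mul
    (hh.measurable.comp (measurable_fst.div (measurable_fst.add measurable_snd)))

lemma core_lint (hF : IsProfile γ F) (h0 : f (Iic 0) = 0) (G : ℝ × ℝ → ℝ≥0∞) (hG : Measurable G) :
    ∫⁻ p, G p * ENNReal.ofReal (kk (hh γ F) p)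
        ∂((f.withDensity (wt (1 - lam γ))).prod (f.withDensity (wt (1 - lam γ))))
      = ∫⁻ p, G p * ENNReal.ofReal (kern γ F p.1 p.2) ∂(f.prod f) := by
  have hk := kk_meas (hh_cont hF)
  have hw : Measurable fun z : ℝ × ℝ => wt (1 - lam γ) z.1 * wt (1 - lam γ) z.2 :=
    ((wt_meas _).comp measurable_fst).mul ((wt_meas _).comp measurable_snd)
  have hGk : Measurable fun p : ℝ × ℝ => G p * ENNReal.ofReal (kk (hh γ F) p) :=
    hG.mul hk.ennreal_ofReal
  rw [prod_withDensity (wt_meas _) (wt_meas _), lintegral_withDensity_eq_lintegral_mul _ hw hGk]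
  refine lintegral_congr_ae ?_
  filter_upwards [ae_pos_prod h0] with p hp
  simp only [Pi.mul_apply, wt]
  rw [kern_eq hp.1 hp.2, ENNReal.ofReal_mul' (by
      exact mul_nonneg (Real.rpow_nonneg hp.1.le _) (Real.rpow_nonneg hp.2.le _)),
    ENNReal.ofReal_mul (Real.rpow_nonneg hp.1.le _)]
  ring

lemma core_int (h0 : f (Iic 0) = 0) (g : ℝ × ℝ → ℝ) :
    ∫ p, kk (hh γ F) p * g p
        ∂((f.withDensity (wt (1 - lam γ))).prod (f.withDensity (wt (1 - lam γ))))
      = ∫ p, kern γ F p.1 p.2 * g p ∂(f.prod f) := by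
  have hw : Measurable fun z : ℝ × ℝ => wt (1 - lam γ) z.1 * wt (1 - lam γ) z.2 :=
    ((wt_meas _).comp measurable_fst).mul ((wt_meas _).comp measurable_snd)
  rw [prod_withDensity (wt_meas _) (wt_meas _), integral_withDensity_eq_integral_toReal_smul hw
    (Eventually.of_forall fun p => ENNReal.mul_lt_top ENNReal.ofReal_lt_top
      ENNReal.ofReal_lt_top)]
  refine integral_congr_ae ?_
  filter_upwards [ae_pos_prod h0] with p hp
  simp only [wt]
  rw [kern_eq hp.1 hp.2, ENNReal.toReal_mul, ENNReal.toReal_ofReal (Real.rpow_nonneg hp.1.le _),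
    ENNReal.toReal_ofReal (Real.rpow_nonneg hp.2.le _), smul_eq_mul]
  ring

omit [SFinite f] in
lemma core_one (h0 : f (Iic 0) = 0) (M : ℝ) (g : ℝ → ℝ) :
    ∫ x, (M * x⁻¹) * g x ∂(f.withDensity (wt (1 - lam γ)))
      = M * ∫ x, x ^ (-lam γ) * g x ∂f := by
  rw [integral_withDensity_eq_integral_toReal_smul (wt_meas _)
    (Eventually.of_forall fun p => ENNReal.ofReal_lt_top), ← integral_const_mul]
  refine integral_congr_ae ?_
  filter_upwards [ae_pos_of h0] with x hx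
  simp only [wt]
  rw [ENNReal.toReal_ofReal (Real.rpow_nonneg hx.le _), smul_eq_mul, Real.rpow_sub hx,
    Real.rpow_one, Real.rpow_neg hx.le]
  field_simp

end core

lemma set_gain (a b : ℝ) : MeasurableSet {p : ℝ × ℝ | a ≤ p.1 + p.2 ∧ p.1 + p.2 ≤ b} :=
  (measurableSet_Icc (a := a) (b := b)).preimage (measurable_fst.add measurable_snd)

lemma set_loss (a b : ℝ) : MeasurableSet {p : ℝ × ℝ | a ≤ p.1 ∧ p.1 ≤ b} :=
  (measurableSet_Icc (a := a) (b := b)).preimage measurable_fst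

lemma core_set {γ : ℝ} {F : ℝ → ℝ} {f : Measure ℝ} [SFinite f] (hF : IsProfile γ F)
    (h0 : f (Iic 0) = 0) {s : Set (ℝ × ℝ)} (hs : MeasurableSet s) :
    ∫⁻ p in s, ENNReal.ofReal (kk (hh γ F) p)
        ∂((f.withDensity (wt (1 - lam γ))).prod (f.withDensity (wt (1 - lam γ))))
      = ∫⁻ p in s, ENNReal.ofReal (kern γ F p.1 p.2) ∂(f.prod f) := by
  rw [← lintegral_indicator hs, ← lintegral_indicator hs]
  have := core_lint (f := f) hF h0 (s.indicator 1) (measurable_one.indicator hs)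
  convert this using 1
  · refine lintegral_congr fun p => ?_
    by_cases hp : p ∈ s
    · simp [hp]
    · simp [hp]
  · refine lintegral_congr fun p => ?_
    by_cases hp : p ∈ s
    · simp [hp]
    · simp [hp]

/-- From solutions to reduced solutions. -/
lemma sol_of_isSolution {γ : ℝ} {F : ℝ → ℝ} {η f : Measure ℝ} {M : ℝ} (hF : IsProfile γ F)
    (hf : IsSolution γ F η M f) : Sol (hh γ F) η M (f.withDensity (wt (1 - lam γ))) := by
  have := sigmaFinite_of_radon hf.pos hf.radon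
  refine ⟨?_, fun a b ha => radon_wt _ ha (hf.radon a b ha), ?_, ?_, ?_⟩
  · exact withDensity_absolutelyContinuous _ _ hf.pos
  · intro a b ha
    rw [core_set hF hf.pos (set_gain a b)]
    exact hf.gain a b ha
  · intro a b ha
    rw [core_set hF hf.pos (set_loss a b)]
    exact hf.loss a b ha
  · intro φ h1 h2 h3
    rw [core_int hf.pos (fun p => φ (p.1 + p.2)), core_int hf.pos (fun p => φ p.1),
      core_one hf.pos M φ]
    exact hf.eq φ h1 h2 h3

/-- From reduced solutions to solutions. -/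
lemma isSolution_of_sol {γ : ℝ} {F : ℝ → ℝ} {η μ : Measure ℝ} {M : ℝ} (hF : IsProfile γ F)
    (hμ : Sol (hh γ F) η M μ) : IsSolution γ F η M (μ.withDensity (wt (lam γ - 1))) := by
  set f := μ.withDensity (wt (lam γ - 1)) with hfdef
  have hf0 : f (Iic 0) = 0 := withDensity_absolutelyContinuous _ _ hμ.pos
  have hfr : ∀ a b : ℝ, 0 < a → f (Icc a b) < ⊤ := fun a b ha => radon_wt _ ha (hμ.radon a b ha)
  have := sigmaFinite_of_radon hf0 hfr
  have hback : f.withDensity (wt (1 - lam γ)) = μ := by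
    rw [hfdef, ← withDensity_mul _ (wt_meas _) (wt_meas _)]
    have : (wt (lam γ - 1) * wt (1 - lam γ)) =ᵐ[μ] 1 := by
      filter_upwards [ae_pos_of hμ.pos] with x hx
      simp only [Pi.mul_apply, wt, Pi.one_apply]
      rw [← ENNReal.ofReal_mul (Real.rpow_nonneg hx.le _), ← Real.rpow_add hx]
      have : lam γ - 1 + (1 - lam γ) = 0 := by ring
      rw [this, Real.rpow_zero, ENNReal.ofReal_one]
    rw [withDensity_congr_ae this, withDensity_one]
  refine ⟨hf0, hfr, ?_, ?_, ?_⟩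
  · intro a b ha
    rw [← core_set hF hf0 (set_gain a b), hback]
    exact hμ.gain a b ha
  · intro a b ha
    rw [← core_set hF hf0 (set_loss a b), hback]
    exact hμ.loss a b ha
  · intro φ h1 h2 h3
    rw [← core_int hf0 (fun p => φ (p.1 + p.2)), ← core_int hf0 (fun p => φ p.1),
      ← core_one hf0 M φ, hback]
    exact hμ.eq φ h1 h2 h3

end Pool.Agent.Helper728.Coag
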