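import Mathlib
import Pool.Agent.Helper728.Coag.Trans
import Pool.Agent.Helper728.Coag.MI

open MeasureTheory Filter Topology Set
open scoped ContDiff ENNReal

namespace Pool.Agent.Helper728.Coag

structure Nice (h : ℝ → ℝ) (H : ℝ) : Prop where
  cont : Continuous h
  nonneg : ∀ s, 0 ≤ h s
  symm : ∀ s, h (1 - s) = h s
  zero : h 0 = 1
  le : ∀ s, h s ≤ H
  one_le : 1 ≤ H

lemma nice_hh {γ : ℝ} {F : ℝ → ℝ} (hF : IsProfile γ F) : ∃ H, Nice (hh γ F) H := by
  obtain ⟨H, h1, h2⟩ := hh_bdd hF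
  exact ⟨H, hh_cont hF, hh_nonneg hF, hh_symm hF, hh_zero γ F, h2, h1⟩

lemma IsSource.ae_mem {η : Measure ℝ} {L : ℝ} (hη : IsSource η L) : ∀ᵐ x ∂η, x ∈ Icc 1 L := by
  rw [ae_iff]; exact hη.supp

lemma IsSource.univ_le {η : Measure ℝ} {L : ℝ} (hη : IsSource η L) : η univ ≤ 1 := by
  rw [← hη.mass, ← lintegral_one]
  refine lintegral_mono_ae ?_
  filter_upwards [hη.ae_mem] with x hx
  exact ENNReal.one_le_ofReal.mpr hx.1

lemma IsSource.Iic_zero {η : Measure ℝ} {L : ℝ} (hη : IsSource η L) : η (Iic 0) = 0 := by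
  refine measure_mono_null ?_ hη.supp
  intro x hx hx'
  exact absurd (le_trans hx'.1 hx) (by norm_num)

lemma Nice.kk_nonneg {h : ℝ → ℝ} {H : ℝ} (hh : Nice h H) {p : ℝ × ℝ} (hp : 0 < p.1 ∧ 0 < p.2) :
    0 ≤ kk h p := by
  unfold kk
  exact mul_nonneg (add_nonneg (inv_nonneg.mpr hp.1.le) (inv_nonneg.mpr hp.2.le)) (hh.nonneg _)

lemma Nice.near {h : ℝ → ℝ} {H : ℝ} (hh : Nice h H) {ε : ℝ} (hε : 0 < ε) :
    ∃ δ : ℝ, 0 < δ ∧ ∀ s, 0 ≤ s → s ≤ δ → |h s - 1| ≤ ε := by
  have := hh.cont.tendsto 0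
  rw [hh.zero, Metric.tendsto_nhds_nhds] at this
  obtain ⟨δ, hδ, hd⟩ := this ε hε
  refine ⟨δ/2, by linarith, fun s hs hs' => ?_⟩
  have h1 : dist s 0 < δ := by
    rw [Real.dist_eq, sub_zero, abs_of_nonneg hs]; linarith
  have := hd h1
  rw [Real.dist_eq] at this
  exact this.le

section sol

variable {h : ℝ → ℝ} {H : ℝ} {η μ : Measure ℝ} {M L : ℝ}

lemma Sol.meas_id (hs : Sol h η M μ) (hh : Nice h H) (hη : IsSource η L) (hM : 0 ≤ M)
    (ψ : ℝ → ℝ≥0∞) (hψ : Measurable ψ) :
    ∫⁻ p, ψ (p.1 + p.2) * ENNReal.ofReal (kk h p) ∂(μ.prod μ) + 2 * ∫⁻ x, ψ x ∂η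
      = 2 * ∫⁻ p, ψ p.1 * ENNReal.ofReal (kk h p) ∂(μ.prod μ)
        + 2 * ∫⁻ x, ψ x * ENNReal.ofReal (M * x⁻¹) ∂μ := by
  have := sigmaFinite_of_radon hs.pos hs.radon
  refine measure_identity μ η (kk h) (kk_meas hh.cont) ?_ (fun x => M * x⁻¹)
    (measurable_const.mul measurable_inv) ?_ hs.pos hη.Iic_zero hs.gain hs.loss ?_ ?_ hs.eq ψ hψ
  · filter_upwards [ae_pos_prod hs.pos] with p hp using hh.kk_nonneg hp
  · filter_upwards [ae_pos_of hs.pos] with x hx using mul_nonneg hM (inv_nonneg.mpr hx.le)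
  · intro a b ha
    calc ∫⁻ x in Icc a b, ENNReal.ofReal (M * x⁻¹) ∂μ
        ≤ ∫⁻ x in Icc a b, ENNReal.ofReal (M * a⁻¹) ∂μ := by
          refine setLIntegral_mono measurable_const fun x hx => ?_
          refine ENNReal.ofReal_le_ofReal (mul_le_mul_of_nonneg_left ?_ hM)
          exact inv_anti₀ ha hx.1
      _ = ENNReal.ofReal (M * a⁻¹) * μ (Icc a b) := by rw [setLIntegral_const]
      _ < ⊤ := ENNReal.mul_lt_top ENNReal.ofReal_lt_top (hs.radon a b ha)
  · intro a b _
    exact lt_of_le_of_lt ((measure_mono (subset_univ _)).trans hη.univ_le) ENNReal.one_lt_top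

lemma Sol.ne_zero (hs : Sol h η M μ) (hh : Nice h H) (hη : IsSource η L) (hM : 0 ≤ M) :
    μ ≠ 0 := by
  intro h0
  have h1 := hs.meas_id hh hη hM 1 measurable_one
  rw [h0] at h1
  simp at h1
  have h2 := hη.mass
  rw [h1] at h2
  simp at h2

/-- total mass and first inverse moment are finite -/
lemma Sol.finite (hs : Sol h η M μ) (hh : Nice h H) (hη : IsSource η L) (hM : 0 ≤ M) :
    μ univ < ⊤ ∧ ∫⁻ y, ENNReal.ofReal y⁻¹ ∂μ < ⊤ := by
  have hσ := sigmaFinite_of_radon hs.pos hs.radon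
  -- an interval of positive mass
  obtain ⟨a, b, ha, hab, hpos⟩ : ∃ a b : ℝ, 0 < a ∧ a ≤ b ∧ μ (Icc a b) ≠ 0 := by
    by_contra hcon
    push Not at hcon
    apply hs.ne_zero hh hη hM
    rw [← Measure.measure_univ_eq_zero]
    have hU : (univ : Set ℝ) = Iic 0 ∪ ⋃ n : ℕ, Icc (1/((n:ℝ)+1)) ((n:ℝ)+1) := by
      ext x
      simp only [mem_iUnion, mem_union, mem_Iic, mem_Icc, mem_univ, true_iff]
      rcases le_or_gt x 0 with hx | hx
      · exact Or.inl hx
      · obtain ⟨n, hn⟩ := exists_nat_gt (max x (1/x))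
        refine Or.inr ⟨n, ?_, ?_⟩
        · have h3 : 1/x < (n:ℝ) + 1 := by linarith [le_max_right x (1/x)]
          rw [div_le_iff₀ (by positivity)]
          rw [div_lt_iff₀ hx] at h3
          linarith
        · linarith [le_max_left x (1/x)]
    rw [hU]
    refine measure_union_null hs.pos (measure_iUnion_null fun n => ?_)
    have hn : (0:ℝ) ≤ n := Nat.cast_nonneg n
    refine hcon _ _ (by positivity) ?_
    rw [div_le_iff₀ (by positivity)]
    nlinarith
  have hb : 0 < b := lt_of_lt_of_le ha hab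
  obtain ⟨δ, hδ, hnear⟩ := hh.near (ε := 1/2) (by norm_num)
  have hloss := hs.loss a b ha
  have hlow : ∀ s, 0 ≤ s → s ≤ δ → 1/2 ≤ h s := by
    intro s h1 h2
    have := abs_le.mp (hnear s h1 h2)
    linarith [this.1]
  -- large sizes
  have big : μ (Ici (b/δ)) < ⊤ := by
    have h1 : ENNReal.ofReal (1/(2*b)) * (μ (Icc a b) * μ (Ici (b/δ))) ≤
        ∫⁻ p in {p : ℝ × ℝ | a ≤ p.1 ∧ p.1 ≤ b}, ENNReal.ofReal (kk h p) ∂(μ.prod μ) := by
      rw [← Measure.prod_prod, ← setLIntegral_const]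
      calc ∫⁻ _ in Icc a b ×ˢ Ici (b/δ), ENNReal.ofReal (1/(2*b)) ∂(μ.prod μ)
          ≤ ∫⁻ p in Icc a b ×ˢ Ici (b/δ), ENNReal.ofReal (kk h p) ∂(μ.prod μ) := by
            refine setLIntegral_mono ((kk_meas hh.cont).ennreal_ofReal) fun p hp => ?_
            refine ENNReal.ofReal_le_ofReal ?_
            have hx : 0 < p.1 := lt_of_lt_of_le ha hp.1.1
            have hbd : 0 < b/δ := by positivity
            have hy : 0 < p.2 := lt_of_lt_of_le hbd hp.2
            have hsy : p.1 / (p.1 + p.2) ≤ δ := by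
              rw [div_le_iff₀ (by linarith)]
              have h2 : b ≤ δ * p.2 := by
                have : b/δ ≤ p.2 := hp.2
                rw [div_le_iff₀ hδ] at this
                linarith
              nlinarith [hp.1.2]
            have hh2 := hlow _ (by positivity) hsy
            unfold kk
            have h3 : 1/b ≤ p.1⁻¹ + p.2⁻¹ := by
              have : 1/b ≤ p.1⁻¹ := by rw [one_div]; exact inv_anti₀ hx hp.1.2
              have : 0 ≤ p.2⁻¹ := inv_nonneg.mpr hy.le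
              linarith
            calc 1/(2*b) = (1/b) * (1/2) := by field_simp
              _ ≤ _ := mul_le_mul h3 hh2 (by norm_num) (by positivity)
        _ ≤ _ := by
            refine lintegral_mono_set ?_
            intro p hp
            exact hp.1
    by_contra htop
    rw [not_lt_top_iff] at htop
    rw [htop, ENNReal.mul_top hpos, ENNReal.mul_top (by
      rw [Ne, ENNReal.ofReal_eq_zero, not_le]; positivity)] at h1
    exact absurd hloss (not_lt.mpr h1)
  -- small sizes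
  set y0 := a * δ with hy0
  have hy0pos : 0 < y0 := by positivity
  have small : ∫⁻ y in Ioc 0 y0, ENNReal.ofReal y⁻¹ ∂μ < ⊤ := by
    have h1 : ENNReal.ofReal (1/2) * (μ (Icc a b) * ∫⁻ y in Ioc 0 y0, ENNReal.ofReal y⁻¹ ∂μ) ≤
        ∫⁻ p in {p : ℝ × ℝ | a ≤ p.1 ∧ p.1 ≤ b}, ENNReal.ofReal (kk h p) ∂(μ.prod μ) := by
      calc ENNReal.ofReal (1/2) * (μ (Icc a b) * ∫⁻ y in Ioc 0 y0, ENNReal.ofReal y⁻¹ ∂μ)
          = ∫⁻ x in Icc a b, ∫⁻ y in Ioc 0 y0, ENNReal.ofReal (1/2) * ENNReal.ofReal y⁻¹ ∂μ ∂μ := by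
            rw [setLIntegral_const, lintegral_const_mul _ measurable_inv.ennreal_ofReal]
            ring
        _ = ∫⁻ p in Icc a b ×ˢ Ioc 0 y0, ENNReal.ofReal (1/2) * ENNReal.ofReal p.2⁻¹ ∂(μ.prod μ) := by
            rw [← Measure.prod_restrict, lintegral_prod]
            exact (measurable_const.mul (measurable_snd.inv.ennreal_ofReal)).aemeasurable
        _ ≤ ∫⁻ p in Icc a b ×ˢ Ioc 0 y0, ENNReal.ofReal (kk h p) ∂(μ.prod μ) := by
            refine setLIntegral_mono ((kk_meas hh.cont).ennreal_ofReal) fun p hp => ?_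
            have hx : 0 < p.1 := lt_of_lt_of_le ha hp.1.1
            have hy : 0 < p.2 := hp.2.1
            rw [← ENNReal.ofReal_mul (by norm_num)]
            refine ENNReal.ofReal_le_ofReal ?_
            have hsy : p.2 / (p.1 + p.2) ≤ δ := by
              rw [div_le_iff₀ (by linarith)]
              have : p.2 ≤ a * δ := hp.2.2
              nlinarith [hp.1.1]
            have hh2 := hlow _ (by positivity) hsy
            have e : 1 - p.2/(p.1+p.2) = p.1/(p.1+p.2) := by field_simp; ring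
            rw [← hh.symm, e] at hh2
            unfold kk
            have h3 : p.2⁻¹ ≤ p.1⁻¹ + p.2⁻¹ := by
              have : 0 ≤ p.1⁻¹ := inv_nonneg.mpr hx.le
              linarith
            calc 1/2 * p.2⁻¹ = p.2⁻¹ * (1/2) := by ring
              _ ≤ _ := mul_le_mul h3 hh2 (by norm_num) (by positivity)
        _ ≤ _ := by
            refine lintegral_mono_set ?_
            intro p hp
            exact hp.1
    by_contra htop
    rw [not_lt_top_iff] at htop
    rw [htop, ENNReal.mul_top hpos, ENNReal.mul_top (by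
      rw [Ne, ENNReal.ofReal_eq_zero, not_le]; norm_num)] at h1
    exact absurd hloss (not_lt.mpr h1)
  -- the mass away from zero
  have away : ∀ c : ℝ, 0 < c → μ (Ioi c) < ⊤ := by
    intro c hc
    refine lt_of_le_of_lt (measure_mono (show Ioi c ⊆ Icc c (b/δ) ∪ Ici (b/δ) from ?_)) ?_
    · intro x hx
      rcases le_total x (b/δ) with h1 | h1
      · exact Or.inl ⟨(mem_Ioi.mp hx).le, h1⟩
      · exact Or.inr h1
    · exact lt_of_le_of_lt (measure_union_le _ _) (ENNReal.add_lt_top.mpr ⟨hs.radon _ _ hc, big⟩)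
  have near0 : μ (Ioc 0 y0) < ⊤ := by
    have h1 : ENNReal.ofReal y0⁻¹ * μ (Ioc 0 y0) ≤ ∫⁻ y in Ioc 0 y0, ENNReal.ofReal y⁻¹ ∂μ := by
      rw [← setLIntegral_const]
      refine setLIntegral_mono measurable_inv.ennreal_ofReal fun y hy => ?_
      exact ENNReal.ofReal_le_ofReal (inv_anti₀ hy.1 hy.2)
    by_contra htop
    rw [not_lt_top_iff] at htop
    rw [htop, ENNReal.mul_top (by
      rw [Ne, ENNReal.ofReal_eq_zero, not_le]; positivity)] at h1
    exact absurd small (not_lt.mpr h1)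
  have hU : (univ : Set ℝ) = (Iic 0 ∪ Ioc 0 y0) ∪ Ioi y0 := by
    rw [Iic_union_Ioc_eq_Iic hy0pos.le, Iic_union_Ioi]
  refine ⟨?_, ?_⟩
  · rw [hU]
    refine lt_of_le_of_lt (measure_union_le _ _) (ENNReal.add_lt_top.mpr ⟨?_, away y0 hy0pos⟩)
    refine lt_of_le_of_lt (measure_union_le _ _) ?_
    rw [hs.pos, zero_add]
    exact near0
  · rw [← setLIntegral_univ, hU]
    refine lt_of_le_of_lt (lintegral_union_le _ _ _) (ENNReal.add_lt_top.mpr ⟨?_, ?_⟩)
    · refine lt_of_le_of_lt (lintegral_union_le _ _ _) (ENNReal.add_lt_top.mpr ⟨?_, small⟩)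
      rw [setLIntegral_measure_zero _ _ hs.pos]
      exact ENNReal.zero_lt_top
    · calc ∫⁻ y in Ioi y0, ENNReal.ofReal y⁻¹ ∂μ ≤ ∫⁻ y in Ioi y0, ENNReal.ofReal y0⁻¹ ∂μ := by
            refine setLIntegral_mono measurable_const fun y hy => ?_
            exact ENNReal.ofReal_le_ofReal (inv_anti₀ hy0pos (mem_Ioi.mp hy).le)
        _ = ENNReal.ofReal y0⁻¹ * μ (Ioi y0) := by rw [setLIntegral_const]
        _ < ⊤ := ENNReal.mul_lt_top ENNReal.ofReal_lt_top (away y0 hy0pos)

/-- The flux identity tested with a decreasing function. -/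
lemma Sol.flux (hs : Sol h η M μ) (hh : Nice h H) (hη : IsSource η L) (hM : 0 ≤ M)
    (g : ℝ → ℝ) (hg : Measurable g) (hg0 : ∀ x, 0 ≤ g x)
    (hanti : ∀ x y, 0 < x → 0 < y → g (x + y) ≤ g x) (G B : ℝ) (hG : ∀ x, g x ≤ G)
    (hB : ∀ x, 0 < x → x * g x ≤ B) :
    ∫⁻ x, ENNReal.ofReal (x * g x) ∂η
      = ∫⁻ p, ENNReal.ofReal (p.1 * (g p.1 - g (p.1 + p.2))) * ENNReal.ofReal (kk h p) ∂(μ.prod μ)
        + ENNReal.ofReal M * ∫⁻ x, ENNReal.ofReal (g x) ∂μ := by
  have hσ := sigmaFinite_of_radon hs.pos hs.radon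
  obtain ⟨hfin, hinv⟩ := hs.finite hh hη hM
  have hkm : Measurable fun p => ENNReal.ofReal (kk h p) := (kk_meas hh.cont).ennreal_ofReal
  have hadd : Measurable fun p : ℝ × ℝ => p.1 + p.2 := measurable_fst.add measurable_snd
  have hpp := ae_pos_prod hs.pos
  have hXm : Measurable fun p : ℝ × ℝ =>
      ENNReal.ofReal (p.1 * g (p.1 + p.2)) * ENNReal.ofReal (kk h p) :=
    (measurable_fst.mul (hg.comp hadd)).ennreal_ofReal.mul hkm
  have hsi : Measurable fun p : ℝ × ℝ => ENNReal.ofReal p.2⁻¹ :=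
    measurable_snd.inv.ennreal_ofReal
  have hid := hs.meas_id hh hη hM (fun x => ENNReal.ofReal (x * g x))
    (measurable_id.mul hg).ennreal_ofReal
  set X := ∫⁻ p, ENNReal.ofReal (p.1 * g (p.1 + p.2)) * ENNReal.ofReal (kk h p) ∂(μ.prod μ) with hX
  set D := ∫⁻ p, ENNReal.ofReal (p.1 * (g p.1 - g (p.1 + p.2))) * ENNReal.ofReal (kk h p)
    ∂(μ.prod μ) with hD
  -- gain term
  have t1 : ∫⁻ p, ENNReal.ofReal ((p.1 + p.2) * g (p.1 + p.2)) * ENNReal.ofReal (kk h p) ∂(μ.prod μ)
      = 2 * X := by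
    have a1 : ∫⁻ p, ENNReal.ofReal ((p.1 + p.2) * g (p.1 + p.2)) * ENNReal.ofReal (kk h p) ∂(μ.prod μ)
        = X + ∫⁻ p, ENNReal.ofReal (p.2 * g (p.1 + p.2)) * ENNReal.ofReal (kk h p) ∂(μ.prod μ) := by
      rw [hX, ← lintegral_add_left hXm]
      refine lintegral_congr_ae ?_
      filter_upwards [hpp] with p hp
      rw [← add_mul, ← ENNReal.ofReal_add (mul_nonneg hp.1.le (hg0 _)) (mul_nonneg hp.2.le (hg0 _)),
        add_mul]
    have a2 : ∫⁻ p, ENNReal.ofReal (p.2 * g (p.1 + p.2)) * ENNReal.ofReal (kk h p) ∂(μ.prod μ) = X := by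
      rw [hX, ← lintegral_prod_swap]
      refine lintegral_congr_ae ?_
      filter_upwards [hpp] with p hp
      have e1 : kk h p.swap = kk h p := by
        unfold kk
        simp only [Prod.fst_swap, Prod.snd_swap]
        have e2 : p.1 / (p.1 + p.2) = 1 - p.2 / (p.2 + p.1) := by
          have := hp.1; have := hp.2
          field_simp
          ring
        rw [e2, hh.symm]
        ring
      rw [e1]
      simp only [Prod.fst_swap, Prod.snd_swap]
      rw [add_comm p.2 p.1]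
    rw [a1, a2, two_mul]
  have t2 : ∫⁻ p, ENNReal.ofReal (p.1 * g p.1) * ENNReal.ofReal (kk h p) ∂(μ.prod μ) = X + D := by
    rw [hX, hD, ← lintegral_add_left hXm]
    refine lintegral_congr_ae ?_
    filter_upwards [hpp] with p hp
    rw [← add_mul, ← ENNReal.ofReal_add (mul_nonneg hp.1.le (hg0 _))
      (mul_nonneg hp.1.le (sub_nonneg.mpr (hanti _ _ hp.1 hp.2)))]
    congr 2
    ring
  have t3 : ∫⁻ x, ENNReal.ofReal (x * g x) * ENNReal.ofReal (M * x⁻¹) ∂μ
      = ENNReal.ofReal M * ∫⁻ x, ENNReal.ofReal (g x) ∂μ := by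
    rw [← lintegral_const_mul _ hg.ennreal_ofReal]
    refine lintegral_congr_ae ?_
    filter_upwards [ae_pos_of hs.pos] with x hx
    rw [← ENNReal.ofReal_mul (mul_nonneg hx.le (hg0 _)), ← ENNReal.ofReal_mul hM]
    congr 1
    field_simp
  have hH0 : 0 ≤ H := le_trans zero_le_one hh.one_le
  have hXfin : X ≠ ⊤ := by
    have hle : X ≤ ∫⁻ p, (ENNReal.ofReal (H * G) + ENNReal.ofReal (H * B) * ENNReal.ofReal p.2⁻¹)
        ∂(μ.prod μ) := by
      rw [hX]
      refine lintegral_mono_ae ?_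
      filter_upwards [hpp] with p hp
      have hB0 : 0 ≤ B := le_trans (mul_nonneg hp.1.le (hg0 _)) (hB p.1 hp.1)
      have hG0 : 0 ≤ G := (hg0 p.1).trans (hG p.1)
      rw [← ENNReal.ofReal_mul (mul_nonneg hp.1.le (hg0 _)),
        ← ENNReal.ofReal_mul (mul_nonneg hH0 hB0),
        ← ENNReal.ofReal_add (mul_nonneg hH0 hG0)
          (mul_nonneg (mul_nonneg hH0 hB0) (inv_nonneg.mpr hp.2.le))]
      refine ENNReal.ofReal_le_ofReal ?_
      have i1 : p.1 * g (p.1 + p.2) * kk h p ≤ p.1 * g p.1 * ((p.1⁻¹ + p.2⁻¹) * H) := by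
        refine mul_le_mul ?_ ?_ (hh.kk_nonneg hp) (mul_nonneg hp.1.le (hg0 _))
        · exact mul_le_mul_of_nonneg_left (hanti _ _ hp.1 hp.2) hp.1.le
        · unfold kk
          exact mul_le_mul_of_nonneg_left (hh.le _)
            (add_nonneg (inv_nonneg.mpr hp.1.le) (inv_nonneg.mpr hp.2.le))
      refine i1.trans ?_
      have e1 : p.1 * g p.1 * ((p.1⁻¹ + p.2⁻¹) * H) = H * g p.1 + H * (p.1 * g p.1) * p.2⁻¹ := by
        have := hp.1
        field_simp
        try ring
      rw [e1]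
      refine add_le_add (mul_le_mul_of_nonneg_left (hG _) hH0) ?_
      exact mul_le_mul_of_nonneg_right (mul_le_mul_of_nonneg_left (hB _ hp.1) hH0)
        (inv_nonneg.mpr hp.2.le)
    refine ne_top_of_le_ne_top ?_ hle
    rw [lintegral_add_left measurable_const, lintegral_const,
      lintegral_const_mul _ hsi]
    refine ENNReal.add_ne_top.mpr ⟨ENNReal.mul_ne_top ENNReal.ofReal_ne_top ?_,
      ENNReal.mul_ne_top ENNReal.ofReal_ne_top ?_⟩
    · rw [← univ_prod_univ, Measure.prod_prod]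
      exact ENNReal.mul_ne_top hfin.ne hfin.ne
    · have : ∫⁻ p : ℝ × ℝ, ENNReal.ofReal p.2⁻¹ ∂(μ.prod μ)
          = ∫⁻ _, ∫⁻ y, ENNReal.ofReal y⁻¹ ∂μ ∂μ := by
        rw [lintegral_prod _ hsi.aemeasurable]
      rw [this, lintegral_const]
      exact ENNReal.mul_ne_top hinv.ne hfin.ne
  rw [t1, t2, t3, ← mul_add, ← mul_add] at hid
  have h2 : X + ∫⁻ x, ENNReal.ofReal (x * g x) ∂η
      = (X + D) + ENNReal.ofReal M * ∫⁻ x, ENNReal.ofReal (g x) ∂μ := by
    exact (ENNReal.mul_right_inj (by simp) (by simp)).mp hid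
  rw [add_assoc] at h2
  exact (ENNReal.add_right_inj hXfin).mp h2

/-- The total mass is `1/M`. -/
lemma Sol.mass (hs : Sol h η M μ) (hh : Nice h H) (hη : IsSource η L) (hM : 0 ≤ M) :
    ENNReal.ofReal M * μ univ = 1 := by
  have hσ := sigmaFinite_of_radon hs.pos hs.radon
  obtain ⟨hfin, hinv⟩ := hs.finite hh hη hM
  have hkm : Measurable fun p => ENNReal.ofReal (kk h p) := (kk_meas hh.cont).ennreal_ofReal
  have hadd : Measurable fun p : ℝ × ℝ => p.1 + p.2 := measurable_fst.add measurable_snd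
  have hH0 : 0 ≤ H := le_trans zero_le_one hh.one_le
  -- the test functions
  let e : ℕ → ℝ := fun n => 1/((n:ℝ)+1)
  have he : ∀ n, 0 < e n := fun n => by positivity
  have helim : Tendsto e atTop (𝓝 0) := tendsto_one_div_add_atTop_nhds_zero_nat
  let g : ℕ → ℝ → ℝ := fun n x => 1/(1 + e n * |x|)
  have hden : ∀ n x, 1 ≤ 1 + e n * |x| := fun n x => by
    have := mul_nonneg (he n).le (abs_nonneg x); linarith
  have hdpos : ∀ n x, 0 < 1 + e n * |x| := fun n x => lt_of_lt_of_le one_pos (hden n x)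
  have hgm : ∀ n, Measurable (g n) := fun n =>
    measurable_const.div (measurable_const.add (measurable_const.mul
      (continuous_abs.measurable)))
  have hg0 : ∀ n x, 0 ≤ g n x := fun n x => by
    have := hdpos n x
    simp only [g]; positivity
  have hg1 : ∀ n x, g n x ≤ 1 := fun n x => by
    simp only [g]
    rw [div_le_one (hdpos n x)]
    exact hden n x
  have hganti : ∀ n x y, 0 < x → 0 < y → g n (x + y) ≤ g n x := by
    intro n x y hx hy
    simp only [g]
    refine one_div_le_one_div_of_le (hdpos n x) ?_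
    rw [abs_of_pos hx, abs_of_pos (add_pos hx hy)]
    nlinarith [he n]
  have hglim : ∀ x, Tendsto (fun n => g n x) atTop (𝓝 1) := by
    intro x
    have h1 : Tendsto (fun n => 1 + e n * |x|) atTop (𝓝 (1 + 0 * |x|)) :=
      tendsto_const_nhds.add (helim.mul_const _)
    rw [zero_mul, add_zero] at h1
    simpa [g] using h1.inv₀ (one_ne_zero)
  have hfl := fun n => hs.flux hh hη hM (g n) (hgm n) (hg0 n) (hganti n) 1 (1 / e n) (hg1 n) (by
    intro x hx
    simp only [g]
    rw [abs_of_pos hx, mul_one_div, div_le_div_iff₀ (by nlinarith [he n]) (he n)]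
    nlinarith [he n])
  -- limits
  have l1 : Tendsto (fun n => ∫⁻ x, ENNReal.ofReal (x * g n x) ∂η) atTop
      (𝓝 (∫⁻ x, ENNReal.ofReal x ∂η)) := by
    refine tendsto_lintegral_of_dominated_convergence (fun x => ENNReal.ofReal x)
      (fun n => (measurable_id.mul (hgm n)).ennreal_ofReal) ?_ ?_ ?_
    · intro n
      filter_upwards [hη.ae_mem] with x hx
      refine ENNReal.ofReal_le_ofReal ?_
      have hx0 : 0 ≤ x := le_trans zero_le_one hx.1
      calc x * g n x ≤ x * 1 := mul_le_mul_of_nonneg_left (hg1 n x) hx0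
        _ = x := mul_one x
    · rw [hη.mass]; exact ENNReal.one_ne_top
    · refine Eventually.of_forall fun x => ?_
      refine (ENNReal.continuous_ofReal.tendsto _).comp ?_
      simpa using (hglim x).const_mul x
  have l2 : Tendsto (fun n => ∫⁻ x, ENNReal.ofReal (g n x) ∂μ) atTop (𝓝 (μ univ)) := by
    have : μ univ = ∫⁻ x, ENNReal.ofReal 1 ∂μ := by simp
    rw [this]
    refine tendsto_lintegral_of_dominated_convergence (fun x => ENNReal.ofReal 1)
      (fun n => (hgm n).ennreal_ofReal) ?_ ?_ ?_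
    · intro n
      exact Eventually.of_forall fun x => ENNReal.ofReal_le_ofReal (hg1 n x)
    · simpa using hfin.ne
    · refine Eventually.of_forall fun x => ?_
      exact (ENNReal.continuous_ofReal.tendsto _).comp (hglim x)
  have l3 : Tendsto (fun n => ∫⁻ p, ENNReal.ofReal (p.1 * (g n p.1 - g n (p.1 + p.2))) *
      ENNReal.ofReal (kk h p) ∂(μ.prod μ)) atTop (𝓝 0) := by
    have z : (0:ℝ≥0∞) = ∫⁻ _, 0 ∂(μ.prod μ) := by simp
    rw [z]
    refine tendsto_lintegral_of_dominated_convergence (fun x => ENNReal.ofReal H) ?_ ?_ ?_ ?_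
    · intro n
      exact (measurable_fst.mul (((hgm n).comp measurable_fst).sub
        ((hgm n).comp hadd))).ennreal_ofReal.mul hkm
    · intro n
      filter_upwards [ae_pos_prod hs.pos] with p hp
      have hx := hp.1
      have hy := hp.2
      have hen := he n
      rw [← ENNReal.ofReal_mul (mul_nonneg hp.1.le (sub_nonneg.mpr (hganti n _ _ hp.1 hp.2)))]
      refine ENNReal.ofReal_le_ofReal ?_
      have hxy : 0 < p.1 + p.2 := add_pos hx hy
      have e1 : p.1 * (g n p.1 - g n (p.1 + p.2)) * (p.1⁻¹ + p.2⁻¹)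
          = (e n * (p.1 + p.2)) / ((1 + e n * p.1) * (1 + e n * (p.1 + p.2))) := by
        simp only [g]
        rw [abs_of_pos hx, abs_of_pos hxy]
        have d1 : 0 < 1 + e n * p.1 := by positivity
        have d2 : 0 < 1 + e n * (p.1 + p.2) := by positivity
        field_simp
        ring
      have e2 : (e n * (p.1 + p.2)) / ((1 + e n * p.1) * (1 + e n * (p.1 + p.2))) ≤ 1 := by
        have d1 : 0 < e n * p.1 := by positivity
        have d2 : 0 < e n * (p.1 + p.2) := by positivity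
        rw [div_le_one (by positivity)]
        nlinarith
      calc p.1 * (g n p.1 - g n (p.1 + p.2)) * kk h p
          = (p.1 * (g n p.1 - g n (p.1 + p.2)) * (p.1⁻¹ + p.2⁻¹)) * h (p.1/(p.1+p.2)) := by
            unfold kk; ring
        _ ≤ 1 * H := by
            rw [e1]
            exact mul_le_mul e2 (hh.le _) (hh.nonneg _) zero_le_one
        _ = H := one_mul H
    · rw [lintegral_const, ← univ_prod_univ, Measure.prod_prod]
      exact ENNReal.mul_ne_top ENNReal.ofReal_ne_top (ENNReal.mul_ne_top hfin.ne hfin.ne)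
    · refine Eventually.of_forall fun p => ?_
      have h1 : Tendsto (fun n => p.1 * (g n p.1 - g n (p.1 + p.2))) atTop (𝓝 (p.1 * (1 - 1))) :=
        ((hglim p.1).sub (hglim (p.1 + p.2))).const_mul p.1
      rw [sub_self, mul_zero] at h1
      have h2 := (ENNReal.continuous_ofReal.tendsto _).comp h1
      rw [ENNReal.ofReal_zero] at h2
      have h3 := ENNReal.Tendsto.mul_const h2 (Or.inr (ENNReal.ofReal_ne_top (r := kk h p)))
      simpa using h3
  have l4 := l3.add (ENNReal.Tendsto.const_mul l2 (Or.inr (ENNReal.ofReal_ne_top (r := M))))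
  rw [zero_add] at l4
  have l5 := l1.congr hfl
  have := tendsto_nhds_unique l4 l5
  rw [this, hη.mass]

/-- If the solution has unbounded support then `M ≥ 1`. -/
lemma Sol.one_le (hs : Sol h η M μ) (hh : Nice h H) (hη : IsSource η L) (hM : 0 ≤ M)
    (hT : ∀ z : ℝ, μ (Ici z) ≠ 0) : 1 ≤ M := by
  have hσ := sigmaFinite_of_radon hs.pos hs.radon
  obtain ⟨hfin, hinv⟩ := hs.finite hh hη hM
  have hmass := hs.mass hh hη hM
  have hkm : Measurable fun p => ENNReal.ofReal (kk h p) := (kk_meas hh.cont).ennreal_ofReal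
  -- lower bound for M
  have key : ∀ ε : ℝ, 0 < ε → ε < 1 → ∀ X : ℝ, 0 < X →
      ENNReal.ofReal (1 - ε) * μ (Iio X) ≤ ENNReal.ofReal M := by
    intro ε hε hε1 X hX
    obtain ⟨δ, hδ, hnear⟩ := hh.near hε
    set z := max (max X (X/δ)) (L + 1) with hz
    have hzX : X ≤ z := le_trans (le_max_left _ _) (le_max_left _ _)
    have hzX' : X/δ ≤ z := le_trans (le_max_right _ _) (le_max_left _ _)
    have hzL : L < z := lt_of_lt_of_le (by linarith) (le_max_right _ _)
    have hz0 : 0 < z := lt_of_lt_of_le hX hzX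
    let g : ℝ → ℝ := (Iio z).indicator (fun _ => 1)
    have hg1 : ∀ x, x < z → g x = 1 := fun x hx => by simp only [g]; rw [indicator_of_mem]; exact hx
    have hg2 : ∀ x, z ≤ x → g x = 0 := fun x hx => by
      simp only [g]; rw [indicator_of_notMem]; exact not_lt.mpr hx
    have hgm : Measurable g := measurable_const.indicator measurableSet_Iio
    have hg0 : ∀ x, 0 ≤ g x := fun x => indicator_nonneg (fun _ _ => zero_le_one) x
    have hgle : ∀ x, g x ≤ 1 := fun x => by
      rcases lt_or_ge x z with h1 | h1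
      · rw [hg1 x h1]
      · rw [hg2 x h1]; exact zero_le_one
    have hfl := hs.flux hh hη hM g hgm hg0 (by
      intro x y hx hy
      rcases lt_or_ge (x + y) z with h1 | h1
      · rw [hg1 _ h1, hg1 x (by linarith)]
      · rw [hg2 _ h1]; exact hg0 x) 1 z hgle (by
      intro x hx
      rcases lt_or_ge x z with h1 | h1
      · rw [hg1 x h1]; linarith
      · rw [hg2 x h1]; linarith)
    have e1 : ∫⁻ x, ENNReal.ofReal (x * g x) ∂η = 1 := by
      rw [← hη.mass]
      refine lintegral_congr_ae ?_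
      filter_upwards [hη.ae_mem] with x hx
      rw [hg1 x (lt_of_le_of_lt hx.2 hzL), mul_one]
    have e2 : ∫⁻ x, ENNReal.ofReal (g x) ∂μ = μ (Iio z) := by
      rw [← lintegral_indicator_one measurableSet_Iio]
      refine lintegral_congr fun x => ?_
      rcases lt_or_ge x z with h1 | h1
      · rw [hg1 x h1, indicator_of_mem (show x ∈ Iio z from h1)]; simp
      · rw [hg2 x h1, indicator_of_notMem (show x ∉ Iio z from not_lt.mpr h1)]; simp
    rw [e1, e2] at hfl
    have e3 : μ univ = μ (Iio z) + μ (Ici z) := by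
      rw [← measure_add_measure_compl (measurableSet_Iio (a := z)), compl_Iio]
    have hIio : μ (Iio z) ≠ ⊤ := (lt_of_le_of_lt (measure_mono (subset_univ _)) hfin).ne
    have hIci : μ (Ici z) ≠ ⊤ := (lt_of_le_of_lt (measure_mono (subset_univ _)) hfin).ne
    rw [e3, mul_add] at hmass
    have e4 : ∫⁻ p, ENNReal.ofReal (p.1 * (g p.1 - g (p.1 + p.2))) * ENNReal.ofReal (kk h p)
        ∂(μ.prod μ) = ENNReal.ofReal M * μ (Ici z) := by
      have h5 : ENNReal.ofReal M * μ (Iio z) ≠ ⊤ := ENNReal.mul_ne_top ENNReal.ofReal_ne_top hIio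
      have h6 : ENNReal.ofReal M * μ (Iio z) + ∫⁻ p, ENNReal.ofReal (p.1 * (g p.1 - g (p.1 + p.2))) *
          ENNReal.ofReal (kk h p) ∂(μ.prod μ)
          = ENNReal.ofReal M * μ (Iio z) + ENNReal.ofReal M * μ (Ici z) := by
        rw [hmass, add_comm, ← hfl]
      exact (ENNReal.add_right_inj h5).mp h6
    have e5 : ENNReal.ofReal (1 - ε) * (μ (Iio X) * μ (Ici z)) ≤
        ∫⁻ p, ENNReal.ofReal (p.1 * (g p.1 - g (p.1 + p.2))) * ENNReal.ofReal (kk h p)
        ∂(μ.prod μ) := by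
      rw [← Measure.prod_prod, ← setLIntegral_const]
      refine le_trans ?_ (setLIntegral_le_lintegral (Iio X ×ˢ Ici z) _)
      refine lintegral_mono_ae ?_
      have hae : ∀ᵐ p ∂((μ.prod μ).restrict (Iio X ×ˢ Ici z)), 0 < p.1 ∧ 0 < p.2 :=
        ae_restrict_of_ae (ae_pos_prod hs.pos)
      have hmem : ∀ᵐ p ∂((μ.prod μ).restrict (Iio X ×ˢ Ici z)), p ∈ Iio X ×ˢ Ici z :=
        ae_restrict_mem (measurableSet_Iio.prod measurableSet_Ici)
      filter_upwards [hae, hmem] with p hp hpm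
      have hx := hp.1
      have hy := hp.2
      have hxX : p.1 < X := hpm.1
      have hyz : z ≤ p.2 := hpm.2
      rw [hg1 p.1 (by linarith), hg2 (p.1 + p.2) (by linarith), sub_zero, mul_one,
        ← ENNReal.ofReal_mul hx.le]
      refine ENNReal.ofReal_le_ofReal ?_
      have hs1 : p.1/(p.1+p.2) ≤ δ := by
        rw [div_le_iff₀ (by linarith)]
        have : X ≤ z * δ := by rwa [div_le_iff₀ hδ] at hzX'
        nlinarith
      have h7 := abs_le.mp (hnear _ (by positivity) hs1)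
      have h8 : 1 - ε ≤ h (p.1/(p.1+p.2)) := by linarith [h7.1]
      calc 1 - ε ≤ 1 * h (p.1/(p.1+p.2)) := by rw [one_mul]; exact h8
        _ ≤ (p.1 * (p.1⁻¹ + p.2⁻¹)) * h (p.1/(p.1+p.2)) := by
            refine mul_le_mul_of_nonneg_right ?_ (hh.nonneg _)
            have : p.1 * (p.1⁻¹ + p.2⁻¹) = 1 + p.1 * p.2⁻¹ := by
              rw [mul_add, mul_inv_cancel₀ hx.ne']
            rw [this]
            have : 0 ≤ p.1 * p.2⁻¹ := by positivity
            linarith
        _ = p.1 * kk h p := by unfold kk; ring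
    rw [e4, ← mul_assoc] at e5
    exact (ENNReal.mul_le_mul_iff_left (hT z) hIci).mp e5
  have key2 : ∀ ε : ℝ, 0 < ε → ε < 1 → ENNReal.ofReal (1 - ε) * μ univ ≤ ENNReal.ofReal M := by
    intro ε hε hε1
    have h1 : Tendsto (fun n : ℕ => μ (Iio ((n:ℝ)+1))) atTop (𝓝 (μ (⋃ n : ℕ, Iio ((n:ℝ)+1)))) := by
      refine tendsto_measure_iUnion_atTop ?_
      intro m n hmn
      refine Iio_subset_Iio ?_
      have : (m:ℝ) ≤ n := by exact_mod_cast hmn
      linarith
    have hU : (⋃ n : ℕ, Iio ((n:ℝ)+1)) = univ := by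
      ext x
      simp only [mem_iUnion, mem_Iio, mem_univ, iff_true]
      obtain ⟨n, hn⟩ := exists_nat_gt x
      exact ⟨n, by linarith⟩
    rw [hU] at h1
    have h2 := ENNReal.Tendsto.const_mul h1 (Or.inr (ENNReal.ofReal_ne_top (r := 1 - ε)))
    exact le_of_tendsto h2 (Eventually.of_forall fun n => key ε hε hε1 _ (by positivity))
  -- conclusion
  have hm : (μ univ) = ENNReal.ofReal (μ univ).toReal := (ENNReal.ofReal_toReal hfin.ne).symm
  set m := (μ univ).toReal with hmdef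
  have hm0 : 0 ≤ m := ENNReal.toReal_nonneg
  rw [hm] at hmass key2
  have r1 : M * m = 1 := by
    rw [← ENNReal.ofReal_mul hM] at hmass
    have := congrArg ENNReal.toReal hmass
    rwa [ENNReal.toReal_ofReal (mul_nonneg hM hm0), ENNReal.toReal_one] at this
  have r2 : ∀ ε : ℝ, 0 < ε → ε < 1 → (1 - ε) * m ≤ M := by
    intro ε h1 h2
    have := key2 ε h1 h2
    rw [← ENNReal.ofReal_mul (by linarith)] at this
    exact (ENNReal.ofReal_le_ofReal_iff hM).mp this
  have r3 : m ≤ M := by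
    by_contra hcon
    push Not at hcon
    have hmpos : 0 < m := lt_of_le_of_lt hM hcon
    have := r2 ((m - M)/(2*m)) (by apply div_pos <;> linarith) (by
      rw [div_lt_one (by linarith)]; linarith)
    have e : (1 - (m - M)/(2*m)) * m = (m + M)/2 := by field_simp; ring
    rw [e] at this
    linarith
  by_contra hcon
  push Not at hcon
  nlinarith

end sol

end Pool.Agent.Helper728.Coag
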