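import Mathlib
import Pool.Agent.Helper728.Coag.Disc

open Finset

namespace Pool.Agent.Helper728.Coag

section tail

variable (P : ℕ) (c : ℕ → ℝ) (w : ℕ → ℕ → ℝ)

/-- mass of the sizes at least `z` -/
noncomputable def tl (z : ℕ) : ℝ := ∑ i ∈ range (P+1), if z ≤ i then c i else 0

/-- flux through `z` -/
noncomputable def fluxJ (z : ℕ) : ℝ :=
  ∑ a ∈ range (P+1), ∑ b ∈ range (P+1), if a < z ∧ z ≤ a + b then w a b * c a * c b else 0

noncomputable def fluxB (z : ℕ) : ℝ :=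
  ∑ a ∈ range (P+1), ∑ b ∈ range (P+1),
    if a < z ∧ b < z ∧ z ≤ a + b then w a b * c a * c b else 0

noncomputable def nearS (δ : ℝ) (z : ℕ) : ℝ :=
  ∑ a ∈ range (P+1), if a < z ∧ δ * z < a then c a else 0

variable {P c w}

lemma tl_anti (hc : ∀ i, 0 ≤ c i) {y z : ℕ} (h : y ≤ z) : tl P c z ≤ tl P c y := by
  refine sum_le_sum fun i _ => ?_
  by_cases h1 : z ≤ i
  · rw [if_pos h1, if_pos (h.trans h1)]
  · rw [if_neg h1]
    split_ifs
    · exact hc i
    · exact le_rfl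

lemma point_bound {H ε δ τ : ℝ} (hc : ∀ i, 0 ≤ c i) (hc0 : c 0 = 0) (hw : ∀ a b, 0 ≤ w a b)
    (hH : 0 ≤ H) (hε : 0 ≤ ε) (hδ : 0 < δ)
    (w1 : ∀ a b : ℕ, 1 ≤ a → 1 ≤ b → w a b ≤ H * (1 + (a:ℝ)/b))
    (w2 : ∀ a b : ℕ, 1 ≤ a → 1 ≤ b → (a:ℝ) ≤ δ * b → w a b ≤ 1 + ε)
    (hm : ∑ i ∈ range (P+1), c i ≤ 1)
    (z : ℕ) (hJ : (∑ i ∈ range (P+1), c i) * tl P c z ≤ fluxJ P c w z)
    (hτ : 0 < τ) (hτT : τ ≤ tl P c z) :
    τ - ε ≤ 2 * H * nearS P c δ z + fluxB P c w z / τ := by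
  set m := ∑ i ∈ range (P+1), c i with hmdef
  set T := tl P c z with hT
  set S := nearS P c δ z with hS
  have hTpos : 0 < T := lt_of_lt_of_le hτ hτT
  have hB0 : 0 ≤ fluxB P c w z := by
    refine sum_nonneg fun a _ => sum_nonneg fun b _ => ?_
    split_ifs
    · exact mul_nonneg (mul_nonneg (hw _ _) (hc _)) (hc _)
    · exact le_rfl
  have hJAB : fluxJ P c w z = (∑ a ∈ range (P+1), ∑ b ∈ range (P+1),
      if a < z ∧ z ≤ b then w a b * c a * c b else 0) + fluxB P c w z := by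
    rw [fluxJ, fluxB, ← sum_add_distrib]
    refine sum_congr rfl fun a _ => ?_
    rw [← sum_add_distrib]
    refine sum_congr rfl fun b _ => ?_
    by_cases h1 : a < z
    · by_cases h2 : z ≤ b
      · rw [if_pos ⟨h1, by omega⟩, if_pos ⟨h1, h2⟩, if_neg (by omega), add_zero]
      · by_cases h3 : z ≤ a + b
        · rw [if_pos ⟨h1, h3⟩, if_neg (by omega), if_pos ⟨h1, by omega, h3⟩, zero_add]
        · rw [if_neg (by omega), if_neg (by omega), if_neg (by omega), add_zero]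
    · rw [if_neg (by omega), if_neg (by omega), if_neg (by omega), add_zero]
  have hmT : m - T = ∑ a ∈ range (P+1), if a < z then c a else 0 := by
    rw [hmdef, hT, tl, ← sum_sub_distrib]
    refine sum_congr rfl fun a _ => ?_
    by_cases h : a < z
    · rw [if_pos h, if_neg (by omega), sub_zero]
    · rw [if_neg h, if_pos (by omega), sub_self]
  have hA : (∑ a ∈ range (P+1), ∑ b ∈ range (P+1),
      if a < z ∧ z ≤ b then w a b * c a * c b else 0) ≤ ((1+ε) * (m - T) + 2 * H * S) * T := by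
    have e1 : (1+ε) * (∑ a ∈ range (P+1), if a < z then c a else 0)
        + 2 * H * (∑ a ∈ range (P+1), if a < z ∧ δ * z < a then c a else 0)
        = ∑ a ∈ range (P+1), ((1+ε) * (if a < z then c a else 0)
          + 2 * H * (if a < z ∧ δ * z < a then c a else 0)) := by
      rw [sum_add_distrib, mul_sum, mul_sum]
    rw [hmT, hS, nearS, hT, tl, e1, sum_mul]
    refine sum_le_sum fun a _ => ?_
    rw [mul_sum]
    refine sum_le_sum fun b _ => ?_
    by_cases h1 : a < z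
    · by_cases h2 : z ≤ b
      · rw [if_pos ⟨h1, h2⟩, if_pos h1, if_pos h2]
        rcases Nat.eq_zero_or_pos a with h0 | h0
        · subst h0; rw [hc0]; simp
        · have hb : 1 ≤ b := by omega
          have hbR : (1:ℝ) ≤ b := by exact_mod_cast hb
          have hab : (a:ℝ) / b ≤ 1 := by
            rw [div_le_one (by linarith)]
            exact_mod_cast (by omega : a ≤ b)
          by_cases h3 : δ * z < a
          · rw [if_pos ⟨h1, h3⟩]
            have h4 : w a b ≤ 2 * H := by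
              refine (w1 a b h0 hb).trans ?_
              nlinarith
            have h5 : w a b * c a * c b ≤ (2 * H) * c a * c b :=
              mul_le_mul_of_nonneg_right (mul_le_mul_of_nonneg_right h4 (hc _)) (hc _)
            have h6 : 0 ≤ (1 + ε) * c a * c b :=
              mul_nonneg (mul_nonneg (by linarith) (hc _)) (hc _)
            nlinarith
          · rw [if_neg (by tauto)]
            have h4 : w a b ≤ 1 + ε := by
              refine w2 a b h0 hb ?_
              have : δ * (z:ℝ) ≤ δ * b := mul_le_mul_of_nonneg_left (by exact_mod_cast h2) hδ.le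
              linarith [not_lt.mp h3]
            have h5 : w a b * c a * c b ≤ (1 + ε) * c a * c b :=
              mul_le_mul_of_nonneg_right (mul_le_mul_of_nonneg_right h4 (hc _)) (hc _)
            nlinarith
      · rw [if_neg (by tauto), if_neg h2, mul_zero]
    · rw [if_neg (by tauto), if_neg h1, if_neg (by tauto)]
      simp
  have hTm : T ≤ m := by
    have : 0 ≤ m - T := by
      rw [hmT]
      exact sum_nonneg fun a _ => by split_ifs; exacts [hc a, le_rfl]
    linarith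
  have main : T * T - ε * T ≤ 2 * H * S * T + fluxB P c w z := by
    rw [hJAB] at hJ
    have h1 : m * T ≤ ((1+ε) * (m - T) + 2 * H * S) * T + fluxB P c w z := by linarith
    have h2 : 0 ≤ ε * T * (1 - m) := mul_nonneg (mul_nonneg hε hTpos.le) (by linarith)
    have h3 : 0 ≤ ε * T * T := by positivity
    nlinarith
  have h5 : T - ε ≤ 2 * H * S + fluxB P c w z / T := by
    have : (T - ε) * T ≤ (2 * H * S + fluxB P c w z / T) * T := by
      rw [add_mul, div_mul_cancel₀ _ hTpos.ne']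
      nlinarith
    exact le_of_mul_le_mul_right this hTpos
  have h6 : fluxB P c w z / T ≤ fluxB P c w z / τ :=
    div_le_div_of_nonneg_left hB0 hτ hτT
  linarith

lemma near_sum {δ : ℝ} (hδ : 0 < δ) (hc : ∀ i, 0 ≤ c i) (hc0 : c 0 = 0)
    (hm : ∑ i ∈ range (P+1), c i ≤ 1) (p q : ℕ) :
    ∑ z ∈ Ioc p q, (1/(z:ℝ)) * nearS P c δ z ≤ 1 / δ := by
  have h1 : ∑ z ∈ Ioc p q, (1/(z:ℝ)) * nearS P c δ z
      = ∑ a ∈ range (P+1), c a * ∑ z ∈ (Ioc p q).filter (fun z : ℕ => a < z ∧ δ * z < a), (1/(z:ℝ)) := by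
    simp_rw [nearS, mul_sum]
    rw [sum_comm]
    refine sum_congr rfl fun a _ => ?_
    rw [sum_filter]
    refine sum_congr rfl fun z _ => ?_
    by_cases h : a < z ∧ δ * z < a
    · rw [if_pos h, if_pos h]; ring
    · rw [if_neg h, if_neg h]; ring
  rw [h1]
  have h2 : ∀ a ∈ range (P+1), c a * ∑ z ∈ (Ioc p q).filter (fun z : ℕ => a < z ∧ δ * z < a), (1/(z:ℝ))
      ≤ c a * (1/δ) := by
    intro a _
    rcases Nat.eq_zero_or_pos a with h0 | h0
    · subst h0; rw [hc0]; simp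
    · refine mul_le_mul_of_nonneg_left ?_ (hc a)
      have ha : (0:ℝ) < a := by exact_mod_cast h0
      have h3 : ∑ z ∈ (Ioc p q).filter (fun z : ℕ => a < z ∧ δ * z < a), (1/(z:ℝ))
          ≤ ∑ z ∈ (Ioc p q).filter (fun z : ℕ => a < z ∧ δ * z < a), (1/(a:ℝ)) := by
        refine sum_le_sum fun z hz => ?_
        rw [mem_filter] at hz
        exact one_div_le_one_div_of_le ha (by exact_mod_cast hz.2.1.le)
      have h4 : ((Ioc p q).filter (fun z : ℕ => a < z ∧ δ * z < a)).card ≤ ⌊(a:ℝ)/δ⌋₊ := by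
        have : (Ioc p q).filter (fun z : ℕ => a < z ∧ δ * z < a) ⊆ Finset.Icc 1 ⌊(a:ℝ)/δ⌋₊ := by
          intro z hz
          rw [mem_filter] at hz
          rw [Finset.mem_Icc]
          refine ⟨by omega, ?_⟩
          refine Nat.le_floor ?_
          rw [le_div_iff₀ hδ]
          nlinarith [hz.2.2]
        calc _ ≤ (Finset.Icc 1 ⌊(a:ℝ)/δ⌋₊).card := card_le_card this
          _ = _ := by simp
      have h5 : (((Ioc p q).filter (fun z : ℕ => a < z ∧ δ * z < a)).card : ℝ) ≤ (a:ℝ)/δ :=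
        le_trans (by exact_mod_cast h4) (Nat.floor_le (by positivity))
      calc _ ≤ _ := h3
        _ = (((Ioc p q).filter (fun z : ℕ => a < z ∧ δ * z < a)).card : ℝ) * (1/(a:ℝ)) := by
            rw [sum_const, nsmul_eq_mul]
        _ ≤ ((a:ℝ)/δ) * (1/(a:ℝ)) := mul_le_mul_of_nonneg_right h5 (by positivity)
        _ = 1/δ := by field_simp
  calc _ ≤ ∑ a ∈ range (P+1), c a * (1/δ) := sum_le_sum h2
    _ = (∑ a ∈ range (P+1), c a) * (1/δ) := by rw [sum_mul]
    _ ≤ 1 * (1/δ) := mul_le_mul_of_nonneg_right hm (by positivity)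
    _ = 1/δ := one_mul _

lemma fluxB_sum {H : ℝ} (hH : 0 ≤ H) (hc : ∀ i, 0 ≤ c i) (hc0 : c 0 = 0)
    (w1 : ∀ a b : ℕ, 1 ≤ a → 1 ≤ b → w a b ≤ H * (1 + (a:ℝ)/b))
    (hm : ∑ i ∈ range (P+1), c i ≤ 1) (p q : ℕ) :
    ∑ z ∈ Ioc p q, (1/(z:ℝ)) * fluxB P c w z ≤ 2 * H := by
  have h1 : ∑ z ∈ Ioc p q, (1/(z:ℝ)) * fluxB P c w z
      = ∑ a ∈ range (P+1), ∑ b ∈ range (P+1), (w a b * c a * c b) *
        ∑ z ∈ (Ioc p q).filter (fun z : ℕ => a < z ∧ b < z ∧ z ≤ a + b), (1/(z:ℝ)) := by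
    simp_rw [fluxB, mul_sum]
    rw [sum_comm]
    refine sum_congr rfl fun a _ => ?_
    rw [sum_comm]
    refine sum_congr rfl fun b _ => ?_
    rw [sum_filter]
    refine sum_congr rfl fun z _ => ?_
    by_cases h : a < z ∧ b < z ∧ z ≤ a + b
    · rw [if_pos h, if_pos h]; ring
    · rw [if_neg h, if_neg h]; ring
  rw [h1]
  have h2 : ∀ a ∈ range (P+1), ∀ b ∈ range (P+1), (w a b * c a * c b) *
        ∑ z ∈ (Ioc p q).filter (fun z : ℕ => a < z ∧ b < z ∧ z ≤ a + b), (1/(z:ℝ))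
      ≤ (2 * H) * c a * c b := by
    intro a _ b _
    rcases Nat.eq_zero_or_pos a with h0 | h0
    · subst h0; rw [hc0]; simp
    rcases Nat.eq_zero_or_pos b with k0 | k0
    · subst k0; rw [hc0]; simp
    have ha : (0:ℝ) < a := by exact_mod_cast h0
    have hb : (0:ℝ) < b := by exact_mod_cast k0
    have h3 : ∑ z ∈ (Ioc p q).filter (fun z : ℕ => a < z ∧ b < z ∧ z ≤ a + b), (1/(z:ℝ))
        ≤ (min a b : ℕ) * (1/((max a b : ℕ):ℝ)) := by
      have hcard : ((Ioc p q).filter (fun z : ℕ => a < z ∧ b < z ∧ z ≤ a + b)).card ≤ min a b := by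
        have : (Ioc p q).filter (fun z : ℕ => a < z ∧ b < z ∧ z ≤ a + b)
            ⊆ Finset.Ioc (max a b) (a+b) := by
          intro z hz
          rw [mem_filter] at hz
          rw [Finset.mem_Ioc]
          omega
        calc _ ≤ (Finset.Ioc (max a b) (a+b)).card := card_le_card this
          _ = (a + b) - max a b := by simp
          _ = min a b := by omega
      calc _ ≤ ∑ z ∈ (Ioc p q).filter (fun z : ℕ => a < z ∧ b < z ∧ z ≤ a + b),
              (1/((max a b : ℕ):ℝ)) := by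
            refine sum_le_sum fun z hz => ?_
            rw [mem_filter] at hz
            refine one_div_le_one_div_of_le ?_ ?_
            · exact_mod_cast (by omega : 0 < max a b)
            · exact_mod_cast (by omega : max a b ≤ z)
        _ = (((Ioc p q).filter (fun z : ℕ => a < z ∧ b < z ∧ z ≤ a + b)).card : ℝ) *
              (1/((max a b : ℕ):ℝ)) := by rw [sum_const, nsmul_eq_mul]
        _ ≤ _ := by
            refine mul_le_mul_of_nonneg_right ?_ (by positivity)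
            exact_mod_cast hcard
    have h4 : w a b * ∑ z ∈ (Ioc p q).filter (fun z : ℕ => a < z ∧ b < z ∧ z ≤ a + b), (1/(z:ℝ))
        ≤ 2 * H := by
      have h5 : w a b * ∑ z ∈ (Ioc p q).filter (fun z : ℕ => a < z ∧ b < z ∧ z ≤ a + b), (1/(z:ℝ))
          ≤ (H * (1 + (a:ℝ)/b)) * ((min a b : ℕ) * (1/((max a b : ℕ):ℝ))) :=
        mul_le_mul (w1 a b h0 k0) h3 (sum_nonneg fun z _ => by positivity) (by positivity)
      refine h5.trans ?_
      rcases le_total a b with hab | hab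
      · rw [min_eq_left hab, max_eq_right hab]
        have hab' : (a:ℝ)/b ≤ 1 := by
          rw [div_le_one hb]; exact_mod_cast hab
        have hab0 : 0 ≤ (a:ℝ)/b := by positivity
        have e : H * (1 + (a:ℝ)/b) * ((a:ℝ) * (1/(b:ℝ))) = H * ((1 + (a:ℝ)/b) * ((a:ℝ)/b)) := by
          ring
        rw [e]
        have : (1 + (a:ℝ)/b) * ((a:ℝ)/b) ≤ 2 := by nlinarith
        nlinarith
      · rw [min_eq_right hab, max_eq_left hab]
        have hab' : (b:ℝ)/a ≤ 1 := by
          rw [div_le_one ha]; exact_mod_cast hab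
        have hab0 : 0 ≤ (b:ℝ)/a := by positivity
        have e : H * (1 + (a:ℝ)/b) * ((b:ℝ) * (1/(a:ℝ))) = H * ((b:ℝ)/a + 1) := by
          field_simp
        rw [e]
        nlinarith
    calc (w a b * c a * c b) * ∑ z ∈ (Ioc p q).filter (fun z : ℕ => a < z ∧ b < z ∧ z ≤ a + b), (1/(z:ℝ))
        = (w a b * ∑ z ∈ (Ioc p q).filter (fun z : ℕ => a < z ∧ b < z ∧ z ≤ a + b), (1/(z:ℝ)))
            * (c a * c b) := by ring
      _ ≤ (2 * H) * (c a * c b) := mul_le_mul_of_nonneg_right h4 (mul_nonneg (hc _) (hc _))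
      _ = (2 * H) * c a * c b := by ring
  have hm0 : 0 ≤ ∑ i ∈ range (P+1), c i := sum_nonneg fun i _ => hc i
  calc _ ≤ ∑ a ∈ range (P+1), ∑ b ∈ range (P+1), (2 * H) * c a * c b :=
        sum_le_sum fun a ha => sum_le_sum fun b hb => h2 a ha b hb
    _ = (2 * H) * ((∑ i ∈ range (P+1), c i) * (∑ i ∈ range (P+1), c i)) := by
        rw [sum_mul_sum, mul_sum]
        refine sum_congr rfl fun a _ => ?_
        rw [mul_sum]
        refine sum_congr rfl fun b _ => ?_
        ring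
    _ ≤ (2 * H) * 1 := by
        refine mul_le_mul_of_nonneg_left ?_ (by positivity)
        nlinarith
    _ = 2 * H := mul_one _

/-- The tail bound. -/
lemma tail_bound {H ε δ τ : ℝ} (hc : ∀ i, 0 ≤ c i) (hc0 : c 0 = 0) (hw : ∀ a b, 0 ≤ w a b)
    (hH : 0 ≤ H) (hε : 0 ≤ ε) (hδ : 0 < δ)
    (w1 : ∀ a b : ℕ, 1 ≤ a → 1 ≤ b → w a b ≤ H * (1 + (a:ℝ)/b))
    (w2 : ∀ a b : ℕ, 1 ≤ a → 1 ≤ b → (a:ℝ) ≤ δ * b → w a b ≤ 1 + ε)
    (hm : ∑ i ∈ range (P+1), c i ≤ 1) (p q : ℕ) (hq : q ≤ P)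
    (hJ : ∀ z, p < z → z ≤ P → (∑ i ∈ range (P+1), c i) * tl P c z ≤ fluxJ P c w z)
    (hτ : 0 < τ) (hτT : τ ≤ tl P c q) :
    (τ - ε) * ∑ z ∈ Ioc p q, (1/(z:ℝ)) ≤ 2 * H / δ + 2 * H / τ := by
  have h1 : ∀ z ∈ Ioc p q, (1/(z:ℝ)) * (τ - ε)
      ≤ 2 * H * ((1/(z:ℝ)) * nearS P c δ z) + ((1/(z:ℝ)) * fluxB P c w z) * (1/τ) := by
    intro z hz
    rw [Finset.mem_Ioc] at hz
    have h2 := point_bound hc hc0 hw hH hε hδ w1 w2 hm z (hJ z hz.1 (hz.2.trans hq)) hτ
      (hτT.trans (tl_anti hc hz.2))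
    have hz0 : (0:ℝ) ≤ 1/(z:ℝ) := by positivity
    calc (1/(z:ℝ)) * (τ - ε) ≤ (1/(z:ℝ)) * (2 * H * nearS P c δ z + fluxB P c w z / τ) :=
          mul_le_mul_of_nonneg_left h2 hz0
      _ = _ := by ring
  calc (τ - ε) * ∑ z ∈ Ioc p q, (1/(z:ℝ)) = ∑ z ∈ Ioc p q, (1/(z:ℝ)) * (τ - ε) := by
        rw [← sum_mul, mul_comm]
    _ ≤ ∑ z ∈ Ioc p q, (2 * H * ((1/(z:ℝ)) * nearS P c δ z)
          + ((1/(z:ℝ)) * fluxB P c w z) * (1/τ)) := sum_le_sum h1
    _ = 2 * H * ∑ z ∈ Ioc p q, ((1/(z:ℝ)) * nearS P c δ z)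
          + (∑ z ∈ Ioc p q, (1/(z:ℝ)) * fluxB P c w z) * (1/τ) := by
        rw [sum_add_distrib, ← mul_sum, ← sum_mul]
    _ ≤ 2 * H * (1/δ) + (2 * H) * (1/τ) := by
        refine add_le_add ?_ ?_
        · exact mul_le_mul_of_nonneg_left (near_sum hδ hc hc0 hm p q) (by positivity)
        · exact mul_le_mul_of_nonneg_right (fluxB_sum hH hc hc0 w1 hm p q) (by positivity)
    _ = _ := by ring

/-- harmonic sums over dyadic ranges -/
lemma harmonic_dyadic (p : ℕ) (hp : 1 ≤ p) (k : ℕ) :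
    (k:ℝ)/2 ≤ ∑ z ∈ Ioc p (2^k * p), (1/(z:ℝ)) := by
  induction k with
  | zero => simp
  | succ k ih =>
    have hle : 2^k * p ≤ 2^(k+1) * p := by
      have : 2^k ≤ 2^(k+1) := Nat.pow_le_pow_right (by norm_num) (by omega)
      exact Nat.mul_le_mul_right p this
    have hp' : p ≤ 2^k * p := Nat.le_mul_of_pos_left p (by positivity)
    rw [← sum_Ioc_consecutive (fun z : ℕ => 1/(z:ℝ)) hp' hle]
    have h1 : (1:ℝ)/2 ≤ ∑ z ∈ Ioc (2^k * p) (2^(k+1) * p), (1/(z:ℝ)) := by
      have hpos : (0:ℝ) < 2^(k+1) * p := by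
        have : (0:ℝ) < p := by exact_mod_cast hp
        positivity
      calc (1:ℝ)/2 = ((Ioc (2^k * p) (2^(k+1) * p)).card : ℝ) * (1/((2:ℝ)^(k+1) * p)) := by
            have hcard : (Ioc (2^k * p) (2^(k+1) * p)).card = 2^k * p := by
              rw [Nat.card_Ioc, pow_succ]
              have : 2^k * 2 * p = 2^k * p + 2^k * p := by ring
              omega
            rw [hcard]
            push_cast
            rw [pow_succ]
            have hp0 : (p:ℝ) ≠ 0 := by
              have : (0:ℝ) < p := by exact_mod_cast hp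
              exact this.ne'
            field_simp
        _ = ∑ z ∈ Ioc (2^k * p) (2^(k+1) * p), (1/((2:ℝ)^(k+1) * p)) := by
            rw [sum_const, nsmul_eq_mul]
        _ ≤ _ := by
            refine sum_le_sum fun z hz => ?_
            rw [Finset.mem_Ioc] at hz
            have hz0 : (0:ℝ) < z := by
              have : 0 < z := by omega
              exact_mod_cast this
            refine one_div_le_one_div_of_le hz0 ?_
            exact_mod_cast hz.2
    push_cast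
    linarith

end tail

end Pool.Agent.Helper728.Coag
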