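import Mathlib
import Pool.Agent.Helper728.Coag.Tail
import Pool.Agent.Helper728.Coag.NonEx

open MeasureTheory Filter Topology Set
open scoped ContDiff ENNReal

namespace Pool.Agent.Helper728.Coag

/-- A bounded continuous kernel on the plane, supported away from the axes. -/
structure Ker (k : ℝ × ℝ → ℝ) (C : ℝ) : Prop where
  cont : Continuous k
  nonneg : ∀ p, 0 ≤ k p
  le : ∀ p, k p ≤ C
  symm : ∀ x y, k (x, y) = k (y, x)
  zero : ∀ y, k (0, y) = 0

/-- the discretised source on the lattice of mesh `1/n` -/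
noncomputable def esrc (η : Measure ℝ) (n : ℕ) (i : ℕ) : ℝ :=
  ∫ x, (if ⌈(n:ℝ) * x⌉₊ = i then x / ((i:ℝ)/n) else 0) ∂η

noncomputable def rho (M : ℝ) (n : ℕ) (i : ℕ) : ℝ := if i = 0 then 1 else M / ((i:ℝ)/n)

noncomputable def kap (k : ℝ × ℝ → ℝ) (n : ℕ) (a b : ℕ) : ℝ := k ((a:ℝ)/n, (b:ℝ)/n)

noncomputable def top (L : ℝ) (n : ℕ) : ℕ := n * (n + ⌈L⌉₊ + 1)

/-- stationary states of the discretised and truncated problem -/
def Stat (k : ℝ × ℝ → ℝ) (η : Measure ℝ) (M L : ℝ) (n : ℕ) (c : ℕ → ℝ) : Prop :=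
  IsStat (kap k n) (esrc η n) (rho M n) (top L n) c

section

variable {k : ℝ × ℝ → ℝ} {C : ℝ} {η : Measure ℝ} {M L : ℝ} {n : ℕ} {c : ℕ → ℝ}

lemma Ker.zero' (hk : Ker k C) (x : ℝ) : k (x, 0) = 0 := by rw [hk.symm, hk.zero]

lemma esrc_nonneg (hη : IsSource η L) (i : ℕ) : 0 ≤ esrc η n i := by
  refine integral_nonneg_of_ae ?_
  filter_upwards [hη.ae_mem] with x hx
  have hx0 : 0 ≤ x := le_trans zero_le_one hx.1
  simp only [Pi.zero_apply]
  split_ifs
  · positivity
  · exact le_rfl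

lemma rho_pos (hM : 0 < M) (hn : 1 ≤ n) (i : ℕ) : 0 < rho M n i := by
  unfold rho
  split_ifs with h
  · exact one_pos
  · have h1 : (0:ℝ) < i := by exact_mod_cast Nat.pos_of_ne_zero h
    have h2 : (0:ℝ) < n := by exact_mod_cast hn
    positivity

lemma exists_stat (hk : Ker k C) (hη : IsSource η L) (hM : 0 < M) (hn : 1 ≤ n) :
    ∃ c, Stat k η M L n c := by
  obtain ⟨c, h1, h2, h3⟩ := exists_stationary (kap k n) (esrc η n) (rho M n)
    (fun j => by unfold kap; simp only [Nat.cast_zero, zero_div]; exact hk.zero _)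
    (fun j => by unfold kap; simp only [Nat.cast_zero, zero_div]; exact hk.zero' _)
    (esrc_nonneg hη) (rho_pos hM hn) (fun i j => hk.nonneg _) (top L n)
  exact ⟨c, h1, h2, h3⟩

lemma ceil_le_top (hn : 1 ≤ n) {x : ℝ} (hx : x ≤ L) : ⌈(n:ℝ) * x⌉₊ ≤ top L n := by
  refine Nat.ceil_le.mpr ?_
  unfold top
  push_cast
  have h1 : L ≤ ⌈L⌉₊ := Nat.le_ceil L
  have h2 : (1:ℝ) ≤ n := by exact_mod_cast hn
  have : x ≤ (n:ℝ) + ⌈L⌉₊ + 1 := by linarith
  exact mul_le_mul_of_nonneg_left this (by linarith)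

lemma sum_esrc (hη : IsSource η L) (hn : 1 ≤ n) (φ : ℕ → ℝ) :
    ∑ i ∈ Finset.range (top L n + 1), esrc η n i * φ i
      = ∫ x, x / ((⌈(n:ℝ) * x⌉₊ : ℝ)/n) * φ ⌈(n:ℝ) * x⌉₊ ∂η := by
  have hfin : IsFiniteMeasure η := ⟨lt_of_le_of_lt hη.univ_le ENNReal.one_lt_top⟩
  have hn0 : (0:ℝ) < n := by exact_mod_cast hn
  have hmeas : ∀ i : ℕ, Measurable fun x : ℝ => (if ⌈(n:ℝ) * x⌉₊ = i then x / ((i:ℝ)/n) else 0) := by
    intro i
    refine Measurable.ite ?_ (measurable_id.div_const _) measurable_const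
    have : Measurable fun x : ℝ => ⌈(n:ℝ) * x⌉₊ := Nat.measurable_ceil.comp (measurable_const.mul measurable_id)
    exact this (measurableSet_singleton i)
  have hint : ∀ i : ℕ, Integrable (fun x : ℝ => (if ⌈(n:ℝ) * x⌉₊ = i then x / ((i:ℝ)/n) else 0)) η := by
    intro i
    refine Integrable.of_bound (hmeas i).aestronglyMeasurable (max L 0 * n) ?_
    filter_upwards [hη.ae_mem] with x hx
    have hx0 : 0 ≤ x := le_trans zero_le_one hx.1
    have hL0 : 0 ≤ max L 0 := le_max_right _ _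
    split_ifs with h
    · rw [Real.norm_eq_abs, abs_of_nonneg (by positivity)]
      have hi : (1:ℝ) ≤ i := by
        have : 1 ≤ i := by
          rw [← h]
          exact Nat.one_le_iff_ne_zero.mpr (Nat.ceil_pos.mpr (by nlinarith [hx.1])).ne'
        exact_mod_cast this
      have e : x / ((i:ℝ)/n) = x * n / i := by field_simp
      rw [e, div_le_iff₀ (by linarith)]
      have h1 : x * n ≤ max L 0 * n := mul_le_mul_of_nonneg_right (hx.2.trans (le_max_left _ _)) hn0.le
      have h2 : 0 ≤ max L 0 * n := by positivity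
      nlinarith
    · rw [norm_zero]; positivity
  calc ∑ i ∈ Finset.range (top L n + 1), esrc η n i * φ i
      = ∑ i ∈ Finset.range (top L n + 1),
          ∫ x, (if ⌈(n:ℝ) * x⌉₊ = i then x / ((i:ℝ)/n) else 0) * φ i ∂η := by
        refine Finset.sum_congr rfl fun i _ => ?_
        rw [esrc, integral_mul_const]
    _ = ∫ x, ∑ i ∈ Finset.range (top L n + 1),
          (if ⌈(n:ℝ) * x⌉₊ = i then x / ((i:ℝ)/n) else 0) * φ i ∂η := by
        rw [integral_finsetSum]
        intro i _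
        exact (hint i).mul_const _
    _ = _ := by
        refine integral_congr_ae ?_
        filter_upwards [hη.ae_mem] with x hx
        rw [Finset.sum_eq_single ⌈(n:ℝ) * x⌉₊]
        · rw [if_pos rfl]
        · intro b _ hb
          rw [if_neg (fun h => hb h.symm), zero_mul]
        · intro hnot
          exfalso
          apply hnot
          rw [Finset.mem_range]
          exact Nat.lt_succ_of_le (ceil_le_top hn hx.2)

lemma ceil_ge (hn : 1 ≤ n) {x : ℝ} (hx : 1 ≤ x) : n ≤ ⌈(n:ℝ) * x⌉₊ := by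
  have hn0 : (1:ℝ) ≤ n := by exact_mod_cast hn
  have : (n:ℝ) ≤ ⌈(n:ℝ) * x⌉₊ := le_trans (by nlinarith) (Nat.le_ceil _)
  exact_mod_cast this

lemma esrc_zero (hη : IsSource η L) (hn : 1 ≤ n) {i : ℕ} (hi : i < n) : esrc η n i = 0 := by
  unfold esrc
  rw [integral_eq_zero_of_ae]
  filter_upwards [hη.ae_mem] with x hx
  have := ceil_ge hn hx.1
  rw [if_neg (by omega)]
  rfl

/-- source vanishes for large indices -/
lemma esrc_zero' (hη : IsSource η L) (hn : 1 ≤ n) {i : ℕ} (hi : (n:ℝ) * L + 1 ≤ i) :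
    esrc η n i = 0 := by
  unfold esrc
  rw [integral_eq_zero_of_ae]
  filter_upwards [hη.ae_mem] with x hx
  have hn0 : (1:ℝ) ≤ n := by exact_mod_cast hn
  have h1 : (⌈(n:ℝ) * x⌉₊:ℝ) < (n:ℝ) * x + 1 := Nat.ceil_lt_add_one (by nlinarith [hx.1])
  have h2 : (n:ℝ) * x ≤ (n:ℝ) * L := mul_le_mul_of_nonneg_left hx.2 (by linarith)
  rw [if_neg]
  · rfl
  · intro h
    rw [h] at h1
    linarith

lemma int_id (hη : IsSource η L) : ∫ x, x ∂η = 1 := by
  rw [integral_eq_lintegral_of_nonneg_ae, hη.mass, ENNReal.toReal_one]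
  · filter_upwards [hη.ae_mem] with x hx using le_trans zero_le_one hx.1
  · exact measurable_id.aestronglyMeasurable

lemma Stat.small (hc : Stat k η M L n c) (hk : Ker k C) (hη : IsSource η L) (hM : 0 < M)
    (hn : 1 ≤ n) : ∀ i, i < n → c i = 0 := by
  intro i
  induction i using Nat.strong_induction_on with
  | _ i ih =>
    intro hi
    have htop : n ≤ top L n := by
      unfold top; nlinarith [Nat.zero_le ⌈L⌉₊]
    have h1 := hc.eq i (by omega)
    have h2 : 0 < rho M n i + ∑ j ∈ Finset.range (top L n + 1), kap k n i j * c j :=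
      add_pos_of_pos_of_nonneg (rho_pos hM hn i)
        (Finset.sum_nonneg fun j _ => mul_nonneg (hk.nonneg _) (hc.nonneg j))
    have h3 : ∑ p ∈ Finset.HasAntidiagonal.antidiagonal i, kap k n p.1 p.2 * c p.1 * c p.2 = 0 := by
      refine Finset.sum_eq_zero ?_
      intro p hp
      rw [Finset.HasAntidiagonal.mem_antidiagonal] at hp
      by_cases h0 : p.1 = 0
      · have : kap k n p.1 p.2 = 0 := by
          unfold kap; rw [h0]; simp only [Nat.cast_zero, zero_div]; exact hk.zero _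
        rw [this]; ring
      · by_cases h0' : p.2 = 0
        · have : kap k n p.1 p.2 = 0 := by
            unfold kap; rw [h0']; simp only [Nat.cast_zero, zero_div]; exact hk.zero' _
          rw [this]; ring
        · rw [ih p.1 (by omega) (by omega)]; ring
    rw [esrc_zero hη hn hi, h3, mul_zero, add_zero] at h1
    exact (mul_eq_zero.mp h1).resolve_right h2.ne'

lemma kap_symm (hk : Ker k C) (i j : ℕ) : kap k n i j = kap k n j i := hk.symm _ _

/-- weak form on the lattice -/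
lemma Stat.weakR (hc : Stat k η M L n c) (hk : Ker k C) (hη : IsSource η L) (hM : 0 < M)
    (hn : 1 ≤ n) (φ : ℝ → ℝ) (hφ : ∀ x, (n:ℝ) < x → φ x = 0) :
    (1/2) * ∑ a ∈ Finset.range (top L n + 1), ∑ b ∈ Finset.range (top L n + 1),
        c a * c b * (k ((a:ℝ)/n, (b:ℝ)/n) * φ ((a:ℝ)/n + (b:ℝ)/n))
      + ∫ x, x / ((⌈(n:ℝ) * x⌉₊ : ℝ)/n) * φ ((⌈(n:ℝ) * x⌉₊ : ℝ)/n) ∂η
    = ∑ a ∈ Finset.range (top L n + 1), ∑ b ∈ Finset.range (top L n + 1),
        c a * c b * (k ((a:ℝ)/n, (b:ℝ)/n) * φ ((a:ℝ)/n))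
      + ∑ i ∈ Finset.range (top L n + 1), c i * (M * ((i:ℝ)/n)⁻¹ * φ ((i:ℝ)/n)) := by
  have hn0 : (0:ℝ) < n := by exact_mod_cast hn
  have h1 := hc.weak (fun i => φ ((i:ℝ)/n)) (by
    intro i hi
    refine hφ _ ?_
    rw [lt_div_iff₀ hn0]
    have : (n:ℝ) * n ≤ (top L n : ℝ) := by
      unfold top; push_cast
      have : (0:ℝ) ≤ ⌈L⌉₊ := Nat.cast_nonneg _
      nlinarith
    have h2 : (top L n : ℝ) < i := by exact_mod_cast hi
    linarith)
  rw [sum_esrc hη hn (fun i => φ ((i:ℝ)/n))] at h1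
  have e1 : ∑ a ∈ Finset.range (top L n + 1), ∑ b ∈ Finset.range (top L n + 1),
        c a * c b * (k ((a:ℝ)/n, (b:ℝ)/n) * φ ((a:ℝ)/n + (b:ℝ)/n))
      = ∑ a ∈ Finset.range (top L n + 1), ∑ b ∈ Finset.range (top L n + 1),
        kap k n a b * c a * c b * φ (((a + b : ℕ) : ℝ)/n) := by
    refine Finset.sum_congr rfl fun a _ => Finset.sum_congr rfl fun b _ => ?_
    unfold kap
    rw [Nat.cast_add, add_div]
    ring
  have e2 : ∑ a ∈ Finset.range (top L n + 1), ∑ b ∈ Finset.range (top L n + 1),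
        c a * c b * (k ((a:ℝ)/n, (b:ℝ)/n) * φ ((a:ℝ)/n))
      = ∑ a ∈ Finset.range (top L n + 1), ∑ b ∈ Finset.range (top L n + 1),
        kap k n a b * c a * c b * φ ((a : ℝ)/n) := by
    refine Finset.sum_congr rfl fun a _ => Finset.sum_congr rfl fun b _ => ?_
    unfold kap
    ring
  have e3 : ∑ i ∈ Finset.range (top L n + 1), c i * (M * ((i:ℝ)/n)⁻¹ * φ ((i:ℝ)/n))
      = ∑ i ∈ Finset.range (top L n + 1), rho M n i * c i * φ ((i:ℝ)/n) := by
    refine Finset.sum_congr rfl fun i _ => ?_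
    rcases Nat.eq_zero_or_pos i with h0 | h0
    · have : c i = 0 := hc.small hk hη hM hn i (by omega)
      rw [this]; ring
    · unfold rho
      rw [if_neg (by omega)]
      ring
  rw [e1, e2, e3]
  exact h1

/-- flux identity on the lattice, above the source -/
lemma Stat.fluxR (hc : Stat k η M L n c) (hk : Ker k C) (hη : IsSource η L) (hM : 0 < M)
    (hn : 1 ≤ n) (z : ℕ) (hz : z ≤ top L n + 1) (hzL : (n:ℝ) * L + 1 ≤ z) :
    1 = fluxJ (top L n) c (fun a b => kap k n a b * ((a:ℝ)/n)) z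
      + M * (∑ i ∈ Finset.range (top L n + 1), c i - tl (top L n) c z) := by
  have hn0 : (0:ℝ) < n := by exact_mod_cast hn
  have h1 := IsStat.flux hc (kap_symm hk) (fun i => (i:ℝ)/n) (by
    intro a b; push_cast; ring) z hz
  have e1 : ∑ i ∈ Finset.range (top L n + 1), (if i < z then esrc η n i * ((i:ℝ)/n) else 0) = 1 := by
    have : ∑ i ∈ Finset.range (top L n + 1), (if i < z then esrc η n i * ((i:ℝ)/n) else 0)
        = ∑ i ∈ Finset.range (top L n + 1), esrc η n i * ((i:ℝ)/n) := by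
      refine Finset.sum_congr rfl fun i _ => ?_
      by_cases h : i < z
      · rw [if_pos h]
      · rw [if_neg h, esrc_zero' hη hn, zero_mul]
        have : (z:ℝ) ≤ i := by exact_mod_cast not_lt.mp h
        linarith
    rw [this, sum_esrc hη hn (fun i => (i:ℝ)/n), ← int_id hη]
    refine integral_congr_ae ?_
    filter_upwards [hη.ae_mem] with x hx
    have h2 : n ≤ ⌈(n:ℝ) * x⌉₊ := ceil_ge hn hx.1
    have h3 : (0:ℝ) < ⌈(n:ℝ) * x⌉₊ := by
      have : 0 < ⌈(n:ℝ) * x⌉₊ := by omega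
      exact_mod_cast this
    exact div_mul_cancel₀ _ (by positivity)
  have e2 : ∑ i ∈ Finset.range (top L n + 1), (if i < z then rho M n i * ((i:ℝ)/n) * c i else 0)
      = M * (∑ i ∈ Finset.range (top L n + 1), c i - tl (top L n) c z) := by
    rw [tl, ← Finset.sum_sub_distrib, Finset.mul_sum]
    refine Finset.sum_congr rfl fun i _ => ?_
    by_cases h : i < z
    · rw [if_pos h, if_neg (by omega), sub_zero]
      rcases Nat.eq_zero_or_pos i with h0 | h0
      · have : c i = 0 := hc.small hk hη hM hn i (by omega)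
        rw [this]; ring
      · unfold rho
        rw [if_neg (by omega)]
        have : (0:ℝ) < i := by exact_mod_cast h0
        rw [div_mul_cancel₀ _ (by positivity)]
    · rw [if_neg h, if_pos (by omega), sub_self, mul_zero]
  rw [e1, e2] at h1
  rw [h1, fluxJ]

lemma fluxJ_nonneg {P : ℕ} {c : ℕ → ℝ} {w : ℕ → ℕ → ℝ} (hc : ∀ i, 0 ≤ c i) (hw : ∀ a b, 0 ≤ w a b)
    (z : ℕ) : 0 ≤ fluxJ P c w z := by
  refine Finset.sum_nonneg fun a _ => Finset.sum_nonneg fun b _ => ?_
  split_ifs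
  · exact mul_nonneg (mul_nonneg (hw _ _) (hc _)) (hc _)
  · exact le_rfl

lemma Stat.mass_le (hc : Stat k η M L n c) (hk : Ker k C) (hη : IsSource η L) (hM : 0 < M)
    (hn : 1 ≤ n) : M * ∑ i ∈ Finset.range (top L n + 1), c i ≤ 1 := by
  have hn0 : (0:ℝ) < n := by exact_mod_cast hn
  have h1 := hc.fluxR hk hη hM hn (top L n + 1) le_rfl (by
    unfold top; push_cast
    have h1 : L ≤ ⌈L⌉₊ := Nat.le_ceil L
    nlinarith)
  have h2 : tl (top L n) c (top L n + 1) = 0 := by
    unfold tl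
    refine Finset.sum_eq_zero fun i hi => ?_
    rw [Finset.mem_range] at hi
    rw [if_neg (by omega)]
  have h3 := fluxJ_nonneg (P := top L n) (c := c) (w := fun a b => kap k n a b * ((a:ℝ)/n))
    hc.nonneg (fun a b => mul_nonneg (hk.nonneg _) (by positivity)) (top L n + 1)
  rw [h2, sub_zero] at h1
  linarith

end

end Pool.Agent.Helper728.Coag
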