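import Mathlib
import Pool.Agent.Helper728.Coag.Lattice

open MeasureTheory Filter Topology Set
open scoped ContDiff ENNReal

namespace Pool.Agent.Helper728.Coag

/-- cut-off near zero -/
noncomputable def th (x : ℝ) : ℝ := min 1 (max 0 (2 * x - 1))

lemma th_cont : Continuous th := by unfold th; fun_prop

lemma th_nonneg (x : ℝ) : 0 ≤ th x := le_min zero_le_one (le_max_left _ _)

lemma th_le (x : ℝ) : th x ≤ 1 := min_le_left _ _

lemma th_zero {x : ℝ} (hx : x ≤ 1/2) : th x = 0 := by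
  unfold th
  rw [max_eq_left (by linarith)]
  exact min_eq_right zero_le_one

lemma th_one {x : ℝ} (hx : 1 ≤ x) : th x = 1 := by
  unfold th
  rw [max_eq_right (by linarith)]
  exact min_eq_left (by linarith)

/-- The kernel, modified for sizes below one. -/
noncomputable def kbar (h : ℝ → ℝ) (p : ℝ × ℝ) : ℝ :=
  th p.1 * th p.2 * kk h (max p.1 1, max p.2 1)

lemma kbar_eq {h : ℝ → ℝ} {p : ℝ × ℝ} (h1 : 1 ≤ p.1) (h2 : 1 ≤ p.2) : kbar h p = kk h p := by
  unfold kbar
  rw [th_one h1, th_one h2, max_eq_left h1, max_eq_left h2, one_mul, one_mul]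

section

variable {h : ℝ → ℝ} {H : ℝ}

lemma kk_max_le (hh : Nice h H) (p : ℝ × ℝ) :
    kk h (max p.1 1, max p.2 1) ≤ ((max p.1 1)⁻¹ + (max p.2 1)⁻¹) * H := by
  unfold kk
  refine mul_le_mul_of_nonneg_left (hh.le _) ?_
  have h1 : (0:ℝ) < max p.1 1 := lt_of_lt_of_le one_pos (le_max_right _ _)
  have h2 : (0:ℝ) < max p.2 1 := lt_of_lt_of_le one_pos (le_max_right _ _)
  positivity

lemma kk_max_nonneg (hh : Nice h H) (p : ℝ × ℝ) : 0 ≤ kk h (max p.1 1, max p.2 1) :=
  hh.kk_nonneg ⟨lt_of_lt_of_le one_pos (le_max_right _ _), lt_of_lt_of_le one_pos (le_max_right _ _)⟩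

lemma ker_kbar (hh : Nice h H) : Ker (kbar h) (2 * H) := by
  have hH0 : 0 ≤ H := le_trans zero_le_one hh.one_le
  refine ⟨?_, ?_, ?_, ?_, ?_⟩
  · unfold kbar kk
    have c1 : Continuous fun p : ℝ × ℝ => max p.1 1 := by fun_prop
    have c2 : Continuous fun p : ℝ × ℝ => max p.2 1 := by fun_prop
    have n1 : ∀ p : ℝ × ℝ, max p.1 1 ≠ 0 := fun p =>
      (lt_of_lt_of_le one_pos (le_max_right p.1 1)).ne'
    have n2 : ∀ p : ℝ × ℝ, max p.2 1 ≠ 0 := fun p =>
      (lt_of_lt_of_le one_pos (le_max_right p.2 1)).ne'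
    have n3 : ∀ p : ℝ × ℝ, max p.1 1 + max p.2 1 ≠ 0 := fun p =>
      (add_pos (lt_of_lt_of_le one_pos (le_max_right p.1 1))
        (lt_of_lt_of_le one_pos (le_max_right p.2 1))).ne'
    exact ((th_cont.comp continuous_fst).mul (th_cont.comp continuous_snd)).mul
      (((c1.inv₀ n1).add (c2.inv₀ n2)).mul (hh.cont.comp (c1.div (c1.add c2) n3)))
  · intro p
    exact mul_nonneg (mul_nonneg (th_nonneg _) (th_nonneg _)) (kk_max_nonneg hh p)
  · intro p
    have h1 : (max p.1 1)⁻¹ ≤ 1 := inv_le_one_of_one_le₀ (le_max_right _ _)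
    have h2 : (max p.2 1)⁻¹ ≤ 1 := inv_le_one_of_one_le₀ (le_max_right _ _)
    have h3 : kk h (max p.1 1, max p.2 1) ≤ 2 * H := by
      refine (kk_max_le hh p).trans (mul_le_mul_of_nonneg_right ?_ hH0)
      linarith
    calc kbar h p ≤ 1 * kk h (max p.1 1, max p.2 1) := by
          refine mul_le_mul_of_nonneg_right ?_ (kk_max_nonneg hh p)
          exact mul_le_one₀ (th_le _) (th_nonneg _) (th_le _)
      _ ≤ 2 * H := by rw [one_mul]; exact h3
  · intro x y
    unfold kbar kk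
    simp only
    have hx : (0:ℝ) < max x 1 := lt_of_lt_of_le one_pos (le_max_right _ _)
    have hy : (0:ℝ) < max y 1 := lt_of_lt_of_le one_pos (le_max_right _ _)
    have e2 : max x 1 / (max x 1 + max y 1) = 1 - max y 1 / (max y 1 + max x 1) := by
      field_simp
      ring
    rw [e2, hh.symm]
    ring
  · intro y
    unfold kbar
    simp only
    rw [th_zero (by norm_num)]
    ring

lemma w1_kbar (hh : Nice h H) {n : ℕ} (hn : 1 ≤ n) (a b : ℕ) (ha : 1 ≤ a) (hb : 1 ≤ b) :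
    kap (kbar h) n a b * ((a:ℝ)/n) ≤ H * (1 + (a:ℝ)/b) := by
  have hn0 : (0:ℝ) < n := by exact_mod_cast hn
  have ha0 : (0:ℝ) < a := by exact_mod_cast ha
  have hb0 : (0:ℝ) < b := by exact_mod_cast hb
  have hH0 : 0 ≤ H := le_trans zero_le_one hh.one_le
  have h1 : kap (kbar h) n a b ≤ (((a:ℝ)/n)⁻¹ + ((b:ℝ)/n)⁻¹) * H := by
    unfold kap
    calc kbar h ((a:ℝ)/n, (b:ℝ)/n) ≤ 1 * kk h (max ((a:ℝ)/n) 1, max ((b:ℝ)/n) 1) := by
          refine mul_le_mul_of_nonneg_right ?_ (kk_max_nonneg hh ((a:ℝ)/n, (b:ℝ)/n))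
          exact mul_le_one₀ (th_le _) (th_nonneg _) (th_le _)
      _ = kk h (max ((a:ℝ)/n) 1, max ((b:ℝ)/n) 1) := one_mul _
      _ ≤ ((max ((a:ℝ)/n) 1)⁻¹ + (max ((b:ℝ)/n) 1)⁻¹) * H := kk_max_le hh ((a:ℝ)/n, (b:ℝ)/n)
      _ ≤ _ := by
          refine mul_le_mul_of_nonneg_right (add_le_add ?_ ?_) hH0
          · exact inv_anti₀ (by positivity) (le_max_left _ _)
          · exact inv_anti₀ (by positivity) (le_max_left _ _)
  calc kap (kbar h) n a b * ((a:ℝ)/n) ≤ ((((a:ℝ)/n)⁻¹ + ((b:ℝ)/n)⁻¹) * H) * ((a:ℝ)/n) :=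
        mul_le_mul_of_nonneg_right h1 (by positivity)
    _ = H * (1 + (a:ℝ)/b) := by field_simp

lemma w2_kbar (hh : Nice h H) {ε : ℝ} (hε : 0 < ε) (hε1 : ε ≤ 1) :
    ∃ δ : ℝ, 0 < δ ∧ ∀ n : ℕ, 1 ≤ n → ∀ a b : ℕ, 1 ≤ a → 1 ≤ b → (a:ℝ) ≤ δ * b →
      kap (kbar h) n a b * ((a:ℝ)/n) ≤ 1 + ε := by
  obtain ⟨δ0, hδ0, hnear⟩ := hh.near (ε := ε/2) (by linarith)
  refine ⟨min (δ0/2) (ε/4), lt_min (by linarith) (by linarith), ?_⟩
  intro n hn a b ha hb hab
  have hn0 : (0:ℝ) < n := by exact_mod_cast hn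
  have ha0 : (0:ℝ) < a := by exact_mod_cast ha
  have hb0 : (0:ℝ) < b := by exact_mod_cast hb
  have hab1 : (a:ℝ) ≤ δ0/2 * b :=
    hab.trans (mul_le_mul_of_nonneg_right (min_le_left _ _) hb0.le)
  have hab2 : (a:ℝ) ≤ ε/4 * b :=
    hab.trans (mul_le_mul_of_nonneg_right (min_le_right _ _) hb0.le)
  rcases le_or_gt ((a:ℝ)/n) (1/2) with hx | hx
  · have : kap (kbar h) n a b = 0 := by
      unfold kap kbar
      simp only
      rw [th_zero hx]; ring
    rw [this, zero_mul]; linarith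
  · set x' := max ((a:ℝ)/n) 1 with hx'
    set y' := max ((b:ℝ)/n) 1 with hy'
    have hx'0 : 0 < x' := lt_of_lt_of_le one_pos (le_max_right _ _)
    have hy'0 : 0 < y' := lt_of_lt_of_le one_pos (le_max_right _ _)
    have hxx : x' ≤ 2 * ((a:ℝ)/n) := max_le (by linarith) (by linarith)
    have hyy : (b:ℝ)/n ≤ y' := le_max_left _ _
    have hratio : x' / (x' + y') ≤ δ0 := by
      rw [div_le_iff₀ (by linarith)]
      have h1 : 2 * ((a:ℝ)/n) ≤ δ0 * ((b:ℝ)/n) := by
        have : 2 * ((a:ℝ)/n) = (2 * a)/n := by ring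
        rw [this]
        have : δ0 * ((b:ℝ)/n) = (δ0 * b)/n := by ring
        rw [this]
        exact div_le_div_of_nonneg_right (by linarith) hn0.le
      nlinarith
    have h2 := abs_le.mp (hnear _ (by positivity) hratio)
    have h3 : h (x'/(x'+y')) ≤ 1 + ε/2 := by linarith [h2.2]
    have h4 : kap (kbar h) n a b ≤ (((a:ℝ)/n)⁻¹ + ((b:ℝ)/n)⁻¹) * (1 + ε/2) := by
      unfold kap
      calc kbar h ((a:ℝ)/n, (b:ℝ)/n) ≤ 1 * kk h (x', y') := by
            refine mul_le_mul_of_nonneg_right ?_ (kk_max_nonneg hh ((a:ℝ)/n, (b:ℝ)/n))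
            exact mul_le_one₀ (th_le _) (th_nonneg _) (th_le _)
        _ = (x'⁻¹ + y'⁻¹) * h (x'/(x'+y')) := by rw [one_mul]; rfl
        _ ≤ _ := by
            refine mul_le_mul (add_le_add ?_ ?_) h3 (hh.nonneg _) (by positivity)
            · exact inv_anti₀ (by positivity) (le_max_left _ _)
            · exact inv_anti₀ (by positivity) (le_max_left _ _)
    calc kap (kbar h) n a b * ((a:ℝ)/n)
        ≤ ((((a:ℝ)/n)⁻¹ + ((b:ℝ)/n)⁻¹) * (1 + ε/2)) * ((a:ℝ)/n) :=
          mul_le_mul_of_nonneg_right h4 (by positivity)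
      _ = (1 + (a:ℝ)/b) * (1 + ε/2) := by field_simp
      _ ≤ (1 + ε/4) * (1 + ε/2) := by
          refine mul_le_mul_of_nonneg_right ?_ (by linarith)
          have : (a:ℝ)/b ≤ ε/4 := by rw [div_le_iff₀ hb0]; exact hab2
          linarith
      _ ≤ 1 + ε := by nlinarith

/-- uniform smallness of the tails of the discrete stationary states -/
lemma tail_uniform (hh : Nice h H) {η : Measure ℝ} {L M : ℝ} (hη : IsSource η L) (hM : 1 ≤ M)
    {τ : ℝ} (hτ : 0 < τ) :
    ∃ R : ℝ, ∀ n : ℕ, 1 ≤ n → ∀ c, Stat (kbar h) η M L n c →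
      ∑ i ∈ Finset.range (top L n + 1), (if R < (i:ℝ)/n then c i else 0) ≤ τ := by
  wlog hτ1 : τ ≤ 1 generalizing τ
  · obtain ⟨R, hR⟩ := this one_pos le_rfl
    exact ⟨R, fun n hn c hc => (hR n hn c hc).trans (not_le.mp hτ1).le⟩
  have hM0 : 0 < M := by linarith
  have hH0 : 0 ≤ H := le_trans zero_le_one hh.one_le
  obtain ⟨δ, hδ, hw2⟩ := w2_kbar hh (ε := τ/2) (by linarith) (by linarith)
  obtain ⟨K0, hK0⟩ := exists_nat_gt ((2 * H / δ + 2 * H / τ) * (4/τ))
  set p0 : ℕ := ⌈L⌉₊ + 1 with hp0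
  refine ⟨(2:ℝ)^K0 * p0, ?_⟩
  intro n hn c hc
  have hn0 : (0:ℝ) < n := by exact_mod_cast hn
  have hk := ker_kbar hh
  set P := top L n with hP
  set q := 2^K0 * (n * p0) with hq
  have hm := hc.mass_le hk hη hM0 hn
  set m := ∑ i ∈ Finset.range (P + 1), c i with hmdef
  have hm0 : 0 ≤ m := Finset.sum_nonneg fun i _ => hc.nonneg i
  have hm1 : m ≤ 1 := by nlinarith
  have htl : tl P c q ≤ τ := by
    rcases le_or_gt q P with hqP | hqP
    · by_contra hcon
      push Not at hcon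
      have hw : ∀ a b, 0 ≤ kap (kbar h) n a b * ((a:ℝ)/n) := fun a b =>
        mul_nonneg (hk.nonneg _) (by positivity)
      have htb := tail_bound (P := P) (c := c) (w := fun a b => kap (kbar h) n a b * ((a:ℝ)/n))
        (H := H) (ε := τ/2) (δ := δ) (τ := τ) hc.nonneg
        (hc.small hk hη hM0 hn 0 (by omega)) hw hH0 (by linarith) hδ
        (w1_kbar hh hn) (hw2 n hn) hm1 (n * p0) q hqP (by
          intro z hz hzP
          have hfl := hc.fluxR hk hη hM0 hn z (by omega) (by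
            have h1 : n * p0 + 1 ≤ z := hz
            have h2 : ((n * p0 + 1 : ℕ) : ℝ) ≤ z := by exact_mod_cast h1
            have h3 : L ≤ ⌈L⌉₊ := Nat.le_ceil L
            have h4 : (n:ℝ) * L ≤ n * p0 := by
              rw [hp0]; push_cast
              exact mul_le_mul_of_nonneg_left (by linarith) hn0.le
            push_cast at h2
            linarith)
          have ht0 : 0 ≤ tl P c z := Finset.sum_nonneg fun i _ => by
            split_ifs
            · exact hc.nonneg i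
            · exact le_rfl
          have h5 : M * tl P c z ≤ fluxJ P c (fun a b => kap (kbar h) n a b * ((a:ℝ)/n)) z := by
            nlinarith
          calc m * tl P c z ≤ M * tl P c z :=
                mul_le_mul_of_nonneg_right (by linarith) ht0
            _ ≤ _ := h5) hτ hcon.le
      have hhar := harmonic_dyadic (n * p0) (by
        have : 1 ≤ p0 := by omega
        exact Nat.one_le_iff_ne_zero.mpr (Nat.mul_ne_zero (by omega) (by omega))) K0
      have h6 : (τ - τ/2) * ((K0:ℝ)/2) ≤ 2 * H / δ + 2 * H / τ := by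
        refine le_trans ?_ htb
        exact mul_le_mul_of_nonneg_left hhar (by linarith)
      have h7 : (2 * H / δ + 2 * H / τ) * (4/τ) * (τ/4) = 2 * H / δ + 2 * H / τ := by
        field_simp
      nlinarith
    · have : tl P c q = 0 := by
        unfold tl
        refine Finset.sum_eq_zero fun i hi => ?_
        rw [Finset.mem_range] at hi
        rw [if_neg (by omega)]
      rw [this]; exact hτ.le
  refine le_trans ?_ htl
  unfold tl
  refine Finset.sum_le_sum fun i _ => ?_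
  by_cases h1 : (2:ℝ)^K0 * p0 < (i:ℝ)/n
  · rw [if_pos h1, if_pos]
    rw [lt_div_iff₀ hn0] at h1
    have h2 : ((q:ℕ):ℝ) < i := by
      rw [hq]; push_cast
      linarith
    exact_mod_cast h2.le
  · rw [if_neg h1]
    split_ifs
    · exact hc.nonneg i
    · exact le_rfl

end

end Pool.Agent.Helper728.Coag
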