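import Mathlib
import Pool.Agent.Helper728.Coag.Kbar

open MeasureTheory Filter Topology Set
open scoped ContDiff ENNReal BoundedContinuousFunction

namespace Pool.Agent.Helper728.Coag

/-- The discrete probability measure attached to a stationary state. -/
noncomputable def pm (M : ℝ) (n P : ℕ) (c : ℕ → ℝ) : Measure ℝ :=
  ENNReal.ofReal (1 - M * ∑ i ∈ Finset.range (P+1), c i) • Measure.dirac 0
    + ∑ i ∈ Finset.range (P+1), ENNReal.ofReal (M * c i) • Measure.dirac ((i:ℝ)/n)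

section pm

variable {M : ℝ} {n P : ℕ} {c : ℕ → ℝ}

lemma pm_apply {s : Set ℝ} (hs : MeasurableSet s) :
    pm M n P c s = ENNReal.ofReal (1 - M * ∑ i ∈ Finset.range (P+1), c i) * s.indicator 1 0
      + ∑ i ∈ Finset.range (P+1), ENNReal.ofReal (M * c i) * s.indicator 1 ((i:ℝ)/n) := by
  unfold pm
  rw [Measure.add_apply, Measure.smul_apply, Measure.finsetSum_apply, Measure.dirac_apply' _ hs,
    smul_eq_mul]
  congr 1
  refine Finset.sum_congr rfl fun i _ => ?_
  rw [Measure.smul_apply, Measure.dirac_apply' _ hs, smul_eq_mul]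

lemma pm_prob (hM : 0 ≤ M) (hc : ∀ i, 0 ≤ c i) (hm : M * ∑ i ∈ Finset.range (P+1), c i ≤ 1) :
    IsProbabilityMeasure (pm M n P c) := by
  refine ⟨?_⟩
  rw [pm_apply MeasurableSet.univ]
  simp only [indicator_univ, Pi.one_apply, mul_one]
  rw [← ENNReal.ofReal_sum_of_nonneg (fun i _ => mul_nonneg hM (hc i)), ← Finset.mul_sum,
    ← ENNReal.ofReal_add (by linarith)
      (mul_nonneg hM (Finset.sum_nonneg fun i _ => hc i))]
  simp

lemma int_pm (hM : 0 ≤ M) (hc : ∀ i, 0 ≤ c i) (u : ℝ → ℝ) (hu0 : u 0 = 0) :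
    ∫ x, u x ∂(pm M n P c) = ∑ i ∈ Finset.range (P+1), (M * c i) * u ((i:ℝ)/n) := by
  unfold pm
  rw [integral_add_measure, integral_smul_measure, integral_dirac, hu0, smul_zero, zero_add,
    integral_finsetSum_measure]
  · refine Finset.sum_congr rfl fun i _ => ?_
    rw [integral_smul_measure, integral_dirac, ENNReal.toReal_ofReal (mul_nonneg hM (hc i)),
      smul_eq_mul]
  · intro i _
    exact (integrable_dirac (by simp)).smul_measure ENNReal.ofReal_ne_top
  · exact (integrable_dirac (by simp)).smul_measure ENNReal.ofReal_ne_top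
  · rw [integrable_finsetSum_measure]
    intro i _
    exact (integrable_dirac (by simp)).smul_measure ENNReal.ofReal_ne_top

lemma int_pm2 (hM : 0 ≤ M) (hc : ∀ i, 0 ≤ c i) (hm : M * ∑ i ∈ Finset.range (P+1), c i ≤ 1)
    (u : ℝ × ℝ → ℝ) (huc : Continuous u) (B : ℝ) (hB : ∀ p, |u p| ≤ B)
    (hu0 : ∀ y, u (0, y) = 0) (hu0' : ∀ x, u (x, 0) = 0) :
    ∫ p, u p ∂((pm M n P c).prod (pm M n P c)) = ∑ a ∈ Finset.range (P+1),
      ∑ b ∈ Finset.range (P+1), (M * c a) * ((M * c b) * u ((a:ℝ)/n, (b:ℝ)/n)) := by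
  have := pm_prob (n := n) (P := P) hM hc hm
  rw [integral_prod]
  · have h1 : ∀ x, ∫ y, u (x, y) ∂(pm M n P c)
        = ∑ b ∈ Finset.range (P+1), (M * c b) * u (x, (b:ℝ)/n) := fun x =>
      int_pm hM hc (fun y => u (x, y)) (hu0' x)
    simp_rw [h1]
    rw [int_pm hM hc]
    · refine Finset.sum_congr rfl fun a _ => ?_
      rw [Finset.mul_sum]
    · refine Finset.sum_eq_zero fun b _ => ?_
      rw [hu0, mul_zero]
  · refine Integrable.of_bound huc.aestronglyMeasurable B ?_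
    exact Eventually.of_forall fun p => by rw [Real.norm_eq_abs]; exact hB p

end pm

/-- Existence of a weak limit of the discrete stationary states, for a tight family. -/
theorem exists_limit {k : ℝ × ℝ → ℝ} {C : ℝ} {η : Measure ℝ} {M L : ℝ} (hk : Ker k C)
    (hη : IsSource η L) (hM : 0 < M)
    (tight : ∀ τ : ℝ, 0 < τ → ∃ R : ℝ, ∀ n : ℕ, 1 ≤ n → ∀ c, Stat k η M L n c →
      ∑ i ∈ Finset.range (top L n + 1), (if R < (i:ℝ)/n then c i else 0) ≤ τ) :
    ∃ μ : Measure ℝ, μ univ < ⊤ ∧ μ (Iio 1) = 0 ∧ ∀ φ : ℝ → ℝ, Continuous φ →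
      HasCompactSupport φ → tsupport φ ⊆ Ioi 0 →
      (1/2) * ∫ p, k p * φ (p.1 + p.2) ∂(μ.prod μ) - ∫ p, k p * φ p.1 ∂(μ.prod μ)
        - ∫ x, (M * x⁻¹) * φ x ∂μ + ∫ x, φ x ∂η = 0 := by
  have hfinη : IsFiniteMeasure η := ⟨lt_of_le_of_lt hη.univ_le ENNReal.one_lt_top⟩
  choose c hc using fun n : ℕ => exists_stat (n := n+1) hk hη hM (by omega)
  have hn1 : ∀ n : ℕ, 1 ≤ n + 1 := fun n => by omega
  have hmass : ∀ n, M * ∑ i ∈ Finset.range (top L (n+1) + 1), c n i ≤ 1 := fun n =>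
    (hc n).mass_le hk hη hM (hn1 n)
  let p : ℕ → ProbabilityMeasure ℝ := fun n =>
    ⟨pm M (n+1) (top L (n+1)) (c n), pm_prob hM.le (hc n).nonneg (hmass n)⟩
  have hp : ∀ n, (p n : Measure ℝ) = pm M (n+1) (top L (n+1)) (c n) := fun n => rfl
  -- tightness
  have htight : IsTightMeasureSet {((μ : ProbabilityMeasure ℝ) : Measure ℝ) | μ ∈ range p} := by
    rw [isTightMeasureSet_iff_exists_isCompact_measure_compl_le]
    intro ε hε
    obtain ⟨τ, hτ, hτε⟩ : ∃ τ : ℝ, 0 < τ ∧ ENNReal.ofReal (M * τ) ≤ ε := by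
      rcases eq_or_ne ε ⊤ with h | h
      · exact ⟨1, one_pos, by rw [h]; exact le_top⟩
      · have h0 : 0 < ε.toReal := ENNReal.toReal_pos hε.ne' h
        refine ⟨ε.toReal / M, by positivity, ?_⟩
        rw [mul_div_cancel₀ _ hM.ne', ENNReal.ofReal_toReal h]
    obtain ⟨R, hR⟩ := tight τ hτ
    refine ⟨Metric.closedBall 0 (max R 0), isCompact_closedBall _ _, ?_⟩
    rintro _ ⟨_, ⟨n, rfl⟩, rfl⟩
    rw [hp n, pm_apply (Metric.isClosed_closedBall.measurableSet.compl)]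
    have h0 : (0:ℝ) ∉ (Metric.closedBall (0:ℝ) (max R 0))ᶜ := by
      rw [mem_compl_iff, not_not]
      exact Metric.mem_closedBall_self (le_max_right _ _)
    rw [indicator_of_notMem h0, mul_zero, zero_add]
    calc ∑ i ∈ Finset.range (top L (n+1) + 1), ENNReal.ofReal (M * c n i) *
          (Metric.closedBall (0:ℝ) (max R 0))ᶜ.indicator 1 ((i:ℝ)/((n+1:ℕ):ℝ))
        ≤ ∑ i ∈ Finset.range (top L (n+1) + 1), ENNReal.ofReal (M *
            (if R < (i:ℝ)/((n+1:ℕ):ℝ) then c n i else 0)) := by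
          refine Finset.sum_le_sum fun i _ => ?_
          by_cases hi : (i:ℝ)/((n+1:ℕ):ℝ) ∈ (Metric.closedBall (0:ℝ) (max R 0))ᶜ
          · rw [indicator_of_mem hi, Pi.one_apply, mul_one, if_pos]
            rw [mem_compl_iff, Metric.mem_closedBall, Real.dist_eq, sub_zero, not_le,
              abs_of_nonneg (by positivity)] at hi
            exact lt_of_le_of_lt (le_max_left _ _) hi
          · rw [indicator_of_notMem hi, mul_zero]
            exact zero_le
      _ = ENNReal.ofReal (M * ∑ i ∈ Finset.range (top L (n+1) + 1),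
            (if R < (i:ℝ)/((n+1:ℕ):ℝ) then c n i else 0)) := by
          rw [Finset.mul_sum, ENNReal.ofReal_sum_of_nonneg]
          intro i _
          refine mul_nonneg hM.le ?_
          split_ifs
          · exact (hc n).nonneg i
          · exact le_rfl
      _ ≤ ENNReal.ofReal (M * τ) :=
          ENNReal.ofReal_le_ofReal (mul_le_mul_of_nonneg_left (hR (n+1) (hn1 n) (c n) (hc n)) hM.le)
      _ ≤ ε := hτε
  have hcomp : IsCompact (closure (range p)) := isCompact_closure_of_isTightMeasureSet htight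
  let U : Ultrafilter ℕ := Ultrafilter.of atTop
  have hU : (U : Filter ℕ) ≤ atTop := Ultrafilter.of_le atTop
  obtain ⟨q, -, hq⟩ := hcomp.ultrafilter_le_nhds (U.map p) (by
    rw [le_principal_iff, Ultrafilter.mem_coe, Ultrafilter.mem_map]
    refine Filter.univ_mem' ?_
    intro n
    exact subset_closure (mem_range_self n))
  have hlim : Tendsto p U (𝓝 q) := hq
  have hlim2 : Tendsto (fun n => (p n).prod (p n)) U (𝓝 (q.prod q)) :=
    (ProbabilityMeasure.continuous_prod.tendsto (q, q)).comp (hlim.prodMk_nhds hlim)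
  -- one variable limits
  have L1 : ∀ (u : ℝ → ℝ), Continuous u → (∃ B, ∀ x, |u x| ≤ B) →
      Tendsto (fun n => ∫ x, u x ∂(p n : Measure ℝ)) U (𝓝 (∫ x, u x ∂(q : Measure ℝ))) := by
    rintro u hu ⟨B, hB⟩
    exact (ProbabilityMeasure.tendsto_iff_forall_integral_tendsto.mp hlim)
      (BoundedContinuousFunction.ofNormedAddCommGroup u hu B hB)
  have L2 : ∀ (u : ℝ × ℝ → ℝ), Continuous u → (∃ B, ∀ x, |u x| ≤ B) →
      Tendsto (fun n => ∫ x, u x ∂((p n : Measure ℝ).prod (p n : Measure ℝ))) U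
        (𝓝 (∫ x, u x ∂((q : Measure ℝ).prod (q : Measure ℝ)))) := by
    rintro u hu ⟨B, hB⟩
    exact (ProbabilityMeasure.tendsto_iff_forall_integral_tendsto.mp hlim2)
      (BoundedContinuousFunction.ofNormedAddCommGroup u hu B hB)
  -- support of the limit
  have hV : (q : Measure ℝ) (Iio 1 ∩ {0}ᶜ) = 0 := by
    have hopen : IsOpen (Iio (1:ℝ) ∩ {0}ᶜ) := isOpen_Iio.inter isOpen_compl_singleton
    have h1 := ProbabilityMeasure.le_liminf_measure_open_of_tendsto hlim hopen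
    have h2 : ∀ n, (p n : Measure ℝ) (Iio 1 ∩ {0}ᶜ) = 0 := by
      intro n
      rw [hp n, pm_apply hopen.measurableSet]
      have h0 : (0:ℝ) ∉ Iio (1:ℝ) ∩ {0}ᶜ := by simp
      rw [indicator_of_notMem h0, mul_zero, zero_add]
      refine Finset.sum_eq_zero fun i _ => ?_
      by_cases hi : (i:ℝ)/((n+1:ℕ):ℝ) ∈ Iio (1:ℝ) ∩ {0}ᶜ
      · have h3 : (i:ℝ)/((n+1:ℕ):ℝ) < 1 := hi.1
        rw [div_lt_one (by positivity)] at h3
        have h4 : i < n + 1 := by exact_mod_cast h3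
        rw [(hc n).small hk hη hM (hn1 n) i h4]
        simp
      · rw [indicator_of_notMem hi, mul_zero]
    simp only [h2] at h1
    have h3 : (liminf (fun _ : ℕ => (0:ℝ≥0∞)) (U : Filter ℕ)) = 0 := liminf_const 0
    rw [h3] at h1
    exact le_antisymm h1 zero_le
  set μ : Measure ℝ := ENNReal.ofReal M⁻¹ • (q : Measure ℝ).restrict (Ici 1) with hμ
  have hMinv : ENNReal.ofReal M⁻¹ ≠ ⊤ := ENNReal.ofReal_ne_top
  have haeq : ∀ᵐ x ∂(q : Measure ℝ), x = 0 ∨ 1 ≤ x := by
    rw [ae_iff]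
    convert hV using 2
    ext x
    simp only [mem_ofPred_eq, mem_inter_iff, mem_Iio, mem_compl_iff, mem_singleton_iff, not_or,
      not_le]
    tauto
  have S1 : ∀ u : ℝ → ℝ, u 0 = 0 → ∫ x, u x ∂(q : Measure ℝ) = M * ∫ x, u x ∂μ := by
    intro u hu0
    rw [hμ, integral_smul_measure, ENNReal.toReal_ofReal (inv_nonneg.mpr hM.le), smul_eq_mul,
      ← mul_assoc, mul_inv_cancel₀ hM.ne', one_mul]
    rw [← integral_indicator measurableSet_Ici]
    refine integral_congr_ae ?_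
    filter_upwards [haeq] with x hx
    rcases hx with hx | hx
    · rw [hx, hu0, indicator_of_notMem]; simp
    · rw [indicator_of_mem]; exact hx
  have hμprod : μ.prod μ = (ENNReal.ofReal M⁻¹ * ENNReal.ofReal M⁻¹) •
      ((q : Measure ℝ).prod (q : Measure ℝ)).restrict (Ici 1 ×ˢ Ici 1) := by
    rw [hμ, Measure.prod_smul_left, Measure.prod_smul_right, Measure.prod_restrict, smul_smul]
  have S2 : ∀ u : ℝ × ℝ → ℝ, (∀ y, u (0, y) = 0) → (∀ x, u (x, 0) = 0) →
      ∫ x, u x ∂((q : Measure ℝ).prod (q : Measure ℝ)) = M * (M * ∫ x, u x ∂(μ.prod μ)) := by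
    intro u hu0 hu0'
    rw [hμprod, integral_smul_measure, ENNReal.toReal_mul,
      ENNReal.toReal_ofReal (inv_nonneg.mpr hM.le), smul_eq_mul]
    have e : M * (M * (M⁻¹ * M⁻¹ * ∫ x in Ici 1 ×ˢ Ici 1, u x ∂((q : Measure ℝ).prod (q : Measure ℝ))))
        = ∫ x in Ici 1 ×ˢ Ici 1, u x ∂((q : Measure ℝ).prod (q : Measure ℝ)) := by
      field_simp
    rw [e, ← integral_indicator (measurableSet_Ici.prod measurableSet_Ici)]
    refine integral_congr_ae ?_
    have h1 : ∀ᵐ x ∂((q : Measure ℝ).prod (q : Measure ℝ)), x.1 = 0 ∨ 1 ≤ x.1 :=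
      Measure.quasiMeasurePreserving_fst.ae haeq
    have h2 : ∀ᵐ x ∂((q : Measure ℝ).prod (q : Measure ℝ)), x.2 = 0 ∨ 1 ≤ x.2 :=
      Measure.quasiMeasurePreserving_snd.ae haeq
    filter_upwards [h1, h2] with x hx hy
    rcases hx with hx | hx
    · have : u x = 0 := by
        have : x = (0, x.2) := by rw [← hx]
        rw [this]; exact hu0 _
      rw [this]
      symm
      exact indicator_apply_eq_zero.mpr fun _ => this
    · rcases hy with hy | hy
      · have : u x = 0 := by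
          have : x = (x.1, 0) := by rw [← hy]
          rw [this]; exact hu0' _
        rw [this]
        symm
        exact indicator_apply_eq_zero.mpr fun _ => this
      · rw [indicator_of_mem]
        exact ⟨hx, hy⟩
  refine ⟨μ, ?_, ?_, ?_⟩
  · rw [hμ, Measure.smul_apply, smul_eq_mul]
    exact ENNReal.mul_lt_top hMinv.lt_top (measure_lt_top _ _)
  · rw [hμ, Measure.smul_apply, Measure.restrict_apply measurableSet_Iio]
    have : Iio (1:ℝ) ∩ Ici 1 = ∅ := by
      ext x; simp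
    rw [this]; simp
  intro φ hφc hφs hφp
  obtain ⟨B, hB⟩ := hφc.bounded_above_of_compact_support hφs
  have hB' : ∀ x, |φ x| ≤ B := hB
  have hB0 : 0 ≤ B := le_trans (abs_nonneg _) (hB' 0)
  have hC0 : 0 ≤ C := (hk.nonneg (0, 0)).trans (hk.le _)
  -- support in an interval
  obtain ⟨a, b, ha, hab⟩ : ∃ a b : ℝ, 0 < a ∧ tsupport φ ⊆ Icc a b := by
    rcases (tsupport φ).eq_empty_or_nonempty with he | hne
    · exact ⟨1, 1, one_pos, by rw [he]; exact empty_subset _⟩
    · have hcmp : IsCompact (tsupport φ) := hφs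
      refine ⟨sInf (tsupport φ), sSup (tsupport φ), hφp (hcmp.sInf_mem hne), ?_⟩
      exact fun x hx => ⟨csInf_le hcmp.bddBelow hx, le_csSup hcmp.bddAbove hx⟩
  have hzero : ∀ x, x ∉ Icc a b → φ x = 0 := by
    intro x hx
    by_contra hne
    exact hx (hab (subset_tsupport _ hne))
  have hφ0 : φ 0 = 0 := hzero 0 (fun h => absurd h.1 (not_le.mpr ha))
  -- the three test functions
  have U1c : Continuous fun p : ℝ × ℝ => k p * φ (p.1 + p.2) :=
    hk.cont.mul (hφc.comp (continuous_fst.add continuous_snd))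
  have U2c : Continuous fun p : ℝ × ℝ => k p * φ p.1 := hk.cont.mul (hφc.comp continuous_fst)
  have U1b : ∀ p : ℝ × ℝ, |k p * φ (p.1 + p.2)| ≤ C * B := by
    intro p
    rw [abs_mul, abs_of_nonneg (hk.nonneg p)]
    exact mul_le_mul (hk.le p) (hB' _) (abs_nonneg _) hC0
  have U2b : ∀ p : ℝ × ℝ, |k p * φ p.1| ≤ C * B := by
    intro p
    rw [abs_mul, abs_of_nonneg (hk.nonneg p)]
    exact mul_le_mul (hk.le p) (hB' _) (abs_nonneg _) hC0
  have U1z : ∀ y, k (0, y) * φ ((0, y) : ℝ × ℝ).1 = 0 := fun y => by rw [hk.zero, zero_mul]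
  have u3eq : ∀ x, (M * x⁻¹) * φ x = M * (max x a)⁻¹ * φ x := by
    intro x
    by_cases hx : x ∈ Icc a b
    · rw [max_eq_left hx.1]
    · rw [hzero x hx, mul_zero, mul_zero]
  have U3c : Continuous fun x : ℝ => (M * x⁻¹) * φ x := by
    simp_rw [u3eq]
    have : Continuous fun x : ℝ => (max x a)⁻¹ := by
      refine Continuous.inv₀ (by fun_prop) fun x => ?_
      exact (lt_of_lt_of_le ha (le_max_right _ _)).ne'
    exact (continuous_const.mul this).mul hφc
  have U3b : ∀ x : ℝ, |(M * x⁻¹) * φ x| ≤ M * a⁻¹ * B := by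
    intro x
    rw [u3eq, abs_mul]
    have h1 : 0 < max x a := lt_of_lt_of_le ha (le_max_right _ _)
    rw [abs_of_nonneg (by positivity)]
    refine mul_le_mul ?_ (hB' _) (abs_nonneg _) (by positivity)
    exact mul_le_mul_of_nonneg_left (inv_anti₀ ha (le_max_right _ _)) hM.le
  have T1 := L2 (fun p => k p * φ (p.1 + p.2)) U1c ⟨_, U1b⟩
  have T2 := L2 (fun p => k p * φ p.1) U2c ⟨_, U2b⟩
  have T3 := L1 (fun x => (M * x⁻¹) * φ x) U3c ⟨_, U3b⟩
  -- the source term
  have T4 : Tendsto (fun n : ℕ => ∫ x, x / ((⌈((n+1:ℕ):ℝ) * x⌉₊ : ℝ)/((n+1:ℕ):ℝ)) *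
      φ ((⌈((n+1:ℕ):ℝ) * x⌉₊ : ℝ)/((n+1:ℕ):ℝ)) ∂η) U (𝓝 (∫ x, φ x ∂η)) := by
    refine Tendsto.mono_left ?_ hU
    refine tendsto_integral_of_dominated_convergence (fun _ => B) ?_ (integrable_const _) ?_ ?_
    · intro n
      have m1 : Measurable fun x : ℝ => (⌈((n+1:ℕ):ℝ) * x⌉₊ : ℝ)/((n+1:ℕ):ℝ) :=
        (measurable_from_nat.comp (Nat.measurable_ceil.comp (measurable_const.mul measurable_id))).div_const _
      exact ((measurable_id.div m1).mul (hφc.measurable.comp m1)).aestronglyMeasurable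
    · intro n
      filter_upwards [hη.ae_mem] with x hx
      have hx0 : 0 < x := lt_of_lt_of_le one_pos hx.1
      have hn0 : (0:ℝ) < ((n+1:ℕ):ℝ) := by positivity
      have h1 : x ≤ (⌈((n+1:ℕ):ℝ) * x⌉₊ : ℝ)/((n+1:ℕ):ℝ) := by
        rw [le_div_iff₀ hn0, mul_comm]
        exact Nat.le_ceil _
      have h2 : 0 < (⌈((n+1:ℕ):ℝ) * x⌉₊ : ℝ)/((n+1:ℕ):ℝ) := lt_of_lt_of_le hx0 h1
      rw [norm_mul, Real.norm_eq_abs, abs_of_nonneg (by positivity)]
      calc _ ≤ 1 * B := mul_le_mul ((div_le_one h2).mpr h1) (hB _) (norm_nonneg _) zero_le_one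
        _ = B := one_mul B
    · filter_upwards [hη.ae_mem] with x hx
      have hx0 : 0 < x := lt_of_lt_of_le one_pos hx.1
      have h1 : Tendsto (fun n : ℕ => (⌈((n+1:ℕ):ℝ) * x⌉₊ : ℝ)/((n+1:ℕ):ℝ)) atTop (𝓝 x) := by
        have h2 := tendsto_nat_ceil_mul_div_atTop (R := ℝ) hx0.le
        have h3 : Tendsto (fun n : ℕ => ((n+1:ℕ):ℝ)) atTop atTop :=
          tendsto_natCast_atTop_atTop.comp (tendsto_add_atTop_nat 1)
        have h4 := h2.comp h3
        refine h4.congr fun n => ?_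
        simp only [Function.comp]
        rw [mul_comm]
      have h5 : Tendsto (fun n : ℕ => x / ((⌈((n+1:ℕ):ℝ) * x⌉₊ : ℝ)/((n+1:ℕ):ℝ))) atTop (𝓝 (x/x)) :=
        tendsto_const_nhds.div h1 hx0.ne'
      rw [div_self hx0.ne'] at h5
      have h6 := h5.mul ((hφc.tendsto x).comp h1)
      rw [one_mul] at h6
      exact h6
  -- the identity at level n
  have hid : ∀ᶠ n in (U : Filter ℕ),
      (1/2) * ((M⁻¹ * M⁻¹) * ∫ x, k x * φ (x.1 + x.2) ∂((p n : Measure ℝ).prod (p n : Measure ℝ)))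
      + ∫ x, x / ((⌈((n+1:ℕ):ℝ) * x⌉₊ : ℝ)/((n+1:ℕ):ℝ)) *
        φ ((⌈((n+1:ℕ):ℝ) * x⌉₊ : ℝ)/((n+1:ℕ):ℝ)) ∂η
      = (M⁻¹ * M⁻¹) * ∫ x, k x * φ x.1 ∂((p n : Measure ℝ).prod (p n : Measure ℝ))
      + M⁻¹ * ∫ x, (M * x⁻¹) * φ x ∂(p n : Measure ℝ) := by
    have hev : ∀ᶠ n : ℕ in atTop, b ≤ (n:ℝ) := by
      obtain ⟨N, hN⟩ := exists_nat_ge b
      filter_upwards [eventually_ge_atTop N] with n hn
      have : (N:ℝ) ≤ n := by exact_mod_cast hn
      linarith
    filter_upwards [hU hev] with n hn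
    have hw := (hc n).weakR hk hη hM (hn1 n) φ (by
      intro x hx
      refine hzero x fun h => ?_
      have := h.2
      push_cast at hx
      linarith)
    rw [hp n, int_pm2 hM.le (hc n).nonneg (hmass n) _ U1c _ U1b (fun y => by rw [hk.zero, zero_mul])
      (fun x => by rw [hk.zero', zero_mul]),
      int_pm2 hM.le (hc n).nonneg (hmass n) _ U2c _ U2b (fun y => by rw [hk.zero, zero_mul])
      (fun x => by rw [hk.zero', zero_mul]),
      int_pm hM.le (hc n).nonneg _ (by rw [hφ0, mul_zero])]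
    have e1 : ∀ W : ℕ → ℕ → ℝ, (M⁻¹ * M⁻¹) * ∑ a ∈ Finset.range (top L (n+1) + 1),
        ∑ b ∈ Finset.range (top L (n+1) + 1), (M * c n a) * ((M * c n b) * W a b)
        = ∑ a ∈ Finset.range (top L (n+1) + 1),
        ∑ b ∈ Finset.range (top L (n+1) + 1), c n a * c n b * W a b := by
      intro W
      rw [Finset.mul_sum]
      refine Finset.sum_congr rfl fun a _ => ?_
      rw [Finset.mul_sum]
      refine Finset.sum_congr rfl fun b _ => ?_
      field_simp
    have e2 : ∀ W : ℕ → ℝ, M⁻¹ * ∑ a ∈ Finset.range (top L (n+1) + 1), (M * c n a) * W a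
        = ∑ a ∈ Finset.range (top L (n+1) + 1), c n a * W a := by
      intro W
      rw [Finset.mul_sum]
      refine Finset.sum_congr rfl fun a _ => ?_
      field_simp
    rw [e1, e1, e2]
    exact hw
  have lhs := ((T1.const_mul (M⁻¹ * M⁻¹)).const_mul (1/2)).add T4
  have rhs := (T2.const_mul (M⁻¹ * M⁻¹)).add (T3.const_mul M⁻¹)
  have hfinal := tendsto_nhds_unique_of_eventuallyEq lhs rhs hid
  rw [S2 _ (fun y => by rw [hk.zero, zero_mul]) (fun x => by rw [hk.zero', zero_mul]),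
    S2 _ (fun y => by rw [hk.zero, zero_mul]) (fun x => by rw [hk.zero', zero_mul]),
    S1 _ (by rw [hφ0, mul_zero])] at hfinal
  have f1 : ∀ t : ℝ, M⁻¹ * M⁻¹ * (M * (M * t)) = t := fun t => by field_simp
  have f2 : ∀ t : ℝ, M⁻¹ * (M * t) = t := fun t => by field_simp
  rw [f1, f1, f2] at hfinal
  linarith

end Pool.Agent.Helper728.Coag
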