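import Mathlib
import Pool.Agent.Helper728.Coag.Limit

open MeasureTheory Filter Topology Set
open scoped ContDiff ENNReal

namespace Pool.Agent.Helper728.Coag

/-- The equation with a bounded kernel, for a finite measure carried by `[1,∞)`. -/
structure KSol (k : ℝ × ℝ → ℝ) (η : Measure ℝ) (M : ℝ) (μ : Measure ℝ) : Prop where
  fin : μ univ < ⊤
  one : μ (Iio 1) = 0
  eq : ∀ φ : ℝ → ℝ, Continuous φ → HasCompactSupport φ → tsupport φ ⊆ Ioi 0 →
      (1/2) * ∫ p, k p * φ (p.1 + p.2) ∂(μ.prod μ) - ∫ p, k p * φ p.1 ∂(μ.prod μ)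
        - ∫ x, (M * x⁻¹) * φ x ∂μ + ∫ x, φ x ∂η = 0

section

variable {k : ℝ × ℝ → ℝ} {C : ℝ} {η μ : Measure ℝ} {M L : ℝ}

lemma KSol.ae_one (hs : KSol k η M μ) : ∀ᵐ x ∂μ, 1 ≤ x := by
  rw [ae_iff]
  convert hs.one using 2
  ext x; simp

lemma KSol.ae_one_prod (hs : KSol k η M μ) : ∀ᵐ p ∂(μ.prod μ), 1 ≤ p.1 ∧ 1 ≤ p.2 := by
  have : IsFiniteMeasure μ := ⟨hs.fin⟩
  have h1 : ∀ᵐ p ∂(μ.prod μ), 1 ≤ p.1 := Measure.quasiMeasurePreserving_fst.ae hs.ae_one
  have h2 : ∀ᵐ p ∂(μ.prod μ), 1 ≤ p.2 := Measure.quasiMeasurePreserving_snd.ae hs.ae_one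
  filter_upwards [h1, h2] with p hp1 hp2 using ⟨hp1, hp2⟩

lemma KSol.Iic_zero (hs : KSol k η M μ) : μ (Iic 0) = 0 :=
  measure_mono_null (Iic_subset_Iio.mpr one_pos) hs.one

lemma lint_lt_top (hs : KSol k η M μ) (hk : Ker k C) (s : Set (ℝ × ℝ)) :
    ∫⁻ p in s, ENNReal.ofReal (k p) ∂(μ.prod μ) < ⊤ := by
  have : IsFiniteMeasure μ := ⟨hs.fin⟩
  calc ∫⁻ p in s, ENNReal.ofReal (k p) ∂(μ.prod μ) ≤ ∫⁻ p in s, ENNReal.ofReal C ∂(μ.prod μ) :=
        lintegral_mono fun p => ENNReal.ofReal_le_ofReal (hk.le p)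
    _ = ENNReal.ofReal C * (μ.prod μ) s := by rw [setLIntegral_const]
    _ < ⊤ := ENNReal.mul_lt_top ENNReal.ofReal_lt_top (measure_lt_top _ _)

lemma KSol.meas_id (hs : KSol k η M μ) (hk : Ker k C) (hη : IsSource η L) (hM : 0 ≤ M)
    (ψ : ℝ → ℝ≥0∞) (hψ : Measurable ψ) :
    ∫⁻ p, ψ (p.1 + p.2) * ENNReal.ofReal (k p) ∂(μ.prod μ) + 2 * ∫⁻ x, ψ x ∂η
      = 2 * ∫⁻ p, ψ p.1 * ENNReal.ofReal (k p) ∂(μ.prod μ)
        + 2 * ∫⁻ x, ψ x * ENNReal.ofReal (M * x⁻¹) ∂μ := by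
  have : IsFiniteMeasure μ := ⟨hs.fin⟩
  refine measure_identity μ η k hk.cont.measurable (Eventually.of_forall hk.nonneg)
    (fun x => M * x⁻¹) (measurable_const.mul measurable_inv) ?_ hs.Iic_zero hη.Iic_zero
    (fun a b _ => lint_lt_top hs hk _) (fun a b _ => lint_lt_top hs hk _) ?_ ?_
    (fun φ h1 h2 h3 => hs.eq φ h1.continuous h2 h3) ψ hψ
  · filter_upwards [hs.ae_one] with x hx
    have : 0 < x := lt_of_lt_of_le one_pos hx
    positivity
  · intro a b ha
    calc ∫⁻ x in Icc a b, ENNReal.ofReal (M * x⁻¹) ∂μ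
        ≤ ∫⁻ x in Icc a b, ENNReal.ofReal (M * a⁻¹) ∂μ := by
          refine setLIntegral_mono measurable_const fun x hx => ?_
          refine ENNReal.ofReal_le_ofReal (mul_le_mul_of_nonneg_left ?_ hM)
          exact inv_anti₀ ha hx.1
      _ = ENNReal.ofReal (M * a⁻¹) * μ (Icc a b) := by rw [setLIntegral_const]
      _ < ⊤ := ENNReal.mul_lt_top ENNReal.ofReal_lt_top (measure_lt_top _ _)
  · intro a b _
    exact lt_of_le_of_lt ((measure_mono (subset_univ _)).trans hη.univ_le) ENNReal.one_lt_top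

/-- reduced solutions from solutions with a bounded kernel -/
lemma KSol.sol {h : ℝ → ℝ} (hs : KSol k η M μ) (hk : Ker k C)
    (hae : ∀ᵐ p ∂(μ.prod μ), k p = kk h p) : Sol h η M μ := by
  have : IsFiniteMeasure μ := ⟨hs.fin⟩
  have hset : ∀ s : Set (ℝ × ℝ), ∫⁻ p in s, ENNReal.ofReal (kk h p) ∂(μ.prod μ) < ⊤ := by
    intro s
    refine lt_of_le_of_lt (le_of_eq ?_) (lint_lt_top hs hk s)
    refine lintegral_congr_ae ?_
    filter_upwards [ae_restrict_of_ae hae] with p hp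
    rw [hp]
  refine ⟨hs.Iic_zero, fun a b _ => measure_lt_top _ _, fun a b _ => hset _, fun a b _ => hset _, ?_⟩
  intro φ h1 h2 h3
  have e1 : ∫ p, kk h p * φ (p.1 + p.2) ∂(μ.prod μ) = ∫ p, k p * φ (p.1 + p.2) ∂(μ.prod μ) := by
    refine integral_congr_ae ?_
    filter_upwards [hae] with p hp
    rw [hp]
  have e2 : ∫ p, kk h p * φ p.1 ∂(μ.prod μ) = ∫ p, k p * φ p.1 ∂(μ.prod μ) := by
    refine integral_congr_ae ?_
    filter_upwards [hae] with p hp
    rw [hp]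
  rw [e1, e2]
  exact hs.eq φ h1.continuous h2 h3

/-- Induction over the sizes: null sets. -/
lemma KSol.null_induct (hs : KSol k η M μ) (hk : Ker k C) (hη : IsSource η L) (hM : 0 < M)
    (𝒩 : Set (Set ℝ)) (hmeas : ∀ N ∈ 𝒩, MeasurableSet N) (hnull : ∀ N ∈ 𝒩, η N = 0)
    (hstep : ∀ j : ℕ, (∀ N ∈ 𝒩, μ (N ∩ Iio ((j:ℝ)+1)) = 0) → ∀ N ∈ 𝒩,
      ∀ᵐ p ∂(μ.prod μ), p.1 + p.2 ∈ N ∩ Iio ((j:ℝ)+2) → k p ≤ 0) :
    ∀ N ∈ 𝒩, μ N = 0 := by
  have hfin : IsFiniteMeasure μ := ⟨hs.fin⟩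
  have key : ∀ j : ℕ, ∀ N ∈ 𝒩, μ (N ∩ Iio ((j:ℝ)+1)) = 0 := by
    intro j
    induction j with
    | zero =>
      intro N _
      refine measure_mono_null ?_ hs.one
      intro x hx
      have := hx.2
      simp only [Nat.cast_zero, zero_add] at this
      exact this
    | succ j ih =>
      intro N hN
      have hNm : MeasurableSet (N ∩ Iio ((j:ℝ)+2)) := (hmeas N hN).inter measurableSet_Iio
      have hid := hs.meas_id hk hη hM.le ((N ∩ Iio ((j:ℝ)+2)).indicator 1)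
        (measurable_one.indicator hNm)
      have z1 : ∫⁻ p, (N ∩ Iio ((j:ℝ)+2)).indicator (1 : ℝ → ℝ≥0∞) (p.1 + p.2) *
          ENNReal.ofReal (k p) ∂(μ.prod μ) = 0 := by
        refine lintegral_eq_zero_of_ae_eq_zero ?_
        filter_upwards [hstep j ih N hN] with p hp
        by_cases h1 : p.1 + p.2 ∈ N ∩ Iio ((j:ℝ)+2)
        · rw [ENNReal.ofReal_of_nonpos (hp h1), mul_zero]; rfl
        · rw [indicator_of_notMem h1, zero_mul]; rfl
      have z2 : ∫⁻ x, (N ∩ Iio ((j:ℝ)+2)).indicator (1 : ℝ → ℝ≥0∞) x ∂η = 0 := by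
        rw [lintegral_indicator_one hNm]
        exact measure_mono_null inter_subset_left (hnull N hN)
      rw [z1, z2, mul_zero, add_zero] at hid
      have z3 : 2 * ∫⁻ x, (N ∩ Iio ((j:ℝ)+2)).indicator (1 : ℝ → ℝ≥0∞) x *
          ENNReal.ofReal (M * x⁻¹) ∂μ = 0 := (add_eq_zero.mp hid.symm).2
      have z4 : ∫⁻ x, (N ∩ Iio ((j:ℝ)+2)).indicator (1 : ℝ → ℝ≥0∞) x *
          ENNReal.ofReal (M * x⁻¹) ∂μ = 0 := by
        rcases mul_eq_zero.mp z3 with h | h
        · exact absurd h (by simp)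
        · exact h
      have hmz : Measurable fun x : ℝ => (N ∩ Iio ((j:ℝ)+2)).indicator (1 : ℝ → ℝ≥0∞) x *
          ENNReal.ofReal (M * x⁻¹) :=
        (measurable_one.indicator hNm).mul (measurable_const.mul measurable_inv).ennreal_ofReal
      rw [lintegral_eq_zero_iff hmz] at z4
      have hc : (((j + 1 : ℕ) : ℝ) + 1) = (j:ℝ) + 2 := by push_cast; ring
      rw [hc]
      rw [← compl_compl (N ∩ Iio ((j:ℝ)+2)), ← mem_ae_iff]
      filter_upwards [z4, hs.ae_one] with x hx hx1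
      intro hmem
      simp only [Pi.zero_apply] at hx
      rw [indicator_of_mem hmem, Pi.one_apply, one_mul, ENNReal.ofReal_eq_zero] at hx
      have hx0 : 0 < x := lt_of_lt_of_le one_pos hx1
      exact absurd hx (not_le.mpr (by positivity))
  intro N hN
  have hU : N = ⋃ j : ℕ, N ∩ Iio ((j:ℝ)+1) := by
    ext x
    simp only [mem_iUnion, mem_inter_iff, mem_Iio]
    constructor
    · intro hx
      obtain ⟨n, hn⟩ := exists_nat_gt x
      exact ⟨n, hx, by linarith⟩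
    · rintro ⟨n, hn, _⟩; exact hn
  rw [hU]
  exact measure_iUnion_null fun j => key j N hN

/-- Absolute continuity is inherited from the source. -/
lemma KSol.ac (hs : KSol k η M μ) (hk : Ker k C) (hη : IsSource η L) (hM : 0 < M)
    (hac : η ≪ volume) : μ ≪ volume := by
  have hfin : IsFiniteMeasure μ := ⟨hs.fin⟩
  have main := hs.null_induct hk hη hM {N | MeasurableSet N ∧ volume N = 0} (fun N hN => hN.1)
    (fun N hN => hac hN.2) (by
      intro j ih N hN
      have hNm : MeasurableSet (N ∩ Iio ((j:ℝ)+2)) := hN.1.inter measurableSet_Iio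
      have hadd : Measurable fun p : ℝ × ℝ => p.1 + p.2 := measurable_fst.add measurable_snd
      have hS : MeasurableSet {p : ℝ × ℝ | p.1 + p.2 ∈ N ∩ Iio ((j:ℝ)+2)} := hNm.preimage hadd
      have hzero : (μ.prod μ) {p : ℝ × ℝ | p.1 + p.2 ∈ N ∩ Iio ((j:ℝ)+2)} = 0 := by
        rw [Measure.measure_prod_null hS]
        filter_upwards [hs.ae_one] with x hx
        have hpre : MeasurableSet ((fun y : ℝ => x + y) ⁻¹' N) :=
          hN.1.preimage (measurable_const.add measurable_id)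
        have hv : volume ((fun y : ℝ => x + y) ⁻¹' N) = 0 := by
          rw [measure_preimage_add]; exact hN.2
        have h0 := ih _ ⟨hpre, hv⟩
        refine measure_mono_null ?_ h0
        intro y hy
        have h1 : x + y ∈ N ∩ Iio ((j:ℝ)+2) := hy
        refine ⟨h1.1, ?_⟩
        have h2 : x + y < (j:ℝ) + 2 := h1.2
        change y < (j:ℝ) + 1
        linarith
      have : ∀ᵐ p ∂(μ.prod μ), p ∉ {p : ℝ × ℝ | p.1 + p.2 ∈ N ∩ Iio ((j:ℝ)+2)} :=
        measure_eq_zero_iff_ae_notMem.mp hzero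
      filter_upwards [this] with p hp hmem
      exact absurd hmem hp)
  intro s hs0
  obtain ⟨t, hst, htm, ht0⟩ := exists_measurable_superset_of_null hs0
  exact measure_mono_null hst (main t ⟨htm, ht0⟩)

end

/-- existence with the standard kernel for `M ≥ 1` -/
lemma exists_ksol {h : ℝ → ℝ} {H : ℝ} (hh : Nice h H) {η : Measure ℝ} {L M : ℝ}
    (hη : IsSource η L) (hM : 1 ≤ M) : ∃ μ, KSol (kbar h) η M μ := by
  obtain ⟨μ, h1, h2, h3⟩ := exists_limit (ker_kbar hh) hη (lt_of_lt_of_le one_pos hM)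
    (fun τ hτ => tail_uniform hh hη hM hτ)
  exact ⟨μ, h1, h2, h3⟩

lemma kbar_ae {k : ℝ × ℝ → ℝ} {h : ℝ → ℝ} {η μ : Measure ℝ} {M : ℝ} (hs : KSol k η M μ) :
    ∀ᵐ p ∂(μ.prod μ), kbar h p = kk h p := by
  filter_upwards [hs.ae_one_prod] with p hp using kbar_eq hp.1 hp.2

/-! ### the case of a bounded set of reachable sizes -/

/-- kernel switched off beyond total size `R + 1` -/
noncomputable def kcut (h : ℝ → ℝ) (R : ℝ) (p : ℝ × ℝ) : ℝ :=
  kbar h p * max 0 (min 1 (R + 1 - (p.1 + p.2)))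

section cut

variable {h : ℝ → ℝ} {H : ℝ} {η : Measure ℝ} {L M R : ℝ}

lemma ker_kcut (hh : Nice h H) (R : ℝ) : Ker (kcut h R) (2 * H) := by
  have hk := ker_kbar hh
  have hcut0 : ∀ t : ℝ, 0 ≤ max 0 (min 1 t) := fun t => le_max_left _ _
  have hcut1 : ∀ t : ℝ, max 0 (min 1 t) ≤ 1 := fun t => max_le zero_le_one (min_le_left _ _)
  refine ⟨?_, ?_, ?_, ?_, ?_⟩
  · unfold kcut
    exact hk.cont.mul (by fun_prop)
  · intro p; exact mul_nonneg (hk.nonneg p) (hcut0 _)
  · intro p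
    have h2 : 0 ≤ 2 * H := (hk.nonneg p).trans (hk.le p)
    calc kcut h R p ≤ (2 * H) * 1 := mul_le_mul (hk.le p) (hcut1 _) (hcut0 _) h2
      _ = 2 * H := mul_one _
  · intro x y
    unfold kcut
    rw [hk.symm x y]
    simp only
    rw [add_comm x y]
  · intro y
    unfold kcut
    rw [hk.zero, zero_mul]

lemma kcut_large (h : ℝ → ℝ) {p : ℝ × ℝ} (hp : R + 1 ≤ p.1 + p.2) : kcut h R p = 0 := by
  unfold kcut
  have : max 0 (min 1 (R + 1 - (p.1 + p.2))) = 0 := by
    apply max_eq_left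
    exact (min_le_right _ _).trans (by linarith)
  rw [this, mul_zero]

lemma kcut_small (h : ℝ → ℝ) {p : ℝ × ℝ} (hp : p.1 + p.2 ≤ R) : kcut h R p = kbar h p := by
  unfold kcut
  have : max 0 (min 1 (R + 1 - (p.1 + p.2))) = 1 := by
    rw [min_eq_left (by linarith)]
    exact max_eq_right zero_le_one
  rw [this, mul_one]

lemma exists_ksol_cut (hh : Nice h H) (hη : IsSource η L) (hM : 0 < M) (R : ℝ) :
    ∃ μ, KSol (kcut h R) η M μ := by
  have hk := ker_kcut hh R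
  obtain ⟨μ, h1, h2, h3⟩ := exists_limit hk hη hM (by
    intro τ hτ
    refine ⟨max (R + 1) (L + 1), ?_⟩
    intro n hn c hc
    refine le_trans (le_of_eq (Finset.sum_eq_zero ?_)) hτ.le
    intro i hi
    split_ifs with hlarge
    · have hn0 : (0:ℝ) < n := by exact_mod_cast hn
      have hn1 : (1:ℝ) ≤ n := by exact_mod_cast hn
      have hi' : i ≤ top L n := by
        rw [Finset.mem_range] at hi; omega
      have hR : R + 1 ≤ (i:ℝ)/n := (le_max_left _ _).trans hlarge.le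
      have hLi : L + 1 < (i:ℝ)/n := lt_of_le_of_lt (le_max_right _ _) hlarge
      have he : esrc η n i = 0 := by
        refine esrc_zero' hη hn ?_
        rw [lt_div_iff₀ hn0] at hLi
        nlinarith
      have hg : ∑ p ∈ Finset.HasAntidiagonal.antidiagonal i,
          kap (kcut h R) n p.1 p.2 * c p.1 * c p.2 = 0 := by
        refine Finset.sum_eq_zero fun p hp => ?_
        rw [Finset.HasAntidiagonal.mem_antidiagonal] at hp
        have : kap (kcut h R) n p.1 p.2 = 0 := by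
          unfold kap
          refine kcut_large h ?_
          simp only
          rw [← add_div]
          have e : (p.1:ℝ) + p.2 = i := by exact_mod_cast hp
          rw [e]; exact hR
        rw [this]; ring
      have h1 := hc.eq i hi'
      rw [he, hg, mul_zero, add_zero] at h1
      have h2 : 0 < rho M n i + ∑ j ∈ Finset.range (top L n + 1), kap (kcut h R) n i j * c j :=
        add_pos_of_pos_of_nonneg (rho_pos hM hn i)
          (Finset.sum_nonneg fun j _ => mul_nonneg (hk.nonneg _) (hc.nonneg j))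
      exact (mul_eq_zero.mp h1).resolve_right h2.ne'
    · rfl)
  exact ⟨μ, h1, h2, h3⟩

end cut

end Pool.Agent.Helper728.Coag
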