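import Mathlib
import Pool.Agent.Helper728.Coag.Exist

open MeasureTheory Filter Topology Set
open scoped ContDiff ENNReal

namespace Pool.Agent.Helper728.Coag

section reach

variable {γ : ℝ} {F : ℝ → ℝ} {η : Measure ℝ} {L : ℝ}

lemma reach_closed : IsClosed (reach γ F η) := isClosed_sInter fun _ hC => hC.1

lemma support_sub_reach : η.support ⊆ reach γ F η := by
  refine subset_sInter fun C hC => ?_
  exact Measure.support_subset_of_isClosed hC.1 (mem_ae_iff.mpr hC.2.1)

lemma reach_null : η (reach γ F η)ᶜ = 0 := by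
  refine measure_mono_null (compl_subset_compl.mpr support_sub_reach) ?_
  exact Measure.measure_compl_support

lemma reach_coag {x y : ℝ} (hx : x ∈ reach γ F η) (hy : y ∈ reach γ F η) (hx0 : 0 < x)
    (hy0 : 0 < y) (hK : 0 < kern γ F x y) : x + y ∈ reach γ F η := by
  rw [reach, mem_sInter] at *
  intro C hC
  exact hC.2.2 x (hx C hC) y (hy C hC) hx0 hy0 hK

lemma reach_min {C : Set ℝ} (h1 : IsClosed C) (h2 : η Cᶜ = 0)
    (h3 : ∀ x ∈ C, ∀ y ∈ C, 0 < x → 0 < y → 0 < kern γ F x y → x + y ∈ C) :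
    reach γ F η ⊆ C := sInter_subset_of_mem ⟨h1, h2, h3⟩

lemma reach_sub (hη : IsSource η L) : reach γ F η ⊆ Ici 1 := by
  refine reach_min isClosed_Ici ?_ ?_
  · refine measure_mono_null ?_ hη.supp
    intro x hx hx'
    exact hx hx'.1
  · intro x hx y _ _ hy0 _
    have : (1:ℝ) ≤ x := hx
    change (1:ℝ) ≤ x + y
    linarith

lemma source_ne_zero (hη : IsSource η L) : η ≠ 0 := by
  intro h
  have := hη.mass
  rw [h] at this
  simp at this

lemma reach_nonempty (hη : IsSource η L) : (reach γ F η).Nonempty :=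
  (Measure.nonempty_support (source_ne_zero hη)).mono support_sub_reach

lemma kern_pos_iff {x y : ℝ} (hx : 0 < x) (hy : 0 < y) :
    0 < kern γ F x y ↔ 0 < kk (hh γ F) (x, y) := by
  rw [kern_eq hx hy]
  have : 0 < x ^ (1 - lam γ) * y ^ (1 - lam γ) :=
    mul_pos (Real.rpow_pos_of_pos hx _) (Real.rpow_pos_of_pos hy _)
  exact mul_pos_iff_of_pos_right this

/-- For a positive profile the reachable set is unbounded. -/
lemma reach_unbounded (hη : IsSource η L) (hpos : ∀ s ∈ Ioo (0:ℝ) 1, 0 < F s) :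
    ¬ Bornology.IsBounded (reach γ F η) := by
  intro hb
  have hne := reach_nonempty (γ := γ) (F := F) hη
  have hbdd : BddAbove (reach γ F η) := hb.bddAbove
  have hmem : sSup (reach γ F η) ∈ reach γ F η := reach_closed.csSup_mem hne hbdd
  have h1 : 1 ≤ sSup (reach γ F η) := reach_sub hη hmem
  have h0 : 0 < sSup (reach γ F η) := by linarith
  have hK : 0 < kern γ F (sSup (reach γ F η)) (sSup (reach γ F η)) := by
    unfold kern
    refine mul_pos (Real.rpow_pos_of_pos (by linarith) _) (hpos _ ?_)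
    constructor
    · positivity
    · rw [div_lt_one (by linarith)]; linarith
  have h2 := reach_coag hmem hmem h0 h0 hK
  have h3 := le_csSup hbdd h2
  linarith

end reach

section supp

variable {h : ℝ → ℝ} {H : ℝ} {η μ : Measure ℝ} {M L : ℝ}

lemma kk_contAt (hh : Nice h H) {x y : ℝ} (hx : 0 < x) (hy : 0 < y) :
    ContinuousAt (kk h) (x, y) := by
  unfold kk
  have h1 : ContinuousAt (fun p : ℝ × ℝ => p.1⁻¹) (x, y) :=
    continuousAt_fst.inv₀ hx.ne'
  have h2 : ContinuousAt (fun p : ℝ × ℝ => p.2⁻¹) (x, y) :=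
    continuousAt_snd.inv₀ hy.ne'
  have h3 : ContinuousAt (fun p : ℝ × ℝ => p.1 / (p.1 + p.2)) (x, y) :=
    continuousAt_fst.div (continuousAt_fst.add continuousAt_snd) (add_pos hx hy).ne'
  exact (h1.add h2).mul (ContinuousAt.comp (f := fun p : ℝ × ℝ => p.1 / (p.1 + p.2))
    hh.cont.continuousAt h3)

/-- the support of a solution carries the source and is closed under coagulation -/
lemma Sol.support_family (hs : Sol h η M μ) (hh : Nice h H) (hη : IsSource η L) (hM : 0 ≤ M) :
    η (μ.support)ᶜ = 0 ∧ ∀ x ∈ μ.support, ∀ y ∈ μ.support, 0 < x → 0 < y → 0 < kk h (x, y) →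
      x + y ∈ μ.support := by
  have hσ := sigmaFinite_of_radon hs.pos hs.radon
  set V := (μ.support)ᶜ with hV
  have hVo : IsOpen V := Measure.isOpen_compl_support
  have hVm : MeasurableSet V := hVo.measurableSet
  have hV0 : μ V = 0 := Measure.measure_compl_support
  have hid := hs.meas_id hh hη hM (V.indicator 1) (measurable_one.indicator hVm)
  have hVae : ∀ᵐ x ∂μ, x ∉ V := measure_eq_zero_iff_ae_notMem.mp hV0
  have z1 : ∫⁻ p, V.indicator (1 : ℝ → ℝ≥0∞) p.1 * ENNReal.ofReal (kk h p) ∂(μ.prod μ) = 0 := by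
    refine lintegral_eq_zero_of_ae_eq_zero ?_
    have : ∀ᵐ p ∂(μ.prod μ), p.1 ∉ V := Measure.quasiMeasurePreserving_fst.ae hVae
    filter_upwards [this] with p hp
    rw [indicator_of_notMem hp, zero_mul]; rfl
  have z2 : ∫⁻ x, V.indicator (1 : ℝ → ℝ≥0∞) x * ENNReal.ofReal (M * x⁻¹) ∂μ = 0 := by
    refine lintegral_eq_zero_of_ae_eq_zero ?_
    filter_upwards [hVae] with x hx
    rw [indicator_of_notMem hx, zero_mul]; rfl
  rw [z1, z2, mul_zero, add_zero] at hid
  obtain ⟨g1, g2⟩ := add_eq_zero.mp hid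
  refine ⟨?_, ?_⟩
  · rw [lintegral_indicator_one hVm] at g2
    rcases mul_eq_zero.mp g2 with h | h
    · exact absurd h (by simp)
    · exact h
  · intro x hx y hy hx0 hy0 hk
    by_contra hcon
    have hxyV : x + y ∈ V := hcon
    have hmeas : Measurable fun p : ℝ × ℝ =>
        V.indicator (1 : ℝ → ℝ≥0∞) (p.1 + p.2) * ENNReal.ofReal (kk h p) :=
      ((measurable_one.indicator hVm).comp (measurable_fst.add measurable_snd)).mul
        (kk_meas hh.cont).ennreal_ofReal
    rw [lintegral_eq_zero_iff hmeas] at g1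
    have hn1 : ∀ᶠ p in 𝓝 (x, y), p.1 + p.2 ∈ V :=
      (continuous_fst.add continuous_snd).continuousAt.eventually (hVo.mem_nhds hxyV)
    have hn2 : ∀ᶠ p in 𝓝 (x, y), 0 < kk h p := (kk_contAt hh hx0 hy0).eventually (lt_mem_nhds hk)
    have hn3 := hn1.and hn2
    rw [nhds_prod_eq, eventually_prod_iff] at hn3
    obtain ⟨pa, hpa, pb, hpb, hab⟩ := hn3
    have ma : 0 < μ {x | pa x} := (Measure.mem_support_iff_forall x).mp hx _ hpa
    have mb : 0 < μ {x | pb x} := (Measure.mem_support_iff_forall y).mp hy _ hpb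
    have hprod : (μ.prod μ) ({x | pa x} ×ˢ {x | pb x}) = 0 := by
      refine measure_mono_null ?_ (ae_iff.mp g1)
      intro p hp
      obtain ⟨q1, q2⟩ := hab hp.1 hp.2
      change ¬ (V.indicator (1 : ℝ → ℝ≥0∞) (p.1 + p.2) * ENNReal.ofReal (kk h p) = 0)
      have q1' : p.1 + p.2 ∈ V := q1
      have q2' : 0 < kk h p := q2
      rw [indicator_of_mem q1', Pi.one_apply, one_mul, ENNReal.ofReal_eq_zero, not_le]
      exact q2'
    rw [Measure.prod_prod] at hprod
    rcases mul_eq_zero.mp hprod with h' | h'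
    · exact ma.ne' h'
    · exact mb.ne' h'

end supp

section main

variable {γ : ℝ} {F : ℝ → ℝ} {η : Measure ℝ} {L M : ℝ}

/-- Necessity of `M ≥ 1` when the reachable set is unbounded. -/
lemma one_le_of_unbounded (hF : IsProfile γ F) (hη : IsSource η L) (hM : 0 ≤ M)
    (hunb : ¬ Bornology.IsBounded (reach γ F η)) {f : Measure ℝ} (hf : IsSolution γ F η M f) :
    1 ≤ M := by
  obtain ⟨H, hh⟩ := nice_hh hF
  have hs := sol_of_isSolution hF hf
  set μ := f.withDensity (wt (1 - lam γ)) with hμ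
  refine hs.one_le hh hη hM ?_
  intro z hz
  apply hunb
  obtain ⟨h1, h2⟩ := hs.support_family hh hη hM
  have hsub : reach γ F η ⊆ Ici 1 ∩ μ.support := by
    refine reach_min (isClosed_Ici.inter Measure.isClosed_support) ?_ ?_
    · rw [compl_inter]
      refine measure_union_null ?_ h1
      refine measure_mono_null ?_ hη.supp
      intro x hx hx'
      exact hx hx'.1
    · intro x hx y hy hx0 hy0 hk
      refine ⟨?_, h2 x hx.2 y hy.2 hx0 hy0 ((kern_pos_iff hx0 hy0).mp hk)⟩
      have : (1:ℝ) ≤ x := hx.1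
      change (1:ℝ) ≤ x + y
      linarith
  have hsup : μ.support ⊆ Iic z := by
    have h3 : Ioi z ⊆ (μ.support)ᶜ :=
      Measure.subset_compl_support_of_isOpen isOpen_Ioi (measure_mono_null Ioi_subset_Ici_self hz)
    intro x hx
    by_contra hcon
    have hzx : z < x := not_le.mp hcon
    exact h3 (show x ∈ Ioi z from hzx) hx
  refine (Metric.isBounded_Icc 1 z).subset ?_
  intro x hx
  exact ⟨(hsub hx).1, hsup (hsub hx).2⟩

/-- there is no solution for `M = 0` -/
lemma pos_of_solution (hF : IsProfile γ F) (hη : IsSource η L) (hM : 0 ≤ M) {f : Measure ℝ}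
    (hf : IsSolution γ F η M f) : 0 < M := by
  obtain ⟨H, hh⟩ := nice_hh hF
  have hs := sol_of_isSolution hF hf
  have hmass := hs.mass hh hη hM
  rcases hM.eq_or_lt with h0 | h0
  · rw [← h0] at hmass
    simp at hmass
  · exact h0

/-- The kernels used for the construction. -/
lemma exists_ksol_unb (hF : IsProfile γ F) (hη : IsSource η L) (hM : 1 ≤ M) :
    ∃ (k : ℝ × ℝ → ℝ) (C : ℝ) (μ : Measure ℝ), Ker k C ∧ KSol k η M μ ∧
      ∀ᵐ p ∂(μ.prod μ), k p = kk (hh γ F) p := by
  obtain ⟨H, hh'⟩ := nice_hh hF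
  obtain ⟨μ, hμ⟩ := exists_ksol hh' hη hM
  exact ⟨_, _, μ, ker_kbar hh', hμ, kbar_ae hμ⟩

lemma exists_ksol_bdd (hF : IsProfile γ F) (hη : IsSource η L) (hM : 0 < M)
    (hb : Bornology.IsBounded (reach γ F η)) :
    ∃ (k : ℝ × ℝ → ℝ) (C : ℝ) (μ : Measure ℝ), Ker k C ∧ KSol k η M μ ∧
      ∀ᵐ p ∂(μ.prod μ), k p = kk (hh γ F) p := by
  obtain ⟨H, hh'⟩ := nice_hh hF
  obtain ⟨R, hR⟩ := hb.bddAbove
  obtain ⟨μ, hμ⟩ := exists_ksol_cut hh' hη hM R
  have hk := ker_kcut hh' R
  have hfin : IsFiniteMeasure μ := ⟨hμ.fin⟩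
  have hkbar := ker_kbar hh'
  -- positivity of the cut kernel implies positivity of the kernel
  have hposk : ∀ p : ℝ × ℝ, 1 ≤ p.1 → 1 ≤ p.2 → 0 < kcut (hh γ F) R p → 0 < kern γ F p.1 p.2 := by
    intro p h1 h2 h3
    have hp1 : 0 < p.1 := by linarith
    have hp2 : 0 < p.2 := by linarith
    rw [kern_pos_iff hp1 hp2]
    rw [← kbar_eq (p := p) h1 h2]
    unfold kcut at h3
    have hb0 := hkbar.nonneg p
    rcases hb0.eq_or_lt with h0 | h0
    · rw [← h0, zero_mul] at h3; exact absurd h3 (lt_irrefl _)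
    · exact h0
  have hnull := hμ.null_induct hk hη hM {(reach γ F η)ᶜ}
    (fun N hN => by
      rw [mem_singleton_iff.mp hN]; exact reach_closed.measurableSet.compl)
    (fun N hN => by rw [mem_singleton_iff.mp hN]; exact reach_null)
    (by
      intro j ih N hN
      rw [mem_singleton_iff.mp hN]
      have h0 := ih _ (mem_singleton _)
      have hae : ∀ᵐ x ∂μ, x ∉ (reach γ F η)ᶜ ∩ Iio ((j:ℝ)+1) := measure_eq_zero_iff_ae_notMem.mp h0
      have hae1 : ∀ᵐ p ∂(μ.prod μ), p.1 ∉ (reach γ F η)ᶜ ∩ Iio ((j:ℝ)+1) :=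
        Measure.quasiMeasurePreserving_fst.ae hae
      have hae2 : ∀ᵐ p ∂(μ.prod μ), p.2 ∉ (reach γ F η)ᶜ ∩ Iio ((j:ℝ)+1) :=
        Measure.quasiMeasurePreserving_snd.ae hae
      filter_upwards [hae1, hae2, hμ.ae_one_prod] with p q1 q2 q3 hmem
      by_contra hcon
      push Not at hcon
      have hlt : p.1 + p.2 < (j:ℝ) + 2 := hmem.2
      have r1 : p.1 ∈ reach γ F η := by
        by_contra hc
        exact q1 ⟨hc, by change p.1 < (j:ℝ) + 1; linarith [q3.2]⟩
      have r2 : p.2 ∈ reach γ F η := by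
        by_contra hc
        exact q2 ⟨hc, by change p.2 < (j:ℝ) + 1; linarith [q3.1]⟩
      exact hmem.1 (reach_coag r1 r2 (by linarith [q3.1]) (by linarith [q3.2])
        (hposk p q3.1 q3.2 hcon)))
  have h0 : μ (reach γ F η)ᶜ = 0 := hnull _ (mem_singleton _)
  have hae : ∀ᵐ x ∂μ, x ∈ reach γ F η := by
    rw [ae_iff]; exact h0
  have hae1 : ∀ᵐ p ∂(μ.prod μ), p.1 ∈ reach γ F η := Measure.quasiMeasurePreserving_fst.ae hae
  have hae2 : ∀ᵐ p ∂(μ.prod μ), p.2 ∈ reach γ F η := Measure.quasiMeasurePreserving_snd.ae hae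
  refine ⟨_, _, μ, hk, hμ, ?_⟩
  filter_upwards [hae1, hae2, hμ.ae_one_prod] with p q1 q2 q3
  have hp1 : 0 < p.1 := by linarith [q3.1]
  have hp2 : 0 < p.2 := by linarith [q3.2]
  rw [← kbar_eq (p := p) q3.1 q3.2]
  rcases (hkbar.nonneg p).eq_or_lt with h0 | h0
  · unfold kcut
    rw [← h0, zero_mul]
  · refine kcut_small _ ?_
    refine hR ?_
    refine reach_coag q1 q2 hp1 hp2 ?_
    rw [kern_pos_iff hp1 hp2, ← kbar_eq (p := p) q3.1 q3.2]
    exact h0

/-- from a constructed measure to measure and function solutions -/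
lemma sols_of_ksol (hF : IsProfile γ F) (hη : IsSource η L) (hM : 0 < M)
    (hex : ∃ (k : ℝ × ℝ → ℝ) (C : ℝ) (μ : Measure ℝ), Ker k C ∧ KSol k η M μ ∧
      ∀ᵐ p ∂(μ.prod μ), k p = kk (hh γ F) p) :
    M ∈ solvable γ F η ∧ (η ≪ volume → M ∈ solvableFun γ F η) := by
  obtain ⟨k, C, μ, hk, hμ, hae⟩ := hex
  have hsol := isSolution_of_sol hF (hμ.sol hk hae)
  set f := μ.withDensity (wt (lam γ - 1)) with hf
  refine ⟨⟨hM.le, f, hsol⟩, fun hac => ?_⟩
  have hσ := sigmaFinite_of_radon hsol.pos hsol.radon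
  have hfac : f ≪ volume := (withDensity_absolutelyContinuous _ _).trans (hμ.ac hk hη hM hac)
  refine ⟨hM.le, fun x => (f.rnDeriv volume x).toReal,
    (Measure.measurable_rnDeriv f volume).ennreal_toReal, fun x => ENNReal.toReal_nonneg, ?_⟩
  have e : volume.withDensity (fun x => ENNReal.ofReal (f.rnDeriv volume x).toReal) = f := by
    have h1 : (fun x => ENNReal.ofReal (f.rnDeriv volume x).toReal) =ᵐ[volume]
        f.rnDeriv volume := by
      filter_upwards [Measure.rnDeriv_lt_top f volume] with x hx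
      exact ENNReal.ofReal_toReal hx.ne
    rw [withDensity_congr_ae h1, Measure.withDensity_rnDeriv_eq _ _ hfac]
  rw [e]
  exact hsol

theorem solvable_unbounded (hF : IsProfile γ F) (hη : IsSource η L)
    (hunb : ¬ Bornology.IsBounded (reach γ F η)) : solvable γ F η = Ici 1 := by
  ext M
  constructor
  · rintro ⟨hM, f, hf⟩
    exact one_le_of_unbounded hF hη hM hunb hf
  · intro hM
    have hM1 : 1 ≤ M := hM
    exact (sols_of_ksol hF hη (by linarith) (exists_ksol_unb hF hη hM1)).1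

theorem solvable_bounded (hF : IsProfile γ F) (hη : IsSource η L)
    (hb : Bornology.IsBounded (reach γ F η)) : solvable γ F η = Ioi 0 := by
  ext M
  constructor
  · rintro ⟨hM, f, hf⟩
    exact pos_of_solution hF hη hM hf
  · intro hM
    exact (sols_of_ksol hF hη hM (exists_ksol_bdd hF hη hM hb)).1

theorem solvableFun_eq (hF : IsProfile γ F) (hη : IsSource η L) (hac : η ≪ volume) :
    solvableFun γ F η = solvable γ F η := by
  apply Subset.antisymm
  · rintro M ⟨hM, f, -, -, hf⟩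
    exact ⟨hM, _, hf⟩
  · intro M hM
    by_cases hb : Bornology.IsBounded (reach γ F η)
    · rw [solvable_bounded hF hη hb] at hM
      exact (sols_of_ksol hF hη hM (exists_ksol_bdd hF hη hM hb)).2 hac
    · rw [solvable_unbounded hF hη hb] at hM
      have hM1 : 1 ≤ M := hM
      exact (sols_of_ksol hF hη (by linarith) (exists_ksol_unb hF hη hM1)).2 hac

end main

end Pool.Agent.Helper728.Coag
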