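import Mathlib
import Pool.Agent.Helper728.Coag.Gen

open MeasureTheory Filter Topology Set
open scoped ContDiff ENNReal

namespace Pool.Agent.Helper728.Coag

/-- A profile which vanishes on `[1/4, 3/4]`. -/
noncomputable def gapF (γ : ℝ) (s : ℝ) : ℝ := max 0 ((min s (1 - s)) ^ (-lam γ) - 4 ^ (lam γ))

/-- The source `2/3` on `[1,2]`. -/
noncomputable def gapE (x : ℝ) : ℝ := (Icc (1:ℝ) 2).indicator (fun _ => 2/3) x

lemma gap_profile {γ : ℝ} (hγ : γ < 1) : IsProfile γ (gapF γ) := by
  have hlam : 0 < lam γ := by unfold lam; linarith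
  refine ⟨hγ, ?_, ?_, ?_, ?_⟩
  · unfold gapF
    refine ContinuousOn.sup continuousOn_const (ContinuousOn.sub ?_ continuousOn_const)
    intro s hs
    have hm : min s (1 - s) ≠ 0 := (lt_min hs.1 (by linarith [hs.2])).ne'
    have hc : ContinuousAt (fun s : ℝ => min s (1 - s)) s := by fun_prop
    exact (hc.rpow_const (Or.inl hm)).continuousWithinAt
  · intro s _
    exact le_max_left _ _
  · intro s _
    unfold gapF
    rw [sub_sub_cancel, min_comm]
  · have h1 : Tendsto (fun s : ℝ => 1 - 4 ^ (lam γ) * s ^ (lam γ)) (𝓝[>] 0)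
        (𝓝 (1 - 4 ^ (lam γ) * 0)) := by
      refine tendsto_const_nhds.sub (tendsto_const_nhds.mul ?_)
      have : ContinuousAt (fun s : ℝ => s ^ (lam γ)) 0 :=
        Real.continuousAt_rpow_const _ _ (Or.inr hlam.le)
      have h2 := this.tendsto
      simp only [Real.zero_rpow hlam.ne'] at h2
      exact h2.mono_left nhdsWithin_le_nhds
    rw [mul_zero, sub_zero] at h1
    refine h1.congr' ?_
    filter_upwards [Ioo_mem_nhdsGT (show (0:ℝ) < 1/4 by norm_num)] with s hs
    unfold gapF
    have hmin : min s (1 - s) = s := min_eq_left (by linarith [hs.1, hs.2])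
    have hpos : 0 < s ^ (lam γ) := Real.rpow_pos_of_pos hs.1 _
    have h4 : 4 ^ (lam γ) * s ^ (lam γ) ≤ 1 := by
      rw [← Real.mul_rpow (by norm_num) hs.1.le]
      exact Real.rpow_le_one (by linarith [hs.1]) (by linarith [hs.2]) hlam.le
    have hge : 0 ≤ s ^ (-lam γ) - 4 ^ (lam γ) := by
      rw [Real.rpow_neg hs.1.le, sub_nonneg, ← one_div, le_div_iff₀ hpos]
      exact h4
    rw [hmin, max_eq_right hge, Real.rpow_neg hs.1.le]
    field_simp

lemma gap_zero {γ : ℝ} (hγ : γ < 1) {x y : ℝ} (hx : x ∈ Icc (1:ℝ) 2) (hy : y ∈ Icc (1:ℝ) 2) :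
    kern γ (gapF γ) x y = 0 := by
  have hlam : 0 < lam γ := by unfold lam; linarith
  have hxy : 0 < x + y := by linarith [hx.1, hy.1]
  have h1 : 1/4 ≤ x / (x + y) := by
    rw [le_div_iff₀ hxy]; linarith [hx.1, hy.2]
  have h2 : x / (x + y) ≤ 3/4 := by
    rw [div_le_iff₀ hxy]; linarith [hx.2, hy.1]
  have hm : 1/4 ≤ min (x/(x+y)) (1 - x/(x+y)) := le_min h1 (by linarith)
  have h3 : (min (x/(x+y)) (1 - x/(x+y))) ^ (-lam γ) ≤ 4 ^ (lam γ) := by
    calc (min (x/(x+y)) (1 - x/(x+y))) ^ (-lam γ) ≤ (1/4 : ℝ) ^ (-lam γ) :=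
          Real.rpow_le_rpow_of_nonpos (by norm_num) hm (by linarith)
      _ = 4 ^ (lam γ) := by
          rw [one_div, Real.inv_rpow (by norm_num), ← Real.rpow_neg (by norm_num), neg_neg]
  unfold kern gapF
  rw [max_eq_left (by linarith), mul_zero]

lemma gap_source : IsSource (volume.withDensity fun x => ENNReal.ofReal (gapE x)) 2 := by
  have hm : Measurable fun x => ENNReal.ofReal (gapE x) :=
    (measurable_const.indicator measurableSet_Icc).ennreal_ofReal
  refine ⟨by norm_num, ?_, ?_⟩
  · rw [withDensity_apply _ measurableSet_Icc.compl]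
    refine setLIntegral_eq_zero measurableSet_Icc.compl ?_
    intro x hx
    simp only [gapE]
    rw [indicator_of_notMem hx]
    simp
  · have hid : Measurable fun x : ℝ => ENNReal.ofReal x := measurable_id.ennreal_ofReal
    rw [lintegral_withDensity_eq_lintegral_mul _ hm hid]
    have e1 : ∀ x, ((fun x => ENNReal.ofReal (gapE x)) * fun x => ENNReal.ofReal x) x
        = (Icc (1:ℝ) 2).indicator (fun x => ENNReal.ofReal (2/3 * x)) x := by
      intro x
      simp only [Pi.mul_apply, gapE]
      by_cases hx : x ∈ Icc (1:ℝ) 2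
      · rw [indicator_of_mem hx, indicator_of_mem hx, ENNReal.ofReal_mul (by norm_num)]
      · rw [indicator_of_notMem hx, indicator_of_notMem hx]; simp
    rw [lintegral_congr e1, lintegral_indicator measurableSet_Icc,
      ← ofReal_integral_eq_lintegral_ofReal]
    · rw [integral_Icc_eq_integral_Ioc, ← intervalIntegral.integral_of_le (by norm_num),
        intervalIntegral.integral_const_mul, integral_id]
      norm_num
    · exact (continuous_const.mul continuous_id).integrableOn_Icc
    · filter_upwards [ae_restrict_mem measurableSet_Icc] with x hx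
      have : 0 ≤ x := by linarith [hx.1]
      simp only [Pi.zero_apply]
      positivity

lemma gap_bounded {γ : ℝ} (hγ : γ < 1) : Bornology.IsBounded
    (reach γ (gapF γ) (volume.withDensity fun x => ENNReal.ofReal (gapE x))) := by
  refine (Metric.isBounded_Icc 1 2).subset (reach_min isClosed_Icc gap_source.supp ?_)
  intro x hx y hy _ _ hk
  rw [gap_zero hγ hx hy] at hk
  exact absurd hk (lt_irrefl _)

end Pool.Agent.Helper728.Coag
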